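import Pool.Agent.Work.MP_f2148a_nt.M56.N1.Core

set_option autoImplicit false

/-!
N1, module Main: the theorem.
-/

namespace Pool.Agent.Work.MP_f2148a_nt.M56.N1

open MvPolynomial

/-- The count with the number of classes. -/
theorem count (m : ℕ) (hm : 1 ≤ m) (ε C₀ : ℝ) (hε : 0 < ε) (hC : 0 ≤ C₀) :
    ∃ N : ℕ, ∃ K₀ : ℝ, 2 ≤ K₀ ∧ ∀ K : ℝ, K₀ ≤ K →
    ∀ (x y α β : ℤ) (g : Polynomial (Polynomial ℤ)) (f₀ : ℤ) (J₀ H₀ : ℝ) (R : ℤ),
      |(x : ℝ)| ≤ K ^ C₀ → |(y : ℝ)| ≤ K ^ C₀ → |(α : ℝ)| ≤ K ^ C₀ → |(β : ℝ)| ≤ K ^ C₀ →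
      (∀ i j, |((g.coeff j).coeff i : ℝ)| ≤ K ^ C₀) → f₀ ∣ 3 → K ^ ε * J₀ ^ 2 ≤ H₀ → R ≠ 0 →
      (∀ P : ℤ × ℤ, IsCoprime P.1 P.2 → ∀ l : ℤ, (∀ c, l ∣ N1.val (Vf m g c) P) → l ∣ R) →
      ∀ S : Finset (ℤ × ℤ × ℤ × ℤ), (∀ p ∈ S, Pt x y α β m g f₀ K C₀ J₀ H₀ p) →
        (∀ p ∈ S, ∀ q ∈ S, p ≠ q → p.1 * q.2.1 ≠ q.1 * p.2.1) →
        (∀ p ∈ S, ∀ q ∈ S, p ≠ q →
          Hv (qq x y α β p.1 p.2.1) p.2.2.1 p.2.2.2 ^ 3 * Jv (qq x y α β q.1 q.2.1) ≠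
            Hv (qq x y α β q.1 q.2.1) q.2.2.1 q.2.2.2 ^ 3 * Jv (qq x y α β p.1 p.2.1)) →
        S.card ≤ N * R.natAbs.divisors.card ^ (m + 2) + 5 * (2 * m + 1) := by
  classical
  obtain ⟨C', hCC, hlen⟩ := len_bd m C₀ hC
  set η : ℝ := ε / 4 with hη
  have hη0 : 0 < η := by positivity
  obtain ⟨NT, hNT⟩ := boxes (3 * (2 * m + 1)) C' η hη0
  obtain ⟨NJ, hNJ⟩ := boxes 3 C' η hη0
  obtain ⟨NF, hNF⟩ := boxes (4 * m + 1) C' η hη0
  set A : ℝ := 27648 * 27 * (2 * (3 * (2 * m + 1)) + 3 + 3 * (4 * m + 1)) with hA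
  refine ⟨2 * (NT * (NJ * NF)), max 2 (max ((A ^ 2) ^ (1 / η)) (37325 ^ (1 / ε))), le_max_left _ _,
    ?_⟩
  intro K hK x y α β g f₀ J₀ H₀ R hx hy hα hβ hg hf hJH hR hRd S hS hS1 hS2
  have hK2 : 2 ≤ K := (le_max_left _ _).trans hK
  have hK0 : (0 : ℝ) < K := by linarith
  have hA0 : 0 < A := by
    rw [hA]
    positivity
  have hKA' : A ^ 2 ≤ K ^ η := by
    have h1 : (A ^ 2) ^ (1 / η) ≤ K := (le_max_left _ _).trans ((le_max_right _ _).trans hK)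
    have h2 := Real.rpow_le_rpow (by positivity) h1 hη0.le
    rwa [← Real.rpow_mul (by positivity), one_div_mul_cancel hη0.ne', Real.rpow_one] at h2
  have hK4' : 37325 ≤ K ^ ε := by
    have h1 : (37325 : ℝ) ^ (1 / ε) ≤ K := (le_max_right _ _).trans ((le_max_right _ _).trans hK)
    have h2 := Real.rpow_le_rpow (by positivity) h1 hε.le
    rwa [← Real.rpow_mul (by positivity), one_div_mul_cancel hε.ne', Real.rpow_one] at h2
  have hKη : (K ^ η) ^ 4 = K ^ ε := by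
    rw [← Real.rpow_natCast, ← Real.rpow_mul hK0.le, hη]
    congr 1
    push_cast
    ring
  have hE1 : 1 ≤ K ^ η := Real.one_le_rpow (by linarith) hη0.le
  have hKA : A ^ 2 < 64 * (K ^ η) ^ 2 := by nlinarith
  have hK4 : 37325 ≤ (K ^ η) ^ 4 := hKη ▸ hK4'
  obtain ⟨lF, lT, lJ⟩ := hlen K hK2 x y α β g hx hy hα hβ hg
  obtain ⟨dF, dH, dT, dJ⟩ := hom_all m x y α β (Vf m g) (hom_Vf m g)
  obtain ⟨βT, hβT⟩ := hNT K hK2 _ dT lT
  obtain ⟨βJ, hβJ⟩ := hNJ K hK2 _ dJ lJ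
  obtain ⟨βF, hβF⟩ := hNF K hK2 _ dF lF
  have hκ : ∀ n : ℕ, n ≠ 0 → ∃ κ : ℤ × ℤ → ℕ, (∀ P, κ P < n.divisors.card ^ (m + 1)) ∧
      ∀ P Q : ℤ × ℤ, IsCoprime P.1 P.2 → IsCoprime Q.1 Q.2 →
      (∀ c, (n : ℤ) ∣ N1.val (Vf m g c) P) → (∀ c, (n : ℤ) ∣ N1.val (Vf m g c) Q) →
      κ P = κ Q → ∀ c, (n : ℤ) ∣ der (Vf m g c) P Q := by
    intro n hn
    obtain ⟨κ, hκ⟩ := cls m hm (Vf m g) (hom_Vf m g) n hn
    exact ⟨fun P => κ P, fun P => (κ P).2, fun P Q h1 h2 h3 h4 h5 => hκ P Q h1 h2 h3 h4 (Fin.ext h5)⟩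
  choose! κ hκ1 hκ2 using hκ
  have hl : ∀ p ∈ S, ∃ l : ℤ, l ≠ 0 ∧ l ∣ R ∧
      ∀ c, N1.val (Vf m g c) (p.1, p.2.1) = l * ![p.2.2.1, p.2.2.2] c :=
    fun p hp => exists_mult R hR hRd hf p (hS p hp)
  choose! l hl0 hlR hlv using hl
  have hRn : R.natAbs ≠ 0 := Int.natAbs_ne_zero.2 hR
  set Φ : ℤ × ℤ × ℤ × ℤ → ℕ × Bool × ℕ × Fin NT × Fin NJ × Fin NF := fun p =>
    ((l p).natAbs, decide (0 < l p), κ (l p).natAbs (p.1, p.2.1), βT (p.1, p.2.1),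
      βJ (p.1, p.2.1), βF (p.1, p.2.1)) with hΦ
  set T : Finset (ℕ × Bool × ℕ × Fin NT × Fin NJ × Fin NF) :=
    R.natAbs.divisors ×ˢ Finset.univ ×ˢ Finset.range (R.natAbs.divisors.card ^ (m + 1)) ×ˢ
      Finset.univ ×ˢ Finset.univ ×ˢ Finset.univ with hT
  have hTc : T.card = 2 * (NT * (NJ * NF)) * R.natAbs.divisors.card ^ (m + 2) := by
    rw [hT]
    simp only [Finset.card_product, Finset.card_univ, Fintype.card_bool, Finset.card_range,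
      Fintype.card_fin]
    ring
  have hΦT : ∀ p ∈ S, Φ p ∈ T := by
    intro p hp
    have h1 : (l p).natAbs ∣ R.natAbs := Int.natAbs_dvd_natAbs.2 (hlR p hp)
    have h2 : (l p).natAbs ≠ 0 := Int.natAbs_ne_zero.2 (hl0 p hp)
    simp only [hΦ, hT, Finset.mem_product, Finset.mem_univ, Finset.mem_range, Nat.mem_divisors,
      true_and, and_true]
    refine ⟨⟨h1, hRn⟩, (hκ1 _ h2 _).trans_le ?_⟩
    exact Nat.pow_le_pow_left (Finset.card_le_card (Nat.divisors_subset_of_dvd hRn h1)) _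
  rw [← hTc]
  refine card_classes S T Φ hΦT _ fun S' hS' hcl => ?_
  by_contra hbig
  push Not at hbig
  -- the points
  set pr : ℤ × ℤ × ℤ × ℤ → ℤ × ℤ := fun p => (p.1, p.2.1) with hpr
  have hinj : Set.InjOn pr (S' : Set (ℤ × ℤ × ℤ × ℤ)) := by
    intro p hp q hq hpq
    by_contra hne
    have h1 := hS1 p (hS' hp) q (hS' hq) hne
    have h2 : p.1 = q.1 := congrArg (fun z : ℤ × ℤ => z.1) hpq
    have h3 : p.2.1 = q.2.1 := congrArg (fun z : ℤ × ℤ => z.2) hpq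
    apply h1
    rw [h2, h3]
  have hcard : (S'.image pr).card = S'.card := Finset.card_image_of_injOn hinj
  have hcl' : ∀ p ∈ S', ∃ q ∈ S, q ≠ p ∧ N1.val (HB x y α β (Vf m g)) (p.1, p.2.1) ≠ 0 ∧
      3 * N1.val (TB x y α β (Vf m g)) (p.1, p.2.1) *
        der (HB x y α β (Vf m g)) (p.1, p.2.1) (q.1, q.2.1) =
      2 * N1.val (HB x y α β (Vf m g)) (p.1, p.2.1) *
        der (TB x y α β (Vf m g)) (p.1, p.2.1) (q.1, q.2.1) := by
    intro p hp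
    obtain ⟨q, hq, hqp, hc⟩ := hcl p hp
    have hpS := hS' hp
    simp only [hΦ, Prod.mk.injEq] at hc
    obtain ⟨c1, c2, c3, c4, c5, c6⟩ := hc
    have hll : l q = l p := by
      rcases Int.natAbs_eq_natAbs_iff.1 c1 with h | h
      · exact h
      · exfalso
        have h1 := hl0 p hpS
        rw [h] at c2
        rw [decide_eq_decide] at c2
        omega
    have hlv' := hlv q hq
    rw [hll] at hlv'
    rw [hll] at c3
    refine ⟨q, hq, hqp, ?_⟩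
    exact same_class ε η C' A hε hη hCC hK2 hA hKA hK4 hJH hf βT βJ βF hβT hβJ hβF
      (κ (l p).natAbs) (l p) (hl0 p hpS) (hκ2 _ (Int.natAbs_ne_zero.2 (hl0 p hpS))) p q
      (hS p hpS) (hS q hq) (hlv p hpS) hlv' c3.symm c4.symm c5.symm c6.symm
  have hw := wst (2 * m + 1) (TB x y α β (Vf m g)) (HB x y α β (Vf m g)) dT dH (S'.image pr) (by
      intro P hP Q hQ hPQ
      obtain ⟨p, hp, rfl⟩ := Finset.mem_image.1 hP
      obtain ⟨q, hq, rfl⟩ := Finset.mem_image.1 hQ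
      have hne : p ≠ q := fun h => hPQ (by rw [h])
      have h1 := hS1 p (hS' hp) q (hS' hq) hne
      intro h2
      apply h1
      simp only [wd, hpr] at h2
      linarith) (by
      intro P hP
      obtain ⟨p, hp, rfl⟩ := Finset.mem_image.1 hP
      exact (hS p (hS' hp)).t0) (by
      intro P hP
      obtain ⟨p, hp, rfl⟩ := Finset.mem_image.1 hP
      obtain ⟨q, hq, hqp, h1, h2⟩ := hcl' p hp
      exact h1) (by
      intro P hP
      obtain ⟨p, hp, rfl⟩ := Finset.mem_image.1 hP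
      obtain ⟨q, hq, hqp, h1, h2⟩ := hcl' p hp
      refine ⟨(q.1, q.2.1), ?_, h2⟩
      have h3 := hS1 p (hS' hp) q hq (Ne.symm hqp)
      intro h4
      apply h3
      simp only [wd, hpr] at h4
      linarith) (by rw [hcard]; exact hbig)
  -- two points
  have h2 : 1 < S'.card := by omega
  obtain ⟨p, hp, q, hq, hpq⟩ := Finset.one_lt_card.1 h2
  have hpS := hS' hp
  have hqS := hS' hq
  have h5 := hw (p.1, p.2.1) (q.1, q.2.1) (hS p hpS).t0 (hS q hqS).t0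
  exact hS2 p hpS q hqS hpq (inv_eq hf p q (hS p hpS) (hS q hqS) (l p) (l q) (hl0 p hpS)
    (hl0 q hqS) (hlv p hpS) (hlv q hqS) h5)

/-- The bound for primitive points. -/
theorem core (m : ℕ) (hm : 1 ≤ m) (ε C₀ : ℝ) (hε : 0 < ε) (hC : 0 ≤ C₀) :
    ∃ C K₀ : ℝ, 0 ≤ C ∧ 2 ≤ K₀ ∧ ∀ K : ℝ, K₀ ≤ K →
    ∀ (x y α β : ℤ) (g : Polynomial (Polynomial ℤ)) (f₀ : ℤ) (J₀ H₀ : ℝ),
      |(x : ℝ)| ≤ K ^ C₀ → |(y : ℝ)| ≤ K ^ C₀ → |(α : ℝ)| ≤ K ^ C₀ → |(β : ℝ)| ≤ K ^ C₀ →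
      LD.Irr m 1 g → (∀ i j, |((g.coeff j).coeff i : ℝ)| ≤ K ^ C₀) → f₀ ∣ 3 →
      K ^ ε * J₀ ^ 2 ≤ H₀ →
      ∀ S : Finset (ℤ × ℤ × ℤ × ℤ), (∀ p ∈ S, Pt x y α β m g f₀ K C₀ J₀ H₀ p) →
        (∀ p ∈ S, ∀ q ∈ S, p ≠ q → p.1 * q.2.1 ≠ q.1 * p.2.1) →
        (∀ p ∈ S, ∀ q ∈ S, p ≠ q →
          Hv (qq x y α β p.1 p.2.1) p.2.2.1 p.2.2.2 ^ 3 * Jv (qq x y α β q.1 q.2.1) ≠
            Hv (qq x y α β q.1 q.2.1) q.2.2.1 q.2.2.2 ^ 3 * Jv (qq x y α β p.1 p.2.1)) →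
        (S.card : ℝ) ≤ C * K ^ ε := by
  obtain ⟨N, K₀, hK₀, hN⟩ := count m hm ε C₀ hε hC
  set ε' : ℝ := ε / ((m + 2) * (2 * m * C₀ + 1)) with hε'
  have hε'0 : 0 < ε' := by positivity
  obtain ⟨A, hA1, hA⟩ := exists_card_divisors_le ε' hε'0
  set F : ℝ := ((2 * m).factorial : ℝ) with hF
  have hF0 : 0 < F := by
    rw [hF]
    exact_mod_cast Nat.factorial_pos _
  refine ⟨N * (A ^ (m + 2) * F ^ (ε' * (m + 2))) + 5 * (2 * m + 1), K₀, by positivity, hK₀, ?_⟩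
  intro K hK x y α β g f₀ J₀ H₀ hx hy hα hβ hirr hg hf hJH S hS hS1 hS2
  have hK2 : 2 ≤ K := hK₀.trans hK
  have hK0 : 0 < K := by linarith
  obtain ⟨R, hR, hRb, hRd⟩ := syl m hm g hirr (K ^ C₀) hg
  have h1 := hN K hK x y α β g f₀ J₀ H₀ R hx hy hα hβ hg hf hJH hR hRd S hS hS1 hS2
  have hRn : 1 ≤ R.natAbs := Int.natAbs_pos.2 hR
  have h2 := hA R.natAbs hRn
  have h3 : (R.natAbs : ℝ) ≤ F * K ^ (2 * m * C₀) := by
    have h4 : (R.natAbs : ℝ) = |(R : ℝ)| := by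
      rw [← Int.cast_abs, Int.abs_eq_natAbs]
      simp
    rw [h4]
    refine hRb.trans (le_of_eq ?_)
    rw [← Real.rpow_natCast (K ^ C₀), ← Real.rpow_mul hK0.le]
    congr 2
    push_cast
    ring
  have h5 : ((R.natAbs.divisors.card : ℕ) : ℝ) ^ (m + 2) ≤
      A ^ (m + 2) * F ^ (ε' * (m + 2)) * K ^ ε := by
    calc ((R.natAbs.divisors.card : ℕ) : ℝ) ^ (m + 2) ≤ (A * (R.natAbs : ℝ) ^ ε') ^ (m + 2) := by
          gcongr
      _ = A ^ (m + 2) * (R.natAbs : ℝ) ^ (ε' * (m + 2)) := by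
          rw [mul_pow]
          congr 1
          rw [← Real.rpow_natCast, ← Real.rpow_mul (by positivity)]
          push_cast
          rfl
      _ ≤ A ^ (m + 2) * (F * K ^ (2 * m * C₀)) ^ (ε' * (m + 2)) := by
          gcongr
      _ = A ^ (m + 2) * F ^ (ε' * (m + 2)) * K ^ (2 * m * C₀ * (ε' * (m + 2))) := by
          rw [Real.mul_rpow hF0.le (by positivity), ← Real.rpow_mul hK0.le]
          ring
      _ ≤ A ^ (m + 2) * F ^ (ε' * (m + 2)) * K ^ ε := by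
          have h6 : 2 * m * C₀ * (ε' * (m + 2)) ≤ ε := by
            have hp : (0 : ℝ) < (m : ℝ) + 2 := by positivity
            have hq : (0 : ℝ) < 2 * m * C₀ + 1 := by positivity
            have h7 : ε' * (m + 2) = ε / (2 * m * C₀ + 1) := by
              rw [hε']
              field_simp
            rw [h7, mul_div_assoc', div_le_iff₀ hq]
            nlinarith
          have := Real.rpow_le_rpow_of_exponent_le (by linarith : 1 ≤ K) h6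
          gcongr
  have hKε : 1 ≤ K ^ ε := Real.one_le_rpow (by linarith) hε.le
  calc (S.card : ℝ) ≤ ((N * R.natAbs.divisors.card ^ (m + 2) + 5 * (2 * m + 1) : ℕ) : ℝ) := by
        exact_mod_cast h1
    _ = N * ((R.natAbs.divisors.card : ℕ) : ℝ) ^ (m + 2) + 5 * (2 * m + 1) := by push_cast; ring
    _ ≤ N * (A ^ (m + 2) * F ^ (ε' * (m + 2)) * K ^ ε) + 5 * (2 * m + 1) * K ^ ε := by
        have h8 : (0 : ℝ) ≤ 5 * (2 * m + 1) := by positivity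
        refine add_le_add (mul_le_mul_of_nonneg_left h5 (by positivity)) ?_
        nlinarith
    _ = _ := by ring

theorem q4_eq (x y α β s t : ℤ) : q4 x y α β s t = qq x y α β s t := by
  funext i
  fin_cases i <;> rfl

theorem J432_eq (x y α β s t : ℤ) : J432 (q4 x y α β s t) = Jv (qq x y α β s t) := by
  rw [q4_eq]
  rfl

theorem Hq_eq (x y α β s t X Y : ℤ) : Hq (q4 x y α β s t) X Y = Hv (qq x y α β s t) X Y := by
  rw [q4_eq]
  rfl

theorem Fv_eq (x y α β s t X Y : ℤ) :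
    Fv (qq x y α β s t) X Y = 3 * s * F0 x y X Y + t * G1 x y α β X Y := by
  simp only [Fv, qq, F0, G1]
  ring

theorem qq_mul (k x y α β s t : ℤ) (i : Fin 5) :
    qq x y α β (k * s) (k * t) i = k * qq x y α β s t i := by
  fin_cases i <;> simp [qq] <;> ring

theorem ev_smul (m : ℕ) (g : Polynomial (Polynomial ℤ)) (k s t u v : ℤ) :
    LD.ev m 1 g (k * s) (k * t) u v = k ^ m * LD.ev m 1 g s t u v := by
  unfold LD.ev LD.mon
  rw [Finset.mul_sum]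
  refine Finset.sum_congr rfl fun e _ => ?_
  have : k ^ m = k ^ (e.1 : ℕ) * k ^ (m - e.1) := by
    rw [← pow_add]
    congr 1
    have := e.1.2
    omega
  rw [mul_pow, mul_pow, this]
  ring

/-- THE THEOREM of block N1. -/
theorem n1 (m : ℕ) (hm : 1 ≤ m) (ε C₀ : ℝ) (hε : 0 < ε) (hC : 0 ≤ C₀) :
    ∃ C K₀ : ℝ, 0 ≤ C ∧ 2 ≤ K₀ ∧ ∀ K : ℝ, K₀ ≤ K →
    ∀ (x y α β : ℤ) (g : Polynomial (Polynomial ℤ)) (J₀ H₀ : ℝ),
      |(x : ℝ)| ≤ K ^ C₀ → |(y : ℝ)| ≤ K ^ C₀ → |(α : ℝ)| ≤ K ^ C₀ → |(β : ℝ)| ≤ K ^ C₀ →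
      LD.Irr m 1 g → (∀ i j, |((g.coeff j).coeff i : ℝ)| ≤ K ^ C₀) → K ^ ε * J₀ ^ 2 ≤ H₀ →
      ∀ P : Finset (ℤ × ℤ × ℤ × ℤ),
        (∀ p ∈ P, 3 * p.1 * F0 x y p.2.2.1 p.2.2.2 + p.2.1 * G1 x y α β p.2.2.1 p.2.2.2 = 3 ∧
          J432 (q4 x y α β p.1 p.2.1) ≠ 0 ∧
          |((J432 (q4 x y α β p.1 p.2.1) : ℤ) : ℝ)| ≤ J₀ ∧
          H₀ ≤ |((Hq (q4 x y α β p.1 p.2.1) p.2.2.1 p.2.2.2 : ℤ) : ℝ)| ∧
          |(p.1 : ℝ)| ≤ K ^ C₀ ∧ |(p.2.1 : ℝ)| ≤ K ^ C₀ ∧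
          LD.ev m 1 g p.1 p.2.1 p.2.2.1 p.2.2.2 = 0) →
        (∀ p ∈ P, ∀ p' ∈ P, p ≠ p' → p.1 * p'.2.1 ≠ p'.1 * p.2.1) →
        (∀ p ∈ P, ∀ p' ∈ P, p ≠ p' →
          (Hq (q4 x y α β p.1 p.2.1) p.2.2.1 p.2.2.2) ^ 3 * J432 (q4 x y α β p'.1 p'.2.1)
            ≠ (Hq (q4 x y α β p'.1 p'.2.1) p'.2.2.1 p'.2.2.2) ^ 3
              * J432 (q4 x y α β p.1 p.2.1)) →
        (P.card : ℝ) ≤ C * K ^ ε := by
  classical
  obtain ⟨C, K₀, hC0, hK₀, hcore⟩ := core m hm ε C₀ hε hC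
  refine ⟨2 * C + 1, K₀, by positivity, hK₀, ?_⟩
  intro K hK x y α β g J₀ H₀ hx hy hα hβ hirr hg hJH P hP hP1 hP2
  have hK2 : 2 ≤ K := hK₀.trans hK
  have hK0 : 0 < K := by linarith
  have hKε : 1 ≤ K ^ ε := Real.one_le_rpow (by linarith) hε.le
  have hH₀ : 0 ≤ H₀ := le_trans (by positivity) hJH
  set P0 := P.filter (fun p => p.2.1 = 0) with hP0
  set P1 := P.filter (fun p => p.2.1 ≠ 0 ∧ IsCoprime p.1 p.2.1) with hP1d
  set P3 := P.filter (fun p => p.2.1 ≠ 0 ∧ ¬ IsCoprime p.1 p.2.1) with hP3d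
  have hsub : P ⊆ P0 ∪ (P1 ∪ P3) := by
    intro p hp
    simp only [hP0, hP1d, hP3d, Finset.mem_union, Finset.mem_filter]
    tauto
  have hcard : P.card ≤ P0.card + (P1.card + P3.card) :=
    (Finset.card_le_card hsub).trans ((Finset.card_union_le _ _).trans
      (Nat.add_le_add_left (Finset.card_union_le _ _) _))
  have c0 : P0.card ≤ 1 := by
    rw [Finset.card_le_one]
    intro p hp q hq
    by_contra hne
    have h1 := Finset.mem_filter.1 hp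
    have h2 := Finset.mem_filter.1 hq
    apply hP1 p h1.1 q h2.1 hne
    rw [h1.2, h2.2]
    ring
  -- primitive points
  have c1 : (P1.card : ℝ) ≤ C * K ^ ε := by
    refine hcore K hK x y α β g 3 J₀ H₀ hx hy hα hβ hirr hg (dvd_refl _) hJH P1 ?_ ?_ ?_
    · intro p hp
      have h1 := Finset.mem_filter.1 hp
      obtain ⟨e1, e2, e3, e4, e5, e6, e7⟩ := hP p h1.1
      rw [J432_eq] at e2 e3
      rw [Hq_eq] at e4
      exact ⟨h1.2.2, h1.2.1, by rw [Fv_eq]; exact e1, e2, e3, e4, e5, e6, e7⟩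
    · intro p hp q hq hpq
      exact hP1 p (Finset.mem_filter.1 hp).1 q (Finset.mem_filter.1 hq).1 hpq
    · intro p hp q hq hpq
      have := hP2 p (Finset.mem_filter.1 hp).1 q (Finset.mem_filter.1 hq).1 hpq
      simpa only [J432_eq, Hq_eq] using this
  -- points divisible by 3
  have h3 : ∀ p ∈ P3, ∃ s t : ℤ, p.1 = 3 * s ∧ p.2.1 = 3 * t ∧ IsCoprime s t := by
    intro p hp
    have h1 := Finset.mem_filter.1 hp
    obtain ⟨e1, -⟩ := hP p h1.1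
    have hd : ((Int.gcd p.1 p.2.1 : ℕ) : ℤ) ∣ 3 := by
      rw [← e1]
      exact dvd_add (Dvd.dvd.mul_right (Dvd.dvd.mul_left (Int.gcd_dvd_left ..) _) _)
        (Dvd.dvd.mul_right (Int.gcd_dvd_right ..) _)
    have hd' : Int.gcd p.1 p.2.1 ∣ 3 := by exact_mod_cast hd
    have hg3 : Int.gcd p.1 p.2.1 = 3 := by
      rcases (Nat.dvd_prime Nat.prime_three).1 hd' with h | h
      · exact absurd (Int.isCoprime_iff_gcd_eq_one.2 h) h1.2.2
      · exact h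
    have ha : (3 : ℤ) ∣ p.1 := by
      have := Int.gcd_dvd_left p.1 p.2.1
      rw [hg3] at this
      exact_mod_cast this
    have hb : (3 : ℤ) ∣ p.2.1 := by
      have := Int.gcd_dvd_right p.1 p.2.1
      rw [hg3] at this
      exact_mod_cast this
    obtain ⟨s, hs⟩ := ha
    obtain ⟨t, ht⟩ := hb
    refine ⟨s, t, hs, ht, Int.isCoprime_iff_gcd_eq_one.2 ?_⟩
    rw [hs, ht, Int.gcd_mul_left] at hg3
    have : (3 : ℤ).natAbs = 3 := rfl
    rw [this] at hg3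
    omega
  choose! s3 t3 hs3 ht3 hc3 using h3
  set φ : ℤ × ℤ × ℤ × ℤ → ℤ × ℤ × ℤ × ℤ := fun p => (s3 p, t3 p, p.2.2.1, p.2.2.2) with hφ
  have hinj : Set.InjOn φ (P3 : Set (ℤ × ℤ × ℤ × ℤ)) := by
    intro p hp q hq hpq
    have hp' := Finset.mem_coe.1 hp
    have hq' := Finset.mem_coe.1 hq
    simp only [hφ, Prod.mk.injEq] at hpq
    obtain ⟨e1, e2, e3, e4⟩ := hpq
    refine Prod.ext ?_ (Prod.ext ?_ (Prod.ext e3 e4))
    · rw [hs3 p hp', hs3 q hq', e1]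
    · rw [ht3 p hp', ht3 q hq', e2]
  have c3 : (P3.card : ℝ) ≤ C * K ^ ε := by
    rw [← Finset.card_image_of_injOn hinj]
    have hJv : ∀ s t : ℤ, Jv (qq x y α β (3 * s) (3 * t)) = 27 * Jv (qq x y α β s t) := by
      intro s t
      simp only [Jv, qq_mul]
      ring
    have hHv : ∀ s t X Y : ℤ, Hv (qq x y α β (3 * s) (3 * t)) X Y =
        9 * Hv (qq x y α β s t) X Y := by
      intro s t X Y
      simp only [Hv, qq_mul]
      ring
    have hFv : ∀ s t X Y : ℤ, Fv (qq x y α β (3 * s) (3 * t)) X Y =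
        3 * Fv (qq x y α β s t) X Y := by
      intro s t X Y
      simp only [Fv, qq_mul]
      ring
    refine hcore K hK x y α β g 1 (J₀ / 27) (H₀ / 9) hx hy hα hβ hirr hg (one_dvd _) ?_
      (P3.image φ) ?_ ?_ ?_
    · have : K ^ ε * (J₀ / 27) ^ 2 = (K ^ ε * J₀ ^ 2) / 729 := by ring
      rw [this]
      linarith
    · intro p' hp'
      obtain ⟨p, hp, rfl⟩ := Finset.mem_image.1 hp'
      have h1 := Finset.mem_filter.1 hp
      obtain ⟨e1, e2, e3, e4, e5, e6, e7⟩ := hP p h1.1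
      rw [J432_eq] at e2 e3
      rw [Hq_eq] at e4
      rw [← Fv_eq] at e1
      rw [hs3 p hp, ht3 p hp] at e1 e2 e3 e4 e7
      rw [hs3 p hp] at e5
      rw [ht3 p hp] at e6
      have ht0 := h1.2.1
      rw [ht3 p hp] at ht0
      rw [hFv] at e1
      rw [hJv] at e2 e3
      rw [hHv] at e4
      rw [ev_smul] at e7
      push_cast at e3 e4 e5 e6
      rw [abs_mul] at e3 e4 e5 e6
      have a27 : |(27 : ℝ)| = 27 := abs_of_pos (by norm_num)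
      have a9 : |(9 : ℝ)| = 9 := abs_of_pos (by norm_num)
      have a3 : |(3 : ℝ)| = 3 := abs_of_pos (by norm_num)
      rw [a27] at e3
      rw [a9] at e4
      rw [a3] at e5 e6
      refine ⟨hc3 p hp, ?_, ?_, ?_, ?_, ?_, ?_, ?_, ?_⟩
      · intro h0
        apply ht0
        show 3 * t3 p = 0
        have : t3 p = 0 := h0
        rw [this]
        rfl
      · show Fv (qq x y α β (s3 p) (t3 p)) p.2.2.1 p.2.2.2 = 1
        linarith
      · show Jv (qq x y α β (s3 p) (t3 p)) ≠ 0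
        intro h0
        apply e2
        rw [h0]
        rfl
      · show |((Jv (qq x y α β (s3 p) (t3 p)) : ℤ) : ℝ)| ≤ J₀ / 27
        linarith
      · show H₀ / 9 ≤ |((Hv (qq x y α β (s3 p) (t3 p)) p.2.2.1 p.2.2.2 : ℤ) : ℝ)|
        linarith
      · show |(s3 p : ℝ)| ≤ K ^ C₀
        have := abs_nonneg (s3 p : ℝ)
        linarith
      · show |(t3 p : ℝ)| ≤ K ^ C₀
        have := abs_nonneg (t3 p : ℝ)
        linarith
      · show LD.ev m 1 g (s3 p) (t3 p) p.2.2.1 p.2.2.2 = 0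
        rcases mul_eq_zero.1 e7 with h | h
        · exact absurd h (pow_ne_zero _ (by norm_num))
        · exact h
    · intro p' hp' q' hq' hne
      obtain ⟨p, hp, rfl⟩ := Finset.mem_image.1 hp'
      obtain ⟨q, hq, rfl⟩ := Finset.mem_image.1 hq'
      have hpq : p ≠ q := fun h => hne (by rw [h])
      have := hP1 p (Finset.mem_filter.1 hp).1 q (Finset.mem_filter.1 hq).1 hpq
      rw [hs3 p hp, ht3 p hp, hs3 q hq, ht3 q hq] at this
      intro h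
      apply this
      have h' : s3 p * t3 q = s3 q * t3 p := h
      linear_combination 9 * h'
    · intro p' hp' q' hq' hne
      obtain ⟨p, hp, rfl⟩ := Finset.mem_image.1 hp'
      obtain ⟨q, hq, rfl⟩ := Finset.mem_image.1 hq'
      have hpq : p ≠ q := fun h => hne (by rw [h])
      have := hP2 p (Finset.mem_filter.1 hp).1 q (Finset.mem_filter.1 hq).1 hpq
      simp only [J432_eq, Hq_eq] at this
      rw [hs3 p hp, ht3 p hp, hs3 q hq, ht3 q hq, hJv, hJv, hHv, hHv] at this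
      intro h
      apply this
      have h' : Hv (qq x y α β (s3 p) (t3 p)) p.2.2.1 p.2.2.2 ^ 3 * Jv (qq x y α β (s3 q) (t3 q)) =
          Hv (qq x y α β (s3 q) (t3 q)) q.2.2.1 q.2.2.2 ^ 3 * Jv (qq x y α β (s3 p) (t3 p)) := h
      linear_combination 19683 * h'
  have hcr : (P.card : ℝ) ≤ P0.card + (P1.card + P3.card) := by exact_mod_cast hcard
  have c0r : (P0.card : ℝ) ≤ 1 := by exact_mod_cast c0
  nlinarith

end Pool.Agent.Work.MP_f2148a_nt.M56.N1
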