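import Pool.Agent.Work.MP_f2148a_nt.M56.N1.Defs

set_option autoImplicit false

/-!
N1, module Basic (all proved): `val` and `der`, dual numbers, Euler.
-/

namespace Pool.Agent.Work.MP_f2148a_nt.M56.N1

open MvPolynomial

variable (A B : Bf) (P Q : ℤ × ℤ)

theorem val_add : val (A + B) P = val A P + val B P := by
  simp [val]

theorem val_sub : val (A - B) P = val A P - val B P := by
  simp [val]

theorem val_neg : val (-A) P = -val A P := by
  simp [val]

theorem val_mul : val (A * B) P = val A P * val B P := by
  simp [val]

theorem val_pow (n : ℕ) : val (A ^ n) P = val A P ^ n := by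
  simp [val]

theorem val_C (a : ℤ) : val (C a) P = a := by
  simp [val]

theorem val_X0 : val (X 0) P = P.1 := by
  simp [val]

theorem val_X1 : val (X 1) P = P.2 := by
  simp [val]

theorem der_add : der (A + B) P Q = der A P Q + der B P Q := by
  simp only [der, map_add, val_add]
  ring

theorem der_mul : der (A * B) P Q = val A P * der B P Q + val B P * der A P Q := by
  simp only [der, Derivation.leibniz, smul_eq_mul, val_add, val_mul]
  ring

theorem der_C (a : ℤ) : der (C a) P Q = 0 := by
  simp [der, val]

theorem der_X0 : der (X 0) P Q = Q.1 := by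
  simp [der, val, pderiv_X]

theorem der_X1 : der (X 1) P Q = Q.2 := by
  simp [der, val, pderiv_X]

/-- evaluation at `P + εQ` in the dual numbers -/
noncomputable def dual : Bf →ₐ[ℤ] TrivSqZeroExt ℤ ℤ :=
  aeval ![TrivSqZeroExt.inl P.1 + TrivSqZeroExt.inr Q.1, TrivSqZeroExt.inl P.2 + TrivSqZeroExt.inr Q.2]

theorem dual_ev : dual P Q A = TrivSqZeroExt.inl (val A P) + TrivSqZeroExt.inr (der A P Q) := by
  induction A using MvPolynomial.induction_on with
  | C a =>
    rw [val_C, der_C]
    simp only [dual, aeval_C]
    ext
    · simp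
    · simp
  | add p q hp hq =>
    rw [map_add, hp, hq, val_add, der_add]
    ext <;> simp
  | mul_X p i hp =>
    rw [map_mul, hp]
    fin_cases i
    · have : dual P Q (X 0) = TrivSqZeroExt.inl P.1 + TrivSqZeroExt.inr Q.1 := by simp [dual]
      show _ * dual P Q (X 0) = _
      rw [this]
      show _ = TrivSqZeroExt.inl (val (p * X 0) P) + TrivSqZeroExt.inr (der (p * X 0) P Q)
      rw [val_mul, der_mul, val_X0, der_X0]
      ext
      · simp
      · simp
        ring
    · have : dual P Q (X 1) = TrivSqZeroExt.inl P.2 + TrivSqZeroExt.inr Q.2 := by simp [dual]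
      show _ * dual P Q (X 1) = _
      rw [this]
      show _ = TrivSqZeroExt.inl (val (p * X 1) P) + TrivSqZeroExt.inr (der (p * X 1) P Q)
      rw [val_mul, der_mul, val_X1, der_X1]
      ext
      · simp
      · simp
        ring

theorem dual_fst : (dual P Q A).fst = val A P := by
  rw [dual_ev]
  simp

theorem dual_snd : (dual P Q A).snd = der A P Q := by
  rw [dual_ev]
  simp

end Pool.Agent.Work.MP_f2148a_nt.M56.N1
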