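import Pool.Agent.Work.MP_f2148a_nt.M56.N1.Basic

set_option autoImplicit false

/-!
N1, module Boxes (log boxes). Over `ℂ`, `A = c t^(d-d') ∏ (s - ρ_i t)`, `c` a nonzero integer, `|ρ_i| ≤ 1 + len A`.
`der A P Q = val A P * ∑_i ℓ_i(Q) / ℓ_i(P)`. The class of `P` is the vector of the integers
`⌊log |ℓ_i(P)| / ((η / 2) log K)⌋`, where `K^(-C') ≤ |ℓ_i(P)| ≤ K^C'` (lower bound: `|val A P| ≥ 1`).
-/

namespace Pool.Agent.Work.MP_f2148a_nt.M56.N1

open MvPolynomial

/-- the dehomogenisation -/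
private noncomputable def dh (A : Bf) : Polynomial ℤ :=
  ∑ e ∈ A.support, Polynomial.monomial (e 0) (coeff e A)

private theorem dh_coeff_abs (A : Bf) (k : ℕ) : |(dh A).coeff k| ≤ len A := by
  unfold dh len
  rw [Polynomial.finsetSum_coeff]
  refine (Finset.abs_sum_le_sum_abs _ _).trans (Finset.sum_le_sum ?_)
  intro e _
  rw [Polynomial.coeff_monomial]
  split_ifs
  · exact le_rfl
  · simp

private theorem supp_deg {d : ℕ} {A : Bf} (hA : A.IsHomogeneous d) {e : Fin 2 →₀ ℕ}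
    (he : e ∈ A.support) : e 0 + e 1 = d := by
  have := hA (mem_support_iff.1 he)
  rw [Finsupp.weight_apply, Finsupp.sum_fintype] at this
  · simpa [Fin.sum_univ_two] using this
  · intro i
    simp

private theorem dh_natDegree {d : ℕ} {A : Bf} (hA : A.IsHomogeneous d) :
    (dh A).natDegree ≤ d := by
  unfold dh
  apply Polynomial.natDegree_sum_le_of_forall_le
  intro e he
  refine (Polynomial.natDegree_monomial_le _).trans ?_
  have := supp_deg hA he
  omega

private theorem dh_eval {d : ℕ} {A : Bf} (hA : A.IsHomogeneous d) (x : Fin 2 → ℂ)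
    (hx : x 1 ≠ 0) :
    eval x (map (Int.castRingHom ℂ) A) =
      x 1 ^ d * ((dh A).map (Int.castRingHom ℂ)).eval (x 0 / x 1) := by
  rw [eval_map, eval₂_eq', dh, Polynomial.map_sum, Polynomial.eval_finsetSum, Finset.mul_sum]
  refine Finset.sum_congr rfl ?_
  intro e he
  rw [Polynomial.map_monomial, Polynomial.eval_monomial, Fin.prod_univ_two, ← supp_deg hA he,
    pow_add, div_pow]
  field_simp

private theorem fact_list {d : ℕ} {A : Bf} (hA : A.IsHomogeneous d) (h0 : A ≠ 0) :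
    ∃ c : ℤ, c ≠ 0 ∧ |c| ≤ len A ∧ ∃ l : List (ℂ × ℂ), l.length = d ∧
      (∀ x ∈ l, ‖x.1‖ ≤ 1 ∧ ‖x.2‖ ≤ 1 + len A) ∧
      map (Int.castRingHom ℂ) A =
        C (c : ℂ) * (l.map fun x => (C x.1 * X 0 + C x.2 * X 1 : MvPolynomial (Fin 2) ℂ)).prod := by
  classical
  have hinf : ({t : ℂ | t ≠ 0} : Set ℂ).Infinite := by
    have := Set.Finite.infinite_compl (Set.finite_singleton (0 : ℂ))
    exact this
  have hinj : Function.Injective (Int.castRingHom ℂ) := Int.cast_injective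
  have ha : dh A ≠ 0 := by
    intro ha
    apply h0
    apply map_injective (Int.castRingHom ℂ) hinj
    rw [map_zero]
    refine funext_set (fun _ => {t : ℂ | t ≠ 0}) (fun _ => hinf) ?_
    intro x hx
    have hx1 : x 1 ≠ 0 := hx 1 (Set.mem_univ _)
    rw [dh_eval hA x hx1, ha]
    simp
  set aC : Polynomial ℂ := (dh A).map (Int.castRingHom ℂ) with haC
  have haC0 : aC ≠ 0 := (Polynomial.map_ne_zero_iff hinj).2 ha
  have hdeg : aC.natDegree ≤ d := (Polynomial.natDegree_map_le).trans (dh_natDegree hA)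
  have hs : aC.Splits := IsAlgClosed.splits aC
  have hcard : aC.roots.card = aC.natDegree := hs.natDegree_eq_card_roots.symm
  have hlead : aC.leadingCoeff = ((dh A).leadingCoeff : ℂ) := by
    rw [haC, Polynomial.leadingCoeff_map_of_injective hinj]
    rfl
  have hlc : (dh A).leadingCoeff ≠ 0 := Polynomial.leadingCoeff_ne_zero.2 ha
  have hlen1 : (1 : ℤ) ≤ len A :=
    (Int.one_le_abs hlc).trans (dh_coeff_abs A _)
  refine ⟨(dh A).leadingCoeff, hlc, dh_coeff_abs A _,
    (aC.roots.toList.map fun ρ => ((1 : ℂ), -ρ)) ++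
      List.replicate (d - aC.natDegree) ((0 : ℂ), (1 : ℂ)), ?_, ?_, ?_⟩
  · rw [List.length_append, List.length_map, Multiset.length_toList, List.length_replicate, hcard]
    omega
  · intro x hx
    rw [List.mem_append] at hx
    rcases hx with hx | hx
    · obtain ⟨ρ, hρ, rfl⟩ := List.mem_map.1 hx
      rw [Multiset.mem_toList, Polynomial.mem_roots haC0] at hρ
      refine ⟨by simp, ?_⟩
      have hc := Polynomial.IsRoot.norm_lt_cauchyBound haC0 hρ
      have hb : (Polynomial.cauchyBound aC : ℝ) ≤ 1 + len A := by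
        unfold Polynomial.cauchyBound
        rw [NNReal.coe_add, NNReal.coe_div, NNReal.coe_one, add_comm]
        gcongr
        have hn : (1 : ℝ) ≤ ‖aC.leadingCoeff‖ := by
          rw [hlead, Complex.norm_intCast]
          exact_mod_cast Int.one_le_abs hlc
        have hsup : ((Finset.sup (Finset.range aC.natDegree) (‖aC.coeff ·‖₊) : NNReal) : ℝ)
            ≤ len A := by
          have hl0 : (0 : ℝ) ≤ (len A : ℝ) := by
            have : (0 : ℤ) ≤ len A := by omega
            exact_mod_cast this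
          have : Finset.sup (Finset.range aC.natDegree) (‖aC.coeff ·‖₊) ≤
              Real.toNNReal (len A : ℝ) := by
            apply Finset.sup_le
            intro k _
            rw [← NNReal.coe_le_coe, coe_nnnorm, Real.coe_toNNReal _ hl0, haC,
              Polynomial.coeff_map]
            have h1 : ‖(Int.castRingHom ℂ) ((dh A).coeff k)‖ = ((|(dh A).coeff k| : ℤ) : ℝ) := by
              rw [eq_intCast, Complex.norm_intCast, Int.cast_abs]
            rw [h1]
            exact_mod_cast dh_coeff_abs A k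
          have h2 := NNReal.coe_le_coe.2 this
          rwa [Real.coe_toNNReal _ hl0] at h2
        rw [coe_nnnorm]
        refine (div_le_self ?_ hn).trans hsup
        exact NNReal.coe_nonneg _
      rw [norm_neg]
      have : (‖ρ‖ : ℝ) < (Polynomial.cauchyBound aC : ℝ) := by exact_mod_cast hc
      linarith
    · have := List.eq_of_mem_replicate hx
      subst this
      refine ⟨by simp, ?_⟩
      have : (1 : ℝ) ≤ (len A : ℝ) := by exact_mod_cast hlen1
      simp only [norm_one]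
      linarith
  · refine funext_set (fun _ => {t : ℂ | t ≠ 0}) (fun _ => hinf) ?_
    intro x hx
    have hx1 : x 1 ≠ 0 := hx 1 (Set.mem_univ _)
    rw [dh_eval hA x hx1, ← haC, hs.eval_eq_prod_roots, hlead, List.map_append, List.prod_append,
      List.map_map, List.map_replicate, List.prod_replicate]
    have h1 : (List.map ((fun x => (C x.1 * X 0 + C x.2 * X 1 : MvPolynomial (Fin 2) ℂ)) ∘
        fun ρ => ((1 : ℂ), -ρ)) aC.roots.toList).prod =
        (aC.roots.map fun ρ => (X 0 - C ρ * X 1 : MvPolynomial (Fin 2) ℂ)).prod := by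
      rw [← Multiset.prod_coe, ← Multiset.map_coe, Multiset.coe_toList]
      congr 1
      apply Multiset.map_congr rfl
      intro ρ _
      simp only [Function.comp, map_one, map_neg]
      ring
    rw [h1]
    simp only [map_mul, map_pow, eval_C, eval_X, map_zero, map_one, map_multiset_prod,
      Multiset.map_map, zero_mul, one_mul, zero_add]
    have h2 : (aC.roots.map (eval x ∘ fun ρ => (X 0 - C ρ * X 1 : MvPolynomial (Fin 2) ℂ))).prod =
        x 1 ^ aC.natDegree * (aC.roots.map fun a => x 0 / x 1 - a).prod := by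
      have : (aC.roots.map (eval x ∘ fun ρ => (X 0 - C ρ * X 1 : MvPolynomial (Fin 2) ℂ))) =
          aC.roots.map (fun a => x 1 * (x 0 / x 1 - a)) := by
        apply Multiset.map_congr rfl
        intro ρ _
        simp only [Function.comp, map_sub, map_mul, eval_X, eval_C]
        field_simp
      rw [this, Multiset.prod_map_mul, Multiset.map_const', Multiset.prod_replicate, hcard]
    rw [h2]
    have h3 : x 1 ^ d = x 1 ^ aC.natDegree * x 1 ^ (d - aC.natDegree) := by
      rw [← pow_add]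
      congr 1
      omega
    rw [h3]
    ring

/-- the derivative over `ℂ` -/
private noncomputable def dv (B : MvPolynomial (Fin 2) ℂ) (P Q : Fin 2 → ℂ) : ℂ :=
  Q 0 * eval P (pderiv 0 B) + Q 1 * eval P (pderiv 1 B)

private theorem dv_mul (B D : MvPolynomial (Fin 2) ℂ) (P Q : Fin 2 → ℂ) :
    dv (B * D) P Q = eval P B * dv D P Q + eval P D * dv B P Q := by
  simp only [dv, Derivation.leibniz, smul_eq_mul, map_add, map_mul]
  ring

private theorem dv_list (l : List (MvPolynomial (Fin 2) ℂ)) (P Q : Fin 2 → ℂ)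
    (h : ∀ x ∈ l, eval P x ≠ 0) :
    dv l.prod P Q = eval P l.prod * (l.map fun x => dv x P Q / eval P x).sum := by
  induction l with
  | nil => simp [dv]
  | cons a l ih =>
    have ha := h a (by simp)
    rw [List.prod_cons, dv_mul, ih (fun x hx => h x (by simp [hx])), List.map_cons,
      List.sum_cons, map_mul]
    field_simp
    ring

private theorem val_cast (A : Bf) (P : ℤ × ℤ) :
    ((val A P : ℤ) : ℂ) = eval ![(P.1 : ℂ), (P.2 : ℂ)] (map (Int.castRingHom ℂ) A) := by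
  rw [eval_map]
  have h := eval₂_comp (Int.castRingHom ℂ) ![P.1, P.2] A
  rw [show ((val A P : ℤ) : ℂ) = Int.castRingHom ℂ (eval ![P.1, P.2] A) from rfl, h]
  congr 1
  funext i
  fin_cases i <;> rfl

private theorem der_cast (A : Bf) (P Q : ℤ × ℤ) :
    ((der A P Q : ℤ) : ℂ) =
      dv (map (Int.castRingHom ℂ) A) ![(P.1 : ℂ), (P.2 : ℂ)] ![(Q.1 : ℂ), (Q.2 : ℂ)] := by
  simp only [der, dv, pderiv_map, Int.cast_add, Int.cast_mul, val_cast]
  simp

/-- the main algebraic fact: values and derivatives through linear forms -/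
private theorem forms {d : ℕ} {A : Bf} (hA : A.IsHomogeneous d) (h0 : A ≠ 0) :
    ∃ c : ℤ, c ≠ 0 ∧ |c| ≤ len A ∧ ∃ f : Fin d → ℂ × ℂ,
      (∀ i, ‖(f i).1‖ ≤ 1 ∧ ‖(f i).2‖ ≤ 1 + len A) ∧
      (∀ P : ℤ × ℤ, ((val A P : ℤ) : ℂ) = c * ∏ i, ((f i).1 * P.1 + (f i).2 * P.2)) ∧
      (∀ P Q : ℤ × ℤ, (∀ i, (f i).1 * P.1 + (f i).2 * P.2 ≠ 0) →
        ((der A P Q : ℤ) : ℂ) = (val A P : ℤ) *
          ∑ i, ((f i).1 * Q.1 + (f i).2 * Q.2) / ((f i).1 * P.1 + (f i).2 * P.2)) := by
  obtain ⟨c, hc, hcl, l, hl, hb, hf⟩ := fact_list hA h0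
  subst hl
  refine ⟨c, hc, hcl, fun i => l[i.1], ?_, ?_, ?_⟩
  · intro i
    exact hb _ (List.getElem_mem _)
  · intro P
    rw [val_cast, hf, map_mul, eval_C, map_list_prod, List.map_map]
    rw [Fin.prod_univ_fun_getElem l (fun x => (x.1 * (P.1 : ℂ) + x.2 * (P.2 : ℂ)))]
    congr 3
    funext x
    simp
  · intro P Q hP
    have hne : ∀ x ∈ l.map (fun x => (C x.1 * X 0 + C x.2 * X 1 : MvPolynomial (Fin 2) ℂ)),
        eval ![(P.1 : ℂ), (P.2 : ℂ)] x ≠ 0 := by
      intro x hx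
      obtain ⟨y, hy, rfl⟩ := List.mem_map.1 hx
      obtain ⟨i, hi, rfl⟩ := List.getElem_of_mem hy
      have := hP ⟨i, hi⟩
      simpa using this
    rw [der_cast, val_cast, hf, dv_mul, dv_list _ _ _ hne]
    have hC : dv (C (c : ℂ)) ![(P.1 : ℂ), (P.2 : ℂ)] ![(Q.1 : ℂ), (Q.2 : ℂ)] = 0 := by
      simp [dv]
    rw [hC, mul_zero, add_zero, map_mul, ← mul_assoc, List.map_map]
    congr 1
    rw [Fin.sum_univ_fun_getElem l (fun x => (x.1 * (Q.1 : ℂ) + x.2 * (Q.2 : ℂ)) /
      (x.1 * (P.1 : ℂ) + x.2 * (P.2 : ℂ)))]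
    congr 2
    funext x
    simp only [Function.comp, dv]
    simp [pderiv_X]
    ring

/-- the class index of a real number -/
private noncomputable def cls (η K : ℝ) (B : ℕ) (x : ℝ) : Fin (2 * B + 1) :=
  Fin.ofNat (2 * B + 1) (⌊Real.log x / (η / 2 * Real.log K)⌋ + B).toNat

private theorem cls_spec (η K E : ℝ) (hη : 0 < η) (hK : 2 ≤ K) (B : ℕ) (hB : 2 * E / η + 1 ≤ B)
    (x y : ℝ) (hx : 0 < x) (hy : 0 < y) (hx1 : -(E * Real.log K) ≤ Real.log x)
    (hx2 : Real.log x ≤ E * Real.log K) (hy1 : -(E * Real.log K) ≤ Real.log y)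
    (hy2 : Real.log y ≤ E * Real.log K) (h : cls η K B x = cls η K B y) :
    y ≤ K ^ η * x := by
  have hlK : 0 < Real.log K := Real.log_pos (by linarith)
  have hq : 0 < η / 2 * Real.log K := by positivity
  have key : ∀ z : ℝ, -(E * Real.log K) ≤ Real.log z → Real.log z ≤ E * Real.log K →
      -(B : ℤ) ≤ ⌊Real.log z / (η / 2 * Real.log K)⌋ ∧
        ⌊Real.log z / (η / 2 * Real.log K)⌋ ≤ (B : ℤ) := by
    intro z h1 h2
    have e1 : Real.log z / (η / 2 * Real.log K) ≤ 2 * E / η := by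
      rw [div_le_div_iff₀ hq hη]
      nlinarith
    have e2 : -(2 * E / η) ≤ Real.log z / (η / 2 * Real.log K) := by
      rw [← neg_div, div_le_div_iff₀ hη hq]
      nlinarith
    constructor
    · rw [Int.le_floor]
      push_cast
      linarith
    · have : ((⌊Real.log z / (η / 2 * Real.log K)⌋ : ℤ) : ℝ) ≤ (B : ℝ) :=
        (Int.floor_le _).trans (by linarith)
      exact_mod_cast this
  obtain ⟨a1, a2⟩ := key x hx1 hx2
  obtain ⟨b1, b2⟩ := key y hy1 hy2
  have hfl : ⌊Real.log x / (η / 2 * Real.log K)⌋ = ⌊Real.log y / (η / 2 * Real.log K)⌋ := by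
    have h' := congrArg Fin.val h
    simp only [cls, Fin.val_ofNat] at h'
    rw [Nat.mod_eq_of_lt (by omega), Nat.mod_eq_of_lt (by omega)] at h'
    omega
  have h1 := Int.floor_le (Real.log x / (η / 2 * Real.log K))
  have h2 := Int.lt_floor_add_one (Real.log y / (η / 2 * Real.log K))
  rw [← hfl] at h2
  have h3 : Real.log y / (η / 2 * Real.log K) ≤ Real.log x / (η / 2 * Real.log K) + 1 := by
    linarith
  have h4 : Real.log y ≤ Real.log x + η / 2 * Real.log K := by
    rw [div_le_iff₀ hq, add_mul, div_mul_cancel₀ _ hq.ne'] at h3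
    linarith
  have h5 : Real.log y ≤ Real.log (K ^ η * x) := by
    rw [Real.log_mul (by positivity) hx.ne', Real.log_rpow (by linarith)]
    nlinarith
  exact (Real.log_le_log_iff hy (by positivity)).1 h5

theorem boxes (d : ℕ) (C η : ℝ) (hη : 0 < η) :
    ∃ N : ℕ, ∀ K : ℝ, 2 ≤ K → ∀ A : Bf, A.IsHomogeneous d → (len A : ℝ) ≤ K ^ C →
      ∃ β : ℤ × ℤ → Fin N, ∀ P Q : ℤ × ℤ, |(P.1 : ℝ)| ≤ K ^ C → |(P.2 : ℝ)| ≤ K ^ C →
        |(Q.1 : ℝ)| ≤ K ^ C → |(Q.2 : ℝ)| ≤ K ^ C → val A P ≠ 0 → val A Q ≠ 0 → β P = β Q →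
        |(der A P Q : ℝ)| ≤ d * K ^ η * |(val A P : ℝ)| := by
  classical
  set C1 : ℝ := max C 0 with hC1
  have hC10 : 0 ≤ C1 := le_max_right _ _
  set E : ℝ := (2 * C1 + 2) * (d + 1) with hE
  obtain ⟨B, hB⟩ := exists_nat_ge (2 * E / η + 1)
  refine ⟨Fintype.card (Fin d → Fin (2 * B + 1)), ?_⟩
  intro K hK A hA hlen
  have hK1 : (1 : ℝ) ≤ K := by linarith
  have hK0 : (0 : ℝ) < K := by linarith
  have hCC : K ^ C ≤ K ^ C1 := Real.rpow_le_rpow_of_exponent_le hK1 (le_max_left _ _)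
  have hKC1 : 1 ≤ K ^ C1 := Real.one_le_rpow hK1 hC10
  by_cases h0 : A = 0
  · refine ⟨fun _ => Fintype.equivFin _ (fun _ => 0), ?_⟩
    intro P Q _ _ _ _ hP
    exfalso
    apply hP
    rw [h0]
    simp [val]
  obtain ⟨c, hc, hcl, f, hf, hval, hder⟩ := forms hA h0
  -- the linear forms
  set L : Fin d → ℤ × ℤ → ℂ := fun i P => (f i).1 * P.1 + (f i).2 * P.2 with hL
  refine ⟨fun P => Fintype.equivFin _ (fun i => cls η K B ‖L i P‖), ?_⟩
  set U : ℝ := K ^ (2 * C1 + 2) with hU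
  have hU1 : 1 ≤ U := Real.one_le_rpow hK1 (by linarith)
  have hUC : K ^ C1 * K ^ C1 * 4 ≤ U := by
    have : U = K ^ C1 * K ^ C1 * K ^ (2 : ℝ) := by
      rw [hU, ← Real.rpow_add hK0, ← Real.rpow_add hK0]
      congr 1
      ring
    rw [this]
    have h4 : (4 : ℝ) ≤ K ^ (2 : ℝ) := by
      rw [Real.rpow_two]
      nlinarith
    gcongr
  have hlenU : (len A : ℝ) ≤ K ^ C1 := hlen.trans hCC
  -- bounds for one point
  have bnd : ∀ P : ℤ × ℤ, |(P.1 : ℝ)| ≤ K ^ C → |(P.2 : ℝ)| ≤ K ^ C → val A P ≠ 0 →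
      ∀ i, 0 < ‖L i P‖ ∧ -(E * Real.log K) ≤ Real.log ‖L i P‖ ∧
        Real.log ‖L i P‖ ≤ E * Real.log K := by
    intro P hP1 hP2 hv i
    have up : ∀ j, ‖L j P‖ ≤ U := by
      intro j
      have e1 : ‖(P.1 : ℂ)‖ ≤ K ^ C1 := by
        rw [Complex.norm_intCast]
        exact hP1.trans hCC
      have e2 : ‖(P.2 : ℂ)‖ ≤ K ^ C1 := by
        rw [Complex.norm_intCast]
        exact hP2.trans hCC
      calc ‖L j P‖ ≤ ‖(f j).1‖ * ‖(P.1 : ℂ)‖ + ‖(f j).2‖ * ‖(P.2 : ℂ)‖ := by
            refine (norm_add_le _ _).trans ?_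
            rw [norm_mul, norm_mul]
        _ ≤ 1 * K ^ C1 + (1 + K ^ C1) * K ^ C1 := by
            have := (hf j).1
            have := (hf j).2
            gcongr
            linarith
        _ ≤ K ^ C1 * K ^ C1 * 4 := by nlinarith
        _ ≤ U := hUC
    have hprod : 1 ≤ |(c : ℝ)| * ∏ j, ‖L j P‖ := by
      have h1 : ‖((val A P : ℤ) : ℂ)‖ = |(c : ℝ)| * ∏ j, ‖L j P‖ := by
        rw [hval P, norm_mul, Complex.norm_intCast, norm_prod]
      rw [← h1, Complex.norm_intCast]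
      exact_mod_cast Int.one_le_abs hv
    have hcU : |(c : ℝ)| ≤ U := by
      have : |(c : ℝ)| ≤ (len A : ℝ) := by exact_mod_cast hcl
      nlinarith
    have hsplit : ∏ j, ‖L j P‖ = ‖L i P‖ * ∏ j ∈ Finset.univ.erase i, ‖L j P‖ :=
      (Finset.mul_prod_erase _ _ (Finset.mem_univ i)).symm
    have herase : ∏ j ∈ Finset.univ.erase i, ‖L j P‖ ≤ U ^ d := by
      calc ∏ j ∈ Finset.univ.erase i, ‖L j P‖ ≤ ∏ _j ∈ Finset.univ.erase i, U :=
            Finset.prod_le_prod (fun _ _ => norm_nonneg _) (fun j _ => up j)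
        _ = U ^ (Finset.univ.erase i).card := by rw [Finset.prod_const]
        _ ≤ U ^ d := by
            apply pow_le_pow_right₀ hU1
            rw [Finset.card_erase_of_mem (Finset.mem_univ i), Finset.card_univ, Fintype.card_fin]
            omega
    have herase0 : 0 ≤ ∏ j ∈ Finset.univ.erase i, ‖L j P‖ :=
      Finset.prod_nonneg fun _ _ => norm_nonneg _
    have hlow : 1 ≤ ‖L i P‖ * U ^ (d + 1) := by
      calc (1 : ℝ) ≤ |(c : ℝ)| * (‖L i P‖ * ∏ j ∈ Finset.univ.erase i, ‖L j P‖) := by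
            rw [← hsplit]
            exact hprod
        _ ≤ U * (‖L i P‖ * U ^ d) := by gcongr
        _ = ‖L i P‖ * U ^ (d + 1) := by ring
    have hpos : 0 < ‖L i P‖ := by
      rcases (norm_nonneg (L i P)).eq_or_lt with h | h
      · rw [← h] at hlow
        norm_num at hlow
      · exact h
    have hlogU : Real.log (U ^ (d + 1)) = E * Real.log K := by
      rw [Real.log_pow, hU, Real.log_rpow hK0, hE]
      push_cast
      ring
    refine ⟨hpos, ?_, ?_⟩
    · have := Real.log_nonneg hlow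
      rw [Real.log_mul hpos.ne' (by positivity), hlogU] at this
      linarith
    · rw [← hlogU]
      apply Real.log_le_log hpos
      calc ‖L i P‖ ≤ U := up i
        _ = U ^ 1 := (pow_one _).symm
        _ ≤ U ^ (d + 1) := pow_le_pow_right₀ hU1 (by omega)
  intro P Q hP1 hP2 hQ1 hQ2 hvP hvQ hβ
  have hβ' := (Fintype.equivFin _).injective hβ
  have hr : ∀ i, ‖L i Q‖ ≤ K ^ η * ‖L i P‖ := by
    intro i
    obtain ⟨p0, p1, p2⟩ := bnd P hP1 hP2 hvP i
    obtain ⟨q0, q1, q2⟩ := bnd Q hQ1 hQ2 hvQ i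
    exact cls_spec η K E hη hK B hB _ _ p0 q0 p1 p2 q1 q2 (congrFun hβ' i)
  have hne : ∀ i, L i P ≠ 0 := fun i => norm_pos_iff.1 (bnd P hP1 hP2 hvP i).1
  have hd := hder P Q hne
  have hn : |(der A P Q : ℝ)| = |(val A P : ℝ)| * ‖∑ i, L i Q / L i P‖ := by
    rw [← Complex.norm_intCast, hd, norm_mul, Complex.norm_intCast]
  rw [hn]
  have hs : ‖∑ i, L i Q / L i P‖ ≤ d * K ^ η := by
    calc ‖∑ i, L i Q / L i P‖ ≤ ∑ i, ‖L i Q / L i P‖ := norm_sum_le _ _
      _ ≤ ∑ _i : Fin d, K ^ η := by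
          apply Finset.sum_le_sum
          intro i _
          rw [norm_div, div_le_iff₀ (norm_pos_iff.2 (hne i))]
          exact hr i
      _ = d * K ^ η := by simp
  calc |(val A P : ℝ)| * ‖∑ i, L i Q / L i P‖ ≤ |(val A P : ℝ)| * (d * K ^ η) := by gcongr
    _ = d * K ^ η * |(val A P : ℝ)| := by ring

end Pool.Agent.Work.MP_f2148a_nt.M56.N1
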