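import Pool.Agent.Work.MP_f2148a_nt.M56.N1.ClsA

set_option autoImplicit false

/-!
N1, module Cls: all moduli (induction over coprime factors, `Nat.recOnPosPrimePosCoprime`,
`Nat.Coprime.card_divisors_mul`, pairs of classes).
-/

namespace Pool.Agent.Work.MP_f2148a_nt.M56.N1

open MvPolynomial

theorem cls (m : ℕ) (hm : 1 ≤ m) (V : Fin 2 → Bf) (hV : ∀ c, (V c).IsHomogeneous m) (g : ℕ)
    (hg : g ≠ 0) :
    ∃ κ : ℤ × ℤ → Fin (g.divisors.card ^ (m + 1)), ∀ P Q : ℤ × ℤ, IsCoprime P.1 P.2 →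
      IsCoprime Q.1 Q.2 → (∀ c, (g : ℤ) ∣ val (V c) P) → (∀ c, (g : ℤ) ∣ val (V c) Q) →
      κ P = κ Q → ∀ c, (g : ℤ) ∣ der (V c) P Q := by
  induction g using Nat.recOnPosPrimePosCoprime with
  | prime_pow p n hp hn =>
    obtain ⟨κ, hκ⟩ := clsA p hp m n hm V hV
    have hc : (p ^ n).divisors.card = n + 1 := by
      rw [Nat.divisors_prime_pow hp n, Finset.card_map, Finset.card_range]
    rw [hc]
    exact ⟨κ, hκ⟩
  | zero => exact absurd rfl hg
  | one =>
    refine ⟨fun _ => ⟨0, by simp⟩, ?_⟩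
    intro P Q _ _ _ _ _ c
    simp
  | coprime a b ha hb hab iha ihb =>
    obtain ⟨κ, hκ⟩ := iha (by omega)
    obtain ⟨κ', hκ'⟩ := ihb (by omega)
    have hc : (a * b).divisors.card ^ (m + 1)
        = a.divisors.card ^ (m + 1) * b.divisors.card ^ (m + 1) := by
      rw [Nat.Coprime.card_divisors_mul hab, mul_pow]
    rw [hc]
    refine ⟨fun P => finProdFinEquiv (κ P, κ' P), ?_⟩
    intro P Q hP hQ hVP hVQ h c
    have h1 := finProdFinEquiv.injective h
    rw [Prod.mk.injEq] at h1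
    push_cast at hVP hVQ ⊢
    have hco : IsCoprime (a : ℤ) (b : ℤ) := Nat.isCoprime_iff_coprime.mpr hab
    apply hco.mul_dvd
    · exact hκ P Q hP hQ (fun c => (Dvd.intro _ rfl).trans (hVP c))
        (fun c => (Dvd.intro _ rfl).trans (hVQ c)) h1.1 c
    · exact hκ' P Q hP hQ (fun c => (Dvd.intro_left _ rfl).trans (hVP c))
        (fun c => (Dvd.intro_left _ rfl).trans (hVQ c)) h1.2 c

end Pool.Agent.Work.MP_f2148a_nt.M56.N1
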