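import Pool.Agent.Work.MP_f2148a_nt.M56.N1.Lag

set_option autoImplicit false

/-!
N1, module ClsA (prime powers). For `P` let `j(P) ≤ e` be the largest `j` with `p^j ∣ der (V c) P R` for all
`c, R`. By `lag` (with `l = e - j`), among `m + 1` points with `p^e ∣ V` and the same `j < e` two satisfy
`p^(e-j) ∣ wd`. For primitive points this is an equivalence relation with `≤ m` classes.
If `p^(e-j) ∣ wd P Q`, `Q = a P + p^(e-j) b U` with `wd P U = 1`, so `der V P Q = a m V(P) + p^(e-j) b der V P U`.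
-/

namespace Pool.Agent.Work.MP_f2148a_nt.M56.N1

open MvPolynomial

private theorem wd_trans (l : ℤ) (P M Q : ℤ × ℤ) (hM : IsCoprime M.1 M.2)
    (h1 : l ∣ wd P M) (h2 : l ∣ wd M Q) : l ∣ wd P Q := by
  obtain ⟨a, b, hab⟩ := hM
  have h : wd P Q = a * (wd P M * Q.1 + wd M Q * P.1) + b * (wd P M * Q.2 + wd M Q * P.2) := by
    simp only [wd]
    linear_combination (-(P.1 * Q.2 - P.2 * Q.1)) * hab
  rw [h]
  exact dvd_add
    (Dvd.dvd.mul_left (dvd_add (Dvd.dvd.mul_right h1 _) (Dvd.dvd.mul_right h2 _)) _)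
    (Dvd.dvd.mul_left (dvd_add (Dvd.dvd.mul_right h1 _) (Dvd.dvd.mul_right h2 _)) _)

private theorem der_lin (A : Bf) (P Q : ℤ × ℤ) (m : ℕ) (hA : A.IsHomogeneous m) (U : ℤ × ℤ)
    (hU : wd P U = 1) :
    der A P Q = wd Q U * (m * val A P) + wd P Q * der A P U := by
  have hE : P.1 * val (pderiv 0 A) P + P.2 * val (pderiv 1 A) P = m * val A P := by
    have h := congrArg (fun B => val B P) hA.sum_X_mul_pderiv
    simp only [Fin.sum_univ_two, val_add, val_mul, val_X0, val_X1] at h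
    rw [h]
    simp [val]
  rw [← hE]
  simp only [der, wd] at *
  linear_combination (-(Q.1 * val (pderiv 0 A) P + Q.2 * val (pderiv 1 A) P)) * hU

private theorem cls_fn {α : Type*} (m : ℕ) (hm : 1 ≤ m) (Z : Set α) (r : α → α → Prop)
    (hr : ∀ a ∈ Z, r a a) (hs : ∀ a ∈ Z, ∀ b ∈ Z, r a b → r b a)
    (ht : ∀ a ∈ Z, ∀ b ∈ Z, ∀ c ∈ Z, r a b → r b c → r a c)
    (h : ∀ g : Fin (m + 1) → α, (∀ i, g i ∈ Z) → ∃ i j, i ≠ j ∧ r (g i) (g j)) :
    ∃ f : α → Fin m, ∀ a ∈ Z, ∀ b ∈ Z, f a = f b → r a b := by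
  classical
  let s : Setoid Z := ⟨fun a b => r a b, fun a => hr a a.2, fun {a b} h => hs a a.2 b b.2 h,
    fun {a b c} h h' => ht a a.2 b b.2 c c.2 h h'⟩
  have key : ¬ Nonempty (Fin (m + 1) ↪ Quotient s) := by
    rintro ⟨φ⟩
    obtain ⟨i, j, hij, hh⟩ := h (fun i => ((φ i).out : Z)) (fun i => ((φ i).out).2)
    apply hij
    apply φ.injective
    rw [← Quotient.out_eq (φ i), ← Quotient.out_eq (φ j)]
    exact Quotient.sound hh
  have hfin : Finite (Quotient s) := by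
    by_contra hinf
    rw [not_finite_iff_infinite] at hinf
    exact key ⟨(Fin.valEmbedding).trans (Infinite.natEmbedding _)⟩
  have hcard : Nat.card (Quotient s) ≤ m := by
    by_contra hc
    push Not at hc
    apply key
    have := Fintype.ofFinite (Quotient s)
    apply Function.Embedding.nonempty_of_card_le
    rw [Fintype.card_fin, ← Nat.card_eq_fintype_card]
    omega
  obtain ⟨ψ⟩ : Nonempty (Quotient s ↪ Fin m) := by
    have := Fintype.ofFinite (Quotient s)
    apply Function.Embedding.nonempty_of_card_le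
    rw [Fintype.card_fin, ← Nat.card_eq_fintype_card]
    exact hcard
  refine ⟨fun a => if ha : a ∈ Z then ψ (Quotient.mk s ⟨a, ha⟩) else ⟨0, hm⟩, ?_⟩
  intro a ha b hb hab
  simp only [ha, hb, dif_pos] at hab
  exact Quotient.exact (ψ.injective hab)

theorem clsA (p : ℕ) (hp : p.Prime) (m e : ℕ) (hm : 1 ≤ m) (V : Fin 2 → Bf)
    (hV : ∀ c, (V c).IsHomogeneous m) :
    ∃ κ : ℤ × ℤ → Fin ((e + 1) ^ (m + 1)), ∀ P Q : ℤ × ℤ, IsCoprime P.1 P.2 → IsCoprime Q.1 Q.2 →
      (∀ c, ((p ^ e : ℕ) : ℤ) ∣ val (V c) P) → (∀ c, ((p ^ e : ℕ) : ℤ) ∣ val (V c) Q) → κ P = κ Q →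
      ∀ c, ((p ^ e : ℕ) : ℤ) ∣ der (V c) P Q := by
  classical
  rcases Nat.eq_zero_or_pos e with he | he
  · subst he
    refine ⟨fun _ => ⟨0, by positivity⟩, ?_⟩
    intro P Q _ _ _ _ _ c
    simp
  · set jj : ℤ × ℤ → ℕ := fun P =>
      Nat.findGreatest (fun j => ∀ c R, ((p ^ j : ℕ) : ℤ) ∣ der (V c) P R) e with hjj
    have hj1 : ∀ P, jj P ≤ e := fun P => Nat.findGreatest_le e
    have hj2 : ∀ P c R, ((p ^ (jj P) : ℕ) : ℤ) ∣ der (V c) P R := by
      intro P
      exact Nat.findGreatest_spec (P := fun j => ∀ c R, ((p ^ j : ℕ) : ℤ) ∣ der (V c) P R)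
        (Nat.zero_le e) (by simp)
    have hj3 : ∀ P k, jj P < k → k ≤ e → ¬ ∀ c R, ((p ^ k : ℕ) : ℤ) ∣ der (V c) P R := by
      intro P k h1 h2
      exact Nat.findGreatest_is_greatest h1 h2
    let Z : ℕ → Set (ℤ × ℤ) := fun j =>
      {P | IsCoprime P.1 P.2 ∧ (∀ c, ((p ^ e : ℕ) : ℤ) ∣ val (V c) P) ∧ jj P = j}
    have hf : ∀ j : Fin e, ∃ f : ℤ × ℤ → Fin m, ∀ a ∈ Z j, ∀ b ∈ Z j, f a = f b →
        ((p ^ (e - j) : ℕ) : ℤ) ∣ wd a b := by
      intro j
      apply cls_fn m hm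
      · intro a _
        have : wd a a = 0 := by simp only [wd]; ring
        rw [this]
        exact dvd_zero _
      · intro a _ b _ h
        have : wd b a = -wd a b := by simp only [wd]; ring
        rw [this]
        exact h.neg_right
      · intro a _ b hb c _ h1 h2
        exact wd_trans _ a b c hb.1 h1 h2
      · intro g hg
        by_contra hcon
        push Not at hcon
        obtain ⟨i, hi⟩ := lag p hp m (e - j) e (by omega) g (fun i j hij => hcon i j hij)
        obtain ⟨h1, h2, h3⟩ := hg i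
        have hjlt := j.2
        apply hj3 (g i) (j + 1) (by omega) (by omega)
        intro c R
        have h4 := hi (V c) (hV c) (fun k => (hg k).2.1 c) R
        have h5 : e + 1 - (e - (j : ℕ)) = j + 1 := by omega
        rwa [h5] at h4
    choose f hf using hf
    obtain ⟨ψ⟩ : Nonempty (Fin (e + 1) × Fin m ↪ Fin ((e + 1) ^ (m + 1))) := by
      apply Function.Embedding.nonempty_of_card_le
      rw [Fintype.card_prod, Fintype.card_fin, Fintype.card_fin, Fintype.card_fin, pow_succ,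
        mul_comm]
      apply Nat.mul_le_mul_right
      calc m ≤ 2 ^ m := Nat.lt_two_pow_self.le
        _ ≤ (e + 1) ^ m := Nat.pow_le_pow_left (by omega) m
    refine ⟨fun P => ψ (⟨jj P, Nat.lt_succ_of_le (hj1 P)⟩,
      if h : jj P < e then f ⟨jj P, h⟩ P else ⟨0, hm⟩), ?_⟩
    intro P Q hP hQ hVP hVQ hκ c
    have h := ψ.injective hκ
    rw [Prod.mk.injEq, Fin.mk.injEq] at h
    obtain ⟨h1, h2⟩ := h
    by_cases hlt : jj P < e
    · have hltQ : jj Q < e := h1 ▸ hlt
      rw [dif_pos hlt, dif_pos hltQ] at h2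
      have h3 : f ⟨jj P, hlt⟩ P = f ⟨jj P, hlt⟩ Q := by
        rw [h2]
        have h6 : (⟨jj Q, hltQ⟩ : Fin e) = ⟨jj P, hlt⟩ := Fin.ext h1.symm
        rw [h6]
      have h4 := hf ⟨jj P, hlt⟩ P ⟨hP, hVP, rfl⟩ Q ⟨hQ, hVQ, h1.symm⟩ h3
      obtain ⟨a, b, hab⟩ := hP
      have hU : wd P (-b, a) = 1 := by
        simp only [wd]
        linear_combination hab
      rw [der_lin (V c) P Q m (hV c) (-b, a) hU]
      apply dvd_add
      · exact Dvd.dvd.mul_left (Dvd.dvd.mul_left (hVP c) _) _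
      · have h7 : ((p ^ e : ℕ) : ℤ) = ((p ^ (e - jj P) : ℕ) : ℤ) * ((p ^ (jj P) : ℕ) : ℤ) := by
          rw [← Nat.cast_mul, ← pow_add]
          congr 2
          omega
        rw [h7]
        exact mul_dvd_mul h4 (hj2 P c _)
    · have h8 : jj P = e := by
        have := hj1 P
        omega
      have h9 := hj2 P c Q
      rwa [h8] at h9

end Pool.Agent.Work.MP_f2148a_nt.M56.N1
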