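import Pool.Agent.Work.MP_f2148a_nt.M56.N1.Defs

set_option autoImplicit false

/-!
N1, module Homog: degrees of the forms on the curve.
-/

namespace Pool.Agent.Work.MP_f2148a_nt.M56.N1

open MvPolynomial

private theorem hmul {p q : Bf} {a b : ℕ} (n : ℕ) (hp : p.IsHomogeneous a)
    (hq : q.IsHomogeneous b) (h : a + b = n) : (p * q).IsHomogeneous n := h ▸ hp.mul hq

private theorem hpow {p : Bf} {a : ℕ} (k n : ℕ) (hp : p.IsHomogeneous a) (h : a * k = n) :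
    (p ^ k).IsHomogeneous n := h ▸ hp.pow k

private theorem hnum (n : ℕ) [n.AtLeastTwo] : (OfNat.ofNat n : Bf).IsHomogeneous 0 := by
  rw [← map_ofNat C n]
  exact isHomogeneous_C _ _

theorem hom_Vf (m : ℕ) (g : Polynomial (Polynomial ℤ)) (c : Fin 2) :
    (Vf m g c).IsHomogeneous m := by
  have key : ∀ c : ℕ, (cof m g c).IsHomogeneous m := by
    intro c
    unfold cof
    apply IsHomogeneous.sum
    intro i hi
    have hi' : i ≤ m := by
      have := Finset.mem_range.mp hi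
      omega
    exact hmul m (hmul i (isHomogeneous_C _ _) (hpow i i (isHomogeneous_X _ _) (by omega))
      (by omega)) (hpow (m - i) (m - i) (isHomogeneous_X _ _) (by omega)) (by omega)
  fin_cases c
  · exact key 0
  · exact (key 1).neg

private theorem hq (x y α β : ℤ) (k : Fin 5) : (qB x y α β k).IsHomogeneous 1 := by
  have hX : ∀ i : Fin 2, (X i : Bf).IsHomogeneous 1 := fun i => isHomogeneous_X _ _
  have hC : ∀ a : ℤ, (C a : Bf).IsHomogeneous 0 := fun a => isHomogeneous_C _ _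
  have h3 := hnum 3
  have h6 := hnum 6
  have h18 := hnum 18
  have h24 := hnum 24
  have h2 := hnum 2
  have h9 := hnum 9
  have h12 := hnum 12
  have p2 : ∀ a : ℤ, ((C a : Bf) ^ 2).IsHomogeneous 0 := fun a => hpow 2 0 (hC a) rfl
  fin_cases k
  · exact hmul 1 h3 (hX 0) rfl
  · exact hmul 1 (hmul 0 h6 (p2 α) rfl) (hX 1) rfl
  · exact (hmul 1 (hmul 0 h18.neg (hC x) rfl) (hX 0) rfl).add
      (hmul 1 (hmul 0 (hmul 0 h6 (hC α) rfl) (hC β) rfl) (hX 1) rfl)
  · exact (hmul 1 (hmul 0 h24 (hC y) rfl) (hX 0) rfl).add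
      (hmul 1 (hmul 0 h2 (p2 β) rfl) (hX 1) rfl)
  · exact (hmul 1 (hmul 0 h9.neg (p2 x) rfl) (hX 0) rfl).add
      (hmul 1 ((hmul 0 (hmul 0 (hmul 0 h6 (hC α) rfl) (hC β) rfl) (hC x) rfl).add
        (hmul 0 (hmul 0 h12 (p2 α) rfl) (hC y) rfl)) (hX 1) rfl)

theorem hom_all (m : ℕ) (x y α β : ℤ) (V : Fin 2 → Bf) (hV : ∀ c, (V c).IsHomogeneous m) :
    (FB x y α β V).IsHomogeneous (4 * m + 1) ∧ (HB x y α β V).IsHomogeneous (2 * (2 * m + 1)) ∧
      (TB x y α β V).IsHomogeneous (3 * (2 * m + 1)) ∧ (JB x y α β).IsHomogeneous 3 := by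
  have hf := hq x y α β
  unfold FB HB TB JB
  generalize qB x y α β = f at hf
  have hX := hV 0
  have hY := hV 1
  generalize V 0 = X at hX
  generalize V 1 = Y at hY
  -- scalar multiples of the coefficients
  have hs : ∀ (n : ℕ) [n.AtLeastTwo] (k : Fin 5), ((OfNat.ofNat n : Bf) * f k).IsHomogeneous 1 :=
    fun n _ k => hmul 1 (hnum n) (hf k) rfl
  have t20 : ∀ {p : Bf}, p.IsHomogeneous 1 → (p * X ^ 2).IsHomogeneous (2 * m + 1) :=
    fun hp => hmul _ hp (hpow 2 (2 * m) hX (by omega)) (by omega)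
  have t11 : ∀ {p : Bf}, p.IsHomogeneous 1 → (p * X * Y).IsHomogeneous (2 * m + 1) :=
    fun hp => hmul _ (hmul (m + 1) hp hX (by omega)) hY (by omega)
  have t02 : ∀ {p : Bf}, p.IsHomogeneous 1 → (p * Y ^ 2).IsHomogeneous (2 * m + 1) :=
    fun hp => hmul _ hp (hpow 2 (2 * m) hY (by omega)) (by omega)
  have t10 : ∀ {p : Bf}, p.IsHomogeneous 1 → (p * X).IsHomogeneous (m + 1) :=
    fun hp => hmul _ hp hX (by omega)
  have t01 : ∀ {p : Bf}, p.IsHomogeneous 1 → (p * Y).IsHomogeneous (m + 1) :=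
    fun hp => hmul _ hp hY (by omega)
  have t30 : ∀ {p : Bf}, p.IsHomogeneous 1 → (p * X ^ 3).IsHomogeneous (3 * m + 1) :=
    fun hp => hmul _ hp (hpow 3 (3 * m) hX (by omega)) (by omega)
  have t21 : ∀ {p : Bf}, p.IsHomogeneous 1 → (p * X ^ 2 * Y).IsHomogeneous (3 * m + 1) :=
    fun hp => hmul _ (t20 hp) hY (by omega)
  have t12 : ∀ {p : Bf}, p.IsHomogeneous 1 → (p * X * Y ^ 2).IsHomogeneous (3 * m + 1) :=
    fun hp => hmul _ (t10 hp) (hpow 2 (2 * m) hY (by omega)) (by omega)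
  have t03 : ∀ {p : Bf}, p.IsHomogeneous 1 → (p * Y ^ 3).IsHomogeneous (3 * m + 1) :=
    fun hp => hmul _ hp (hpow 3 (3 * m) hY (by omega)) (by omega)
  have A := ((t20 (hs 12 0)).add (t11 (hs 6 1))).add (t02 (hs 2 2))
  have B := ((t20 (hs 2 2)).add (t11 (hs 6 3))).add (t02 (hs 12 4))
  have D := ((t20 (hs 3 1)).add (t11 (hs 4 2))).add (t02 (hs 3 3))
  have D2 := hmul (m * 0 + (2 * m + 1)) (hnum 2) D (by omega)
  refine ⟨?_, ?_, ?_, ?_⟩
  · unfold Fv
    refine ((((hmul _ (hf 0) (hpow 4 (4 * m) hX (by omega)) (by omega)).add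
      (hmul _ (t30 (hf 1)) hY (by omega))).add
      (hmul _ (t20 (hf 2)) (hpow 2 (2 * m) hY (by omega)) (by omega))).add
      (hmul _ (t10 (hf 3)) (hpow 3 (3 * m) hY (by omega)) (by omega))).add
      (hmul _ (hf 4) (hpow 4 (4 * m) hY (by omega)) (by omega))
  · unfold Hv
    exact (hmul _ A B (by omega)).sub (hpow 2 _ D (by omega))
  · unfold Tv
    have E1 := (((t30 (hs 4 0)).add (t21 (hs 3 1))).add (t12 (hs 2 2))).add (t03 (hf 3))
    have E2 := (((t30 (hf 1)).add (t21 (hs 2 2))).add (t12 (hs 3 3))).add (t03 (hs 4 4))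
    have G1 := (t10 (hs 6 1)).add (t01 (hs 4 2))
    have G2 := (t10 (hs 6 3)).add (t01 (hs 24 4))
    have G3 := (t10 (hs 4 2)).add (t01 (hs 6 3))
    have G4 := (t10 (hs 24 0)).add (t01 (hs 6 1))
    have G5 := (t10 (hs 6 1)).add (t01 (hs 4 2))
    have G6 := (t10 (hs 4 2)).add (t01 (hs 6 3))
    have K1 := ((hmul (3 * m + 2) G1 B (by omega)).add (hmul (3 * m + 2) A G2 (by omega))).sub
      (hmul (3 * m + 2) D2 G3 (by omega))
    have K2 := ((hmul (3 * m + 2) G4 B (by omega)).add (hmul (3 * m + 2) A G6 (by omega))).sub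
      (hmul (3 * m + 2) D2 G5 (by omega))
    exact (hmul _ E1 K1 (by omega)).sub (hmul _ E2 K2 (by omega))
  · unfold Jv
    exact ((((hmul 3 (hmul 2 (hs 72 0) (hf 2) rfl) (hf 4) rfl).add
      (hmul 3 (hmul 2 (hs 9 1) (hf 2) rfl) (hf 3) rfl)).sub
      (hmul 3 (hs 27 0) (hpow 2 2 (hf 3) rfl) rfl)).sub
      (hmul 3 (hs 27 4) (hpow 2 2 (hf 1) rfl) rfl)).sub
      (hmul 3 (hnum 2) (hpow 3 3 (hf 2) rfl) rfl)

end Pool.Agent.Work.MP_f2148a_nt.M56.N1
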