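import Pool.Agent.Work.MP_f2148a_nt.M56.N1.Defs

set_option autoImplicit false

/-!
N1, module Len: `len` is subadditive and submultiplicative; sizes of the forms on the curve.
-/

namespace Pool.Agent.Work.MP_f2148a_nt.M56.N1

open MvPolynomial

private theorem len_eq (A : Bf) (S : Finset (Fin 2 →₀ ℕ)) (h : A.support ⊆ S) :
    len A = ∑ e ∈ S, |coeff e A| := by
  unfold len
  refine Finset.sum_subset h fun e _ he => ?_
  rw [notMem_support_iff.1 he, abs_zero]

theorem len_nonneg (A : Bf) : 0 ≤ len A :=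
  Finset.sum_nonneg fun _ _ => abs_nonneg _

theorem len_add (A B : Bf) : len (A + B) ≤ len A + len B := by
  classical
  rw [len_eq (A + B) (A.support ∪ B.support) support_add,
    len_eq A (A.support ∪ B.support) Finset.subset_union_left,
    len_eq B (A.support ∪ B.support) Finset.subset_union_right, ← Finset.sum_add_distrib]
  refine Finset.sum_le_sum fun e _ => ?_
  rw [coeff_add]
  exact abs_add_le _ _

private theorem len_zero : len 0 = 0 := by
  simp [len]

private theorem len_sum {ι : Type*} (s : Finset ι) (f : ι → Bf) :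
    len (∑ i ∈ s, f i) ≤ ∑ i ∈ s, len (f i) := by
  classical
  induction s using Finset.induction_on with
  | empty => simp [len_zero]
  | insert a s ha ih =>
    rw [Finset.sum_insert ha, Finset.sum_insert ha]
    exact (len_add _ _).trans (by linarith)

private theorem len_mono (e : Fin 2 →₀ ℕ) (c : ℤ) : len (monomial e c) ≤ |c| := by
  classical
  rw [len_eq (monomial e c) {e} support_monomial_subset]
  simp

theorem len_mul (A B : Bf) : len (A * B) ≤ len A * len B := by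
  classical
  have h : A * B = ∑ a ∈ A.support, ∑ b ∈ B.support, monomial (a + b) (coeff a A * coeff b B) := by
    conv_lhs => rw [A.as_sum, B.as_sum]
    rw [Finset.sum_mul_sum]
    refine Finset.sum_congr rfl fun a _ => Finset.sum_congr rfl fun b _ => ?_
    rw [monomial_mul]
  rw [h]
  refine (len_sum _ _).trans ?_
  unfold len
  rw [Finset.sum_mul_sum]
  refine Finset.sum_le_sum fun a _ => (len_sum _ _).trans (Finset.sum_le_sum fun b _ => ?_)
  exact (len_mono _ _).trans (abs_mul _ _).le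

private theorem len_neg (A : Bf) : len (-A) = len A := by
  unfold len
  rw [support_neg]
  simp

section fam

variable {ι : Type*} {κ : ι → ℝ}

private def LB (κ : ι → ℝ) (A : ι → Bf) : Prop :=
  ∃ E : ℝ, 0 ≤ E ∧ ∀ i, (len (A i) : ℝ) ≤ κ i ^ E

private theorem LB.mul (hκ : ∀ i, 2 ≤ κ i) {A B : ι → Bf} (hA : LB κ A) (hB : LB κ B) :
    LB κ fun i => A i * B i := by
  obtain ⟨E, hE, h⟩ := hA
  obtain ⟨F, hF, k⟩ := hB
  refine ⟨E + F, by positivity, fun i => ?_⟩
  have h0 : (0 : ℝ) < κ i := by linarith [hκ i]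
  rw [Real.rpow_add h0]
  have h1 : (len (A i * B i) : ℝ) ≤ len (A i) * len (B i) := by exact_mod_cast len_mul _ _
  refine h1.trans (mul_le_mul (h i) (k i) (by exact_mod_cast len_nonneg _) (by positivity))

private theorem LB.add (hκ : ∀ i, 2 ≤ κ i) {A B : ι → Bf} (hA : LB κ A) (hB : LB κ B) :
    LB κ fun i => A i + B i := by
  obtain ⟨E, hE, h⟩ := hA
  obtain ⟨F, hF, k⟩ := hB
  refine ⟨E + F + 1, by positivity, fun i => ?_⟩
  have h2 := hκ i
  have h0 : (0 : ℝ) < κ i := by linarith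
  have h1 : (len (A i + B i) : ℝ) ≤ len (A i) + len (B i) := by exact_mod_cast len_add _ _
  have h3 : κ i ^ E ≤ κ i ^ (E + F) := Real.rpow_le_rpow_of_exponent_le (by linarith) (by linarith)
  have h4 : κ i ^ F ≤ κ i ^ (E + F) := Real.rpow_le_rpow_of_exponent_le (by linarith) (by linarith)
  have h5 : κ i ^ (E + F + 1) = κ i ^ (E + F) * κ i := by
    rw [Real.rpow_add h0, Real.rpow_one]
  have h6 : (0 : ℝ) < κ i ^ (E + F) := by positivity
  rw [h5]
  nlinarith [h i, k i]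

private theorem LB.neg {A : ι → Bf} (hA : LB κ A) : LB κ fun i => -A i := by
  obtain ⟨E, hE, h⟩ := hA
  exact ⟨E, hE, fun i => by rw [len_neg]; exact h i⟩

private theorem LB.sub (hκ : ∀ i, 2 ≤ κ i) {A B : ι → Bf} (hA : LB κ A) (hB : LB κ B) :
    LB κ fun i => A i - B i := by
  simpa [sub_eq_add_neg] using LB.add hκ hA hB.neg

private theorem LB.const (hκ : ∀ i, 2 ≤ κ i) (A : Bf) : LB κ fun _ => A := by
  obtain ⟨n, hn⟩ := pow_unbounded_of_one_lt (len A : ℝ) (by norm_num : (1 : ℝ) < 2)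
  refine ⟨n, by positivity, fun i => hn.le.trans ?_⟩
  rw [Real.rpow_natCast]
  exact pow_le_pow_left₀ (by norm_num) (hκ i) n

private theorem LB.pow (hκ : ∀ i, 2 ≤ κ i) {A : ι → Bf} (hA : LB κ A) (n : ℕ) :
    LB κ fun i => A i ^ n := by
  induction n with
  | zero => simpa using LB.const hκ 1
  | succ n ih => simpa [pow_succ] using LB.mul hκ ih hA

private theorem LB.cst (C : ℝ) (hC : 0 ≤ C) (c : ι → ℤ) (h : ∀ i, |(c i : ℝ)| ≤ κ i ^ C) :
    LB κ fun i => MvPolynomial.C (c i) := by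
  refine ⟨C, hC, fun i => le_trans ?_ (h i)⟩
  have := len_mono 0 (c i)
  exact_mod_cast this

private theorem LB.sum (hκ : ∀ i, 2 ≤ κ i) {J : Type*} (s : Finset J) (A : J → ι → Bf)
    (h : ∀ j, LB κ (A j)) : LB κ fun i => ∑ j ∈ s, A j i := by
  classical
  induction s using Finset.induction_on with
  | empty => simpa using LB.const hκ 0
  | insert a s ha ih =>
    simp only [Finset.sum_insert ha]
    exact LB.add hκ (h a) ih

private theorem LB.qq (hκ : ∀ i, 2 ≤ κ i) {x y α β s t : ι → Bf} (hx : LB κ x) (hy : LB κ y)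
    (ha : LB κ α) (hb : LB κ β) (hs : LB κ s) (ht : LB κ t) (k : Fin 5) :
    LB κ fun i => qq (x i) (y i) (α i) (β i) (s i) (t i) k := by
  have c := fun A : Bf => LB.const hκ A
  match k with
  | 0 => exact (c 3).mul hκ hs
  | 1 => exact ((c 6).mul hκ (ha.pow hκ 2)).mul hκ ht
  | 2 => exact (((c (-18)).mul hκ hx).mul hκ hs).add hκ ((((c 6).mul hκ ha).mul hκ hb).mul hκ ht)
  | 3 => exact (((c 24).mul hκ hy).mul hκ hs).add hκ (((c 2).mul hκ (hb.pow hκ 2)).mul hκ ht)
  | 4 =>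
    have h1 := ((c (-9)).mul hκ (hx.pow hκ 2)).mul hκ hs
    have h2 := ((((c 6).mul hκ ha).mul hκ hb).mul hκ hx).add hκ
      (((c 12).mul hκ (ha.pow hκ 2)).mul hκ hy)
    exact h1.add hκ (h2.mul hκ ht)

private theorem LB.Fv (hκ : ∀ i, 2 ≤ κ i) {f : ι → Fin 5 → Bf} (hf : ∀ k, LB κ fun i => f i k)
    {X Y : ι → Bf} (hX : LB κ X) (hY : LB κ Y) : LB κ fun i => Fv (f i) (X i) (Y i) := by
  unfold N1.Fv
  have c := fun A : Bf => LB.const hκ A
  exact ((((((hf 0).mul hκ (hX.pow hκ 4)).add hκ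
    (((hf 1).mul hκ (hX.pow hκ 3)).mul hκ hY)).add hκ
    (((hf 2).mul hκ (hX.pow hκ 2)).mul hκ (hY.pow hκ 2))).add hκ
    (((hf 3).mul hκ hX).mul hκ (hY.pow hκ 3))).add hκ ((hf 4).mul hκ (hY.pow hκ 4)))

private theorem LB.Tv (hκ : ∀ i, 2 ≤ κ i) {f : ι → Fin 5 → Bf} (hf : ∀ k, LB κ fun i => f i k)
    {X Y : ι → Bf} (hX : LB κ X) (hY : LB κ Y) : LB κ fun i => Tv (f i) (X i) (Y i) := by
  unfold N1.Tv
  repeat' first
    | with_reducible exact hX
    | with_reducible exact hY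
    | with_reducible exact hf 0
    | with_reducible exact hf 1
    | with_reducible exact hf 2
    | with_reducible exact hf 3
    | with_reducible exact hf 4
    | with_reducible exact LB.const hκ _
    | with_reducible apply LB.add hκ
    | with_reducible apply LB.sub hκ
    | with_reducible apply LB.mul hκ
    | with_reducible apply LB.pow hκ

private theorem LB.Jv (hκ : ∀ i, 2 ≤ κ i) {f : ι → Fin 5 → Bf} (hf : ∀ k, LB κ fun i => f i k) :
    LB κ fun i => Jv (f i) := by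
  unfold N1.Jv
  repeat' first
    | with_reducible exact hf 0
    | with_reducible exact hf 1
    | with_reducible exact hf 2
    | with_reducible exact hf 3
    | with_reducible exact hf 4
    | with_reducible exact LB.const hκ _
    | with_reducible apply LB.add hκ
    | with_reducible apply LB.sub hκ
    | with_reducible apply LB.mul hκ
    | with_reducible apply LB.pow hκ

end fam

theorem len_bd (m : ℕ) (C : ℝ) (hC : 0 ≤ C) : ∃ C' : ℝ, C ≤ C' ∧ ∀ K : ℝ, 2 ≤ K →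
    ∀ (x y α β : ℤ) (g : Polynomial (Polynomial ℤ)), |(x : ℝ)| ≤ K ^ C → |(y : ℝ)| ≤ K ^ C →
      |(α : ℝ)| ≤ K ^ C → |(β : ℝ)| ≤ K ^ C → (∀ i j, |((g.coeff j).coeff i : ℝ)| ≤ K ^ C) →
      (len (FB x y α β (Vf m g)) : ℝ) ≤ K ^ C' ∧ (len (TB x y α β (Vf m g)) : ℝ) ≤ K ^ C' ∧
        (len (JB x y α β) : ℝ) ≤ K ^ C' := by
  let ι := {p : ℝ × ℤ × ℤ × ℤ × ℤ × Polynomial (Polynomial ℤ) // 2 ≤ p.1 ∧
    |(p.2.1 : ℝ)| ≤ p.1 ^ C ∧ |(p.2.2.1 : ℝ)| ≤ p.1 ^ C ∧ |(p.2.2.2.1 : ℝ)| ≤ p.1 ^ C ∧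
    |(p.2.2.2.2.1 : ℝ)| ≤ p.1 ^ C ∧
    ∀ i j, |((p.2.2.2.2.2.coeff j).coeff i : ℝ)| ≤ p.1 ^ C}
  let κ : ι → ℝ := fun p => p.1.1
  have hκ : ∀ i, 2 ≤ κ i := fun i => i.2.1
  have hx : LB κ fun p => MvPolynomial.C p.1.2.1 := LB.cst C hC _ fun i => i.2.2.1
  have hy : LB κ fun p => MvPolynomial.C p.1.2.2.1 := LB.cst C hC _ fun i => i.2.2.2.1
  have ha : LB κ fun p => MvPolynomial.C p.1.2.2.2.1 := LB.cst C hC _ fun i => i.2.2.2.2.1
  have hb : LB κ fun p => MvPolynomial.C p.1.2.2.2.2.1 := LB.cst C hC _ fun i => i.2.2.2.2.2.1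
  have hcof : ∀ c, LB κ fun p => cof m p.1.2.2.2.2.2 c := fun c => by
    unfold cof
    refine LB.sum hκ _ _ fun j => ?_
    exact LB.mul hκ (LB.mul hκ (LB.cst C hC _ fun i => i.2.2.2.2.2.2 j c) (LB.const hκ _))
      (LB.const hκ _)
  have hV0 : LB κ fun p => Vf m p.1.2.2.2.2.2 0 := by simpa [Vf] using hcof 0
  have hV1 : LB κ fun p => Vf m p.1.2.2.2.2.2 1 := by simpa [Vf] using (hcof 1).neg
  have hq := fun k => LB.qq hκ hx hy ha hb (LB.const hκ (X 0)) (LB.const hκ (X 1)) k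
  have hF := LB.Fv hκ hq hV0 hV1
  have hT := LB.Tv hκ hq hV0 hV1
  have hJ := LB.Jv hκ hq
  obtain ⟨E, hE, h1⟩ := hF
  obtain ⟨F, hF, h2⟩ := hT
  obtain ⟨G, hG, h3⟩ := hJ
  refine ⟨C + E + F + G, by linarith, fun K hK x y α β g kx ky ka kb kg => ?_⟩
  let i : ι := ⟨(K, x, y, α, β, g), hK, kx, ky, ka, kb, kg⟩
  exact ⟨(h1 i).trans (Real.rpow_le_rpow_of_exponent_le (by show (1 : ℝ) ≤ K; linarith)
      (by linarith)),
    (h2 i).trans (Real.rpow_le_rpow_of_exponent_le (by show (1 : ℝ) ≤ K; linarith) (by linarith)),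
    (h3 i).trans (Real.rpow_le_rpow_of_exponent_le (by show (1 : ℝ) ≤ K; linarith) (by linarith))⟩

end Pool.Agent.Work.MP_f2148a_nt.M56.N1
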