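import Pool.Agent.Work.MP_f2148a_nt.M56.N1.Basic

set_option autoImplicit false

/-!
N1, module Syl. Sylvester matrix: rows = the coefficients of `s^i t^(m-1-i) V_c`, `i < m`, `c = 0, 1`, as forms of
degree `2m-1`. Its determinant `R` is nonzero (`A V_0 + B V_1 = 0` with `A, B` of degree `≤ m-1` contradicts
`Irr m 1 g`), and `R μ(P) = adj(S) S μ(P)` is divisible by `l`, where `μ(P) = (s^j t^(2m-1-j))_j` has coprime entries
`s^(2m-1), t^(2m-1)`.
-/

namespace Pool.Agent.Work.MP_f2148a_nt.M56.N1

open MvPolynomial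

/-- the dehomogenized components -/
private noncomputable def vp (g : Polynomial (Polynomial ℤ)) : Fin 2 → Polynomial ℤ :=
  ![g.coeff 0, -g.coeff 1]

/-- the Sylvester matrix -/
private noncomputable def sy (m : ℕ) (g : Polynomial (Polynomial ℤ)) : Matrix (Fin 2 × Fin m) (Fin (2 * m)) ℤ :=
  fun r j => ((Polynomial.X : Polynomial ℤ) ^ (r.2 : ℕ) * vp g r.1).coeff j

private theorem val_Vf (m : ℕ) (g : Polynomial (Polynomial ℤ)) (c : Fin 2) (P : ℤ × ℤ) :
    val (Vf m g c) P = ∑ i ∈ Finset.range (m + 1), (vp g c).coeff i * P.1 ^ i * P.2 ^ (m - i) := by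
  fin_cases c
  · simp [val, Vf, cof, vp]
  · simp [val, Vf, cof, vp]

private theorem nd (m : ℕ) (g : Polynomial (Polynomial ℤ)) (hg : LD.Irr m 1 g) (c : Fin 2) :
    (vp g c).natDegree ≤ m := by
  fin_cases c
  · simpa [vp] using hg.ex.bd.2 0
  · simpa [vp] using hg.ex.bd.2 1

private theorem sy_mul (m : ℕ) (g : Polynomial (Polynomial ℤ)) (hg : LD.Irr m 1 g) (P : ℤ × ℤ)
    (r : Fin 2 × Fin m) :
    (∑ j : Fin (2 * m), sy m g r j * (P.1 ^ (j : ℕ) * P.2 ^ (2 * m - 1 - j))) =
      P.1 ^ (r.2 : ℕ) * P.2 ^ (m - 1 - r.2) * val (Vf m g r.1) P := by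
  obtain ⟨c, i, hi⟩ := r
  rw [val_Vf]
  simp only [sy]
  rw [Fin.sum_univ_eq_sum_range (fun j => ((Polynomial.X : Polynomial ℤ) ^ i * vp g c).coeff j *
    (P.1 ^ j * P.2 ^ (2 * m - 1 - j))) (2 * m)]
  have h1 : 2 * m = i + ((m + 1) + (m - 1 - i)) := by omega
  have h2 : Finset.range (2 * m) = Finset.range (i + ((m + 1) + (m - 1 - i))) := by rw [← h1]
  rw [h2, Finset.sum_range_add, Finset.sum_range_add]
  have e1 : ∑ x ∈ Finset.range i, ((Polynomial.X : Polynomial ℤ) ^ i * vp g c).coeff x *
      (P.1 ^ x * P.2 ^ (2 * m - 1 - x)) = 0 := by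
    apply Finset.sum_eq_zero
    intro x hx
    have : ¬ i ≤ x := by simpa using hx
    rw [Polynomial.coeff_X_pow_mul', if_neg this, zero_mul]
  have e2 : ∑ x ∈ Finset.range (m - 1 - i), ((Polynomial.X : Polynomial ℤ) ^ i * vp g c).coeff (i + (m + 1 + x)) *
      (P.1 ^ (i + (m + 1 + x)) * P.2 ^ (2 * m - 1 - (i + (m + 1 + x)))) = 0 := by
    apply Finset.sum_eq_zero
    intro x _
    rw [Polynomial.coeff_X_pow_mul', if_pos (by omega), Polynomial.coeff_eq_zero_of_natDegree_lt, zero_mul]
    have := nd m g hg c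
    omega
  rw [e1, e2, zero_add, add_zero, Finset.mul_sum]
  apply Finset.sum_congr rfl
  intro x hx
  have hx' : x ≤ m := by
    have := Finset.mem_range.1 hx
    omega
  rw [Polynomial.coeff_X_pow_mul', if_pos (by omega)]
  have h3 : i + x - i = x := by omega
  have h4 : 2 * m - 1 - (i + x) = (m - 1 - i) + (m - x) := by omega
  rw [h3, h4, pow_add, pow_add]
  ring

private theorem relprime (m : ℕ) (g : Polynomial (Polynomial ℤ)) (hg : LD.Irr m 1 g) :
    IsRelPrime (g.coeff 0) (g.coeff 1) := by
  intro d h0 h1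
  obtain ⟨a, ha⟩ := h0
  obtain ⟨b, hb⟩ := h1
  have hn : g.natDegree = 1 := hg.ex.top
  have hg1 : g = Polynomial.C d * (Polynomial.C b * Polynomial.X + Polynomial.C a) := by
    ext1 n
    rw [Polynomial.coeff_C_mul]
    rcases n with _ | _ | n
    · simp [ha]
    · simp [hb]
    · rw [Polynomial.coeff_eq_zero_of_natDegree_lt (by omega)]
      simp [Polynomial.coeff_X, Polynomial.coeff_C]
  rcases hg.irr.isUnit_or_isUnit hg1 with h | h
  · exact Polynomial.isUnit_C.1 h
  · exfalso
    have hb0 : b ≠ 0 := by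
      intro hb0
      have : g.coeff 1 = 0 := by rw [hb, hb0, mul_zero]
      have h' : g.coeff g.natDegree = 0 := by rw [hn]; exact this
      have h'' := Polynomial.leadingCoeff_eq_zero.1 h'
      rw [h''] at hn
      simp at hn
    have h2 := Polynomial.natDegree_eq_zero_of_isUnit h
    rw [Polynomial.natDegree_linear hb0] at h2
    exact one_ne_zero h2

private theorem det_ne (m : ℕ) (hm : 1 ≤ m) (g : Polynomial (Polynomial ℤ)) (hg : LD.Irr m 1 g)
    (w : Fin 2 × Fin m → ℤ) (hw : ∀ j : Fin (2 * m), ∑ r, w r * sy m g r j = 0) : w = 0 := by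
  set A : Polynomial ℤ := ∑ i : Fin m, Polynomial.C (w (0, i)) * Polynomial.X ^ (i : ℕ) with hA
  set B : Polynomial ℤ := ∑ i : Fin m, Polynomial.C (w (1, i)) * Polynomial.X ^ (i : ℕ) with hB
  have degA : A.degree < m := by
    rw [hA]
    refine lt_of_le_of_lt (Polynomial.degree_sum_le _ _) ?_
    rw [Finset.sup_lt_iff (by exact_mod_cast WithBot.bot_lt_coe m)]
    intro i _
    exact lt_of_le_of_lt (Polynomial.degree_C_mul_X_pow_le _ _) (by exact_mod_cast i.2)
  have degB : B.degree < m := by
    rw [hB]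
    refine lt_of_le_of_lt (Polynomial.degree_sum_le _ _) ?_
    rw [Finset.sup_lt_iff (by exact_mod_cast WithBot.bot_lt_coe m)]
    intro i _
    exact lt_of_le_of_lt (Polynomial.degree_C_mul_X_pow_le _ _) (by exact_mod_cast i.2)
  have cA : ∀ i : Fin m, A.coeff i = w (0, i) := by
    intro i
    rw [hA, Polynomial.finsetSum_coeff, Finset.sum_eq_single i]
    · simp
    · intro b _ hb
      have : (i : ℕ) ≠ b := fun h => hb (Fin.ext h.symm)
      simp [Polynomial.coeff_X_pow, this]
    · simp
  have cB : ∀ i : Fin m, B.coeff i = w (1, i) := by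
    intro i
    rw [hB, Polynomial.finsetSum_coeff, Finset.sum_eq_single i]
    · simp
    · intro b _ hb
      have : (i : ℕ) ≠ b := fun h => hb (Fin.ext h.symm)
      simp [Polynomial.coeff_X_pow, this]
    · simp
  have key : A * g.coeff 0 = B * g.coeff 1 := by
    have h0 : A * vp g 0 + B * vp g 1 = 0 := by
      ext j
      rw [Polynomial.coeff_zero]
      by_cases hj : j < 2 * m
      · rw [← hw ⟨j, hj⟩, Fintype.sum_prod_type]
        simp only [Fin.sum_univ_two, sy]
        rw [Polynomial.coeff_add, hA, hB, Finset.sum_mul, Finset.sum_mul, Polynomial.finsetSum_coeff,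
          Polynomial.finsetSum_coeff]
        congr 1
        · apply Finset.sum_congr rfl
          intro i _
          rw [mul_assoc, Polynomial.coeff_C_mul]
        · apply Finset.sum_congr rfl
          intro i _
          rw [mul_assoc, Polynomial.coeff_C_mul]
      · apply Polynomial.coeff_eq_zero_of_degree_lt
        have hv : ∀ c, (vp g c).degree ≤ m := fun c =>
          Polynomial.degree_le_of_natDegree_le (nd m g hg c)
        have hlt : ∀ (Q : Polynomial ℤ) (c : Fin 2), Q.degree < m → (Q * vp g c).degree < (j : ℕ) := by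
          intro Q c hQ
          by_cases hQ0 : Q = 0
          · rw [hQ0, zero_mul, Polynomial.degree_zero]
            exact WithBot.bot_lt_coe _
          by_cases hc0 : vp g c = 0
          · rw [hc0, mul_zero, Polynomial.degree_zero]
            exact WithBot.bot_lt_coe _
          rw [Polynomial.degree_mul, Polynomial.degree_eq_natDegree hQ0, Polynomial.degree_eq_natDegree hc0]
          rw [Polynomial.degree_eq_natDegree hQ0] at hQ
          have h1 : Q.natDegree < m := by exact_mod_cast hQ
          have h2 := nd m g hg c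
          have h3 : Q.natDegree + (vp g c).natDegree < j := by omega
          exact_mod_cast h3
        exact lt_of_le_of_lt (Polynomial.degree_add_le _ _) (max_lt (hlt A 0 degA) (hlt B 1 degB))
    have h1 : vp g 0 = g.coeff 0 := rfl
    have h2 : vp g 1 = -g.coeff 1 := rfl
    rw [h1, h2] at h0
    linear_combination h0
  have rp := relprime m g hg
  have hn : g.natDegree = 1 := hg.ex.top
  have g1 : g.coeff 1 ≠ 0 := by
    intro h
    have h' : g.coeff g.natDegree = 0 := by rw [hn]; exact h
    have h'' := Polynomial.leadingCoeff_eq_zero.1 h'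
    rw [h''] at hn
    simp at hn
  have AB : A = 0 ∧ B = 0 := by
    obtain ⟨j, hj⟩ := hg.ex.wid
    have hj2 : j = 0 ∨ j = 1 := by
      by_contra hcon
      push Not at hcon
      have : 1 < j := by omega
      rw [Polynomial.coeff_eq_zero_of_natDegree_lt (by omega : g.natDegree < j)] at hj
      simp at hj
      omega
    rcases hj2 with rfl | rfl
    · have g0 : g.coeff 0 ≠ 0 := by
        intro h
        rw [h] at hj
        simp at hj
        omega
      have hd : g.coeff 0 ∣ B := by
        apply rp.dvd_of_dvd_mul_right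
        exact ⟨A, by rw [← key]; ring⟩
      have hB0 : B = 0 := by
        apply Polynomial.eq_zero_of_dvd_of_degree_lt hd
        rw [Polynomial.degree_eq_natDegree g0, hj]
        exact degB
      refine ⟨?_, hB0⟩
      rw [hB0, zero_mul] at key
      rcases mul_eq_zero.1 key with h | h
      · exact h
      · exact absurd h g0
    · have hd : g.coeff 1 ∣ A := by
        apply rp.symm.dvd_of_dvd_mul_right
        exact ⟨B, by rw [key]; ring⟩
      have hA0 : A = 0 := by
        apply Polynomial.eq_zero_of_dvd_of_degree_lt hd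
        rw [Polynomial.degree_eq_natDegree g1, hj]
        exact degA
      refine ⟨hA0, ?_⟩
      rw [hA0, zero_mul] at key
      rcases mul_eq_zero.1 key.symm with h | h
      · exact h
      · exact absurd h g1
  funext r
  obtain ⟨c, i⟩ := r
  fin_cases c
  · have := cA i
    rw [AB.1] at this
    simpa using this.symm
  · have := cB i
    rw [AB.2] at this
    simpa using this.symm

theorem syl (m : ℕ) (hm : 1 ≤ m) (g : Polynomial (Polynomial ℤ)) (hg : LD.Irr m 1 g) (H : ℝ)
    (hH : ∀ i j, |((g.coeff j).coeff i : ℝ)| ≤ H) :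
    ∃ R : ℤ, R ≠ 0 ∧ |(R : ℝ)| ≤ (2 * m).factorial * H ^ (2 * m) ∧
      ∀ P : ℤ × ℤ, IsCoprime P.1 P.2 → ∀ l : ℤ, (∀ c, l ∣ val (Vf m g c) P) → l ∣ R := by
  set S : Matrix (Fin (2 * m)) (Fin (2 * m)) ℤ :=
    fun r j => sy m g (finProdFinEquiv.symm r) j with hS
  have hH0 : 0 ≤ H := le_trans (abs_nonneg _) (hH 0 0)
  refine ⟨S.det, ?_, ?_, ?_⟩
  · intro h0
    obtain ⟨w, hw, hw0⟩ := Matrix.exists_vecMul_eq_zero_iff.2 h0
    apply hw
    have := det_ne m hm g hg (fun r => w (finProdFinEquiv r)) (by
      intro j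
      have h1 : ∑ i, w i * S i j = 0 := congrFun hw0 j
      rw [← Equiv.sum_comp finProdFinEquiv] at h1
      rw [← h1]
      apply Finset.sum_congr rfl
      intro r _
      show w (finProdFinEquiv r) * sy m g r j =
        w (finProdFinEquiv r) * sy m g (finProdFinEquiv.symm (finProdFinEquiv r)) j
      rw [Equiv.symm_apply_apply])
    funext r
    have h2 : w (finProdFinEquiv (finProdFinEquiv.symm r)) = 0 := congrFun this (finProdFinEquiv.symm r)
    rw [Equiv.apply_symm_apply] at h2
    exact h2
  · have hent : ∀ i j, ((IsAbsoluteValue.toAbsoluteValue (abs : ℝ → ℝ)) ((S.map (Int.cast : ℤ → ℝ)) i j)) ≤ H := by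
      intro i j
      show |((S i j : ℤ) : ℝ)| ≤ H
      simp only [hS, sy]
      rw [Polynomial.coeff_X_pow_mul']
      split_ifs with h
      · generalize (finProdFinEquiv.symm i).1 = c
        generalize (j : ℕ) - ((finProdFinEquiv.symm i).2 : ℕ) = k
        fin_cases c
        · simpa [vp] using hH k 0
        · simpa [vp] using hH k 1
      · simpa using hH0
    have h1 := Matrix.det_le hent
    have h2 : (S.map (Int.cast : ℤ → ℝ)).det = ((S.det : ℤ) : ℝ) := by
      have := (Int.castRingHom ℝ).map_det S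
      rw [RingHom.mapMatrix_apply] at this
      simpa using this.symm
    rw [h2] at h1
    simpa [nsmul_eq_mul] using h1
  · intro P hP l hl
    set μ : Fin (2 * m) → ℤ := fun j => P.1 ^ (j : ℕ) * P.2 ^ (2 * m - 1 - j) with hμ
    have h1 : ∀ r, l ∣ (S.mulVec μ) r := by
      intro r
      have : (S.mulVec μ) r = ∑ j : Fin (2 * m), sy m g (finProdFinEquiv.symm r) j *
          (P.1 ^ (j : ℕ) * P.2 ^ (2 * m - 1 - j)) := rfl
      rw [this, sy_mul m g hg P]
      exact Dvd.dvd.mul_left (hl _) _
    have h2 : ∀ j, l ∣ S.det * μ j := by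
      intro j
      have h3 : (S.adjugate.mulVec (S.mulVec μ)) j = S.det * μ j := by
        rw [Matrix.mulVec_mulVec, Matrix.adjugate_mul, Matrix.smul_mulVec, Matrix.one_mulVec]
        rfl
      rw [← h3, Matrix.mulVec, dotProduct]
      exact Finset.dvd_sum fun i _ => Dvd.dvd.mul_left (h1 i) _
    have hs : l ∣ S.det * P.1 ^ (2 * m - 1) := by
      have := h2 ⟨2 * m - 1, by omega⟩
      simpa [hμ] using this
    have ht : l ∣ S.det * P.2 ^ (2 * m - 1) := by
      have := h2 ⟨0, by omega⟩
      simpa [hμ] using this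
    obtain ⟨a, b, hab⟩ := (hP.pow (m := 2 * m - 1) (n := 2 * m - 1))
    have : S.det = a * (S.det * P.1 ^ (2 * m - 1)) + b * (S.det * P.2 ^ (2 * m - 1)) := by
      linear_combination (-S.det) * hab
    rw [this]
    exact dvd_add (Dvd.dvd.mul_left hs _) (Dvd.dvd.mul_left ht _)

end Pool.Agent.Work.MP_f2148a_nt.M56.N1
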