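import Pool.Agent.Work.MP_f2148a_nt.M56.N1.Basic

set_option autoImplicit false

/-!
N1, module Wst. With `τ(x) = T(x, 1)`, `χ(x) = H(x, 1)`, `x = s / t`:
`3 T(P) der H P Q - 2 H(P) der T P Q = t^(5k-2) (Q.1 t - s Q.2) W(x)`, `W = 3τχ' - 2τ'χ`, `deg W ≤ 5k - 1` and
so `W = 0` if it has more than `5k` zeros; then `τ² = c χ³` (compare leading coefficients).
-/

namespace Pool.Agent.Work.MP_f2148a_nt.M56.N1

open MvPolynomial

/-- dehomogenization -/
private noncomputable def dh (A : Bf) : Polynomial ℚ :=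
  MvPolynomial.aeval ![(Polynomial.X : Polynomial ℚ), 1] (MvPolynomial.map (Int.castRingHom ℚ) A)

private theorem dh_add (A B : Bf) : dh (A + B) = dh A + dh B := by
  simp [dh]

private theorem dh_mul (A B : Bf) : dh (A * B) = dh A * dh B := by
  simp [dh]

private theorem dh_ev (A : Bf) (x : ℚ) :
    (dh A).eval x = MvPolynomial.eval₂ (Int.castRingHom ℚ) ![x, 1] A := by
  induction A using MvPolynomial.induction_on with
  | C a =>
    rw [eval₂_C]
    simp [dh]
  | add p q hp hq => rw [dh_add, Polynomial.eval_add, hp, hq, eval₂_add]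
  | mul_X p i hp =>
    rw [dh_mul, Polynomial.eval_mul, hp, eval₂_mul, eval₂_X]
    congr 1
    fin_cases i <;> simp [dh]

private theorem dh_deriv (A : Bf) : Polynomial.derivative (dh A) = dh (pderiv 0 A) := by
  induction A using MvPolynomial.induction_on with
  | C a => simp [dh]
  | add p q hp hq => rw [dh_add, map_add, hp, hq, map_add, dh_add]
  | mul_X p i hp =>
    rw [dh_mul, Polynomial.derivative_mul, hp, Derivation.leibniz, smul_eq_mul, smul_eq_mul,
      dh_add, dh_mul, dh_mul]
    fin_cases i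
    · simp [dh, pderiv_X]
      ring
    · simp [dh, pderiv_X]

private theorem dh_val (n : ℕ) (A : Bf) (hA : A.IsHomogeneous n) (P : ℤ × ℤ) (hP : P.2 ≠ 0) :
    (val A P : ℚ) = (P.2 : ℚ) ^ n * (dh A).eval ((P.1 : ℚ) / P.2) := by
  have hP' : (P.2 : ℚ) ≠ 0 := by exact_mod_cast hP
  rw [dh_ev, eval₂_eq', val, eval_eq', Int.cast_sum, Finset.mul_sum]
  apply Finset.sum_congr rfl
  intro d hd
  have h1 : Finsupp.degree d = n := by
    rw [Finsupp.degree_eq_weight_one]
    exact hA (mem_support_iff.mp hd)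
  rw [Finsupp.degree_eq_sum, Fin.sum_univ_two] at h1
  simp only [Fin.prod_univ_two, Matrix.cons_val_zero, Matrix.cons_val_one, Int.cast_mul,
    Int.cast_pow, one_pow, mul_one, div_pow, ← h1, pow_add, eq_intCast]
  field_simp

private theorem dh_deg (n : ℕ) (A : Bf) (hA : A.IsHomogeneous n) : (dh A).natDegree ≤ n := by
  have h1 : (MvPolynomial.map (Int.castRingHom ℚ) A).totalDegree ≤ n :=
    (hA.map _).totalDegree_le
  have h2 := aeval_natDegree_le (n := 1) _ h1 ![(Polynomial.X : Polynomial ℚ), 1] (by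
    intro i
    fin_cases i
    · simp
    · simp)
  rw [mul_one] at h2
  exact h2

private theorem deg_eq (D B : Polynomial ℚ) (hD : D ≠ 0) (hB : B ≠ 0)
    (h : Polynomial.derivative D * B = D * Polynomial.derivative B) :
    D.natDegree = B.natDegree := by
  have hx : ∀ F : Polynomial ℚ, (Polynomial.X * Polynomial.derivative F).natDegree ≤ F.natDegree := by
    intro F
    by_cases hF : F.natDegree = 0
    · have : Polynomial.derivative F = 0 := Polynomial.derivative_of_natDegree_zero hF
      rw [this]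
      simp
    · have h1 := Polynomial.natDegree_derivative_lt hF
      have h2 := Polynomial.natDegree_mul_le (p := (Polynomial.X : Polynomial ℚ))
        (q := Polynomial.derivative F)
      rw [Polynomial.natDegree_X] at h2
      omega
  have hc : ∀ F : Polynomial ℚ, (Polynomial.X * Polynomial.derivative F).coeff F.natDegree =
      F.natDegree * F.leadingCoeff := by
    intro F
    rcases Nat.eq_zero_or_pos F.natDegree with h0 | h0
    · rw [h0]
      simp
    · obtain ⟨k, hk⟩ : ∃ k, F.natDegree = k + 1 := ⟨F.natDegree - 1, by omega⟩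
      rw [hk, Polynomial.coeff_X_mul, Polynomial.coeff_derivative, Polynomial.leadingCoeff, hk]
      push_cast
      ring
  have h1 : (Polynomial.X * Polynomial.derivative D) * B =
      (Polynomial.X * Polynomial.derivative B) * D := by
    rw [mul_assoc, h]
    ring
  have h2 : ((Polynomial.X * Polynomial.derivative D) * B).coeff (D.natDegree + B.natDegree) =
      ((Polynomial.X * Polynomial.derivative B) * D).coeff (D.natDegree + B.natDegree) := by
    rw [h1]
  rw [Polynomial.coeff_mul_add_eq_of_natDegree_le (hx D) le_rfl, add_comm,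
    Polynomial.coeff_mul_add_eq_of_natDegree_le (hx B) le_rfl, hc, hc] at h2
  have hD' : D.leadingCoeff ≠ 0 := Polynomial.leadingCoeff_ne_zero.mpr hD
  have hB' : B.leadingCoeff ≠ 0 := Polynomial.leadingCoeff_ne_zero.mpr hB
  have h3 : ((D.natDegree : ℚ) - B.natDegree) * (D.leadingCoeff * B.leadingCoeff) = 0 := by
    have h4 : B.coeff B.natDegree = B.leadingCoeff := rfl
    have h5 : D.coeff D.natDegree = D.leadingCoeff := rfl
    rw [h4, h5] at h2
    linear_combination h2
  rcases mul_eq_zero.mp h3 with h4 | h4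
  · have h5 : (D.natDegree : ℚ) = B.natDegree := by linarith
    exact_mod_cast h5
  · exact absurd h4 (mul_ne_zero hD' hB')

private theorem ratio (A B : Polynomial ℚ) (hA : A ≠ 0) (hB : B ≠ 0)
    (h : Polynomial.derivative A * B = A * Polynomial.derivative B) :
    Polynomial.C B.leadingCoeff * A = Polynomial.C A.leadingCoeff * B := by
  have h1 := deg_eq A B hA hB h
  by_contra hne
  set D := Polynomial.C B.leadingCoeff * A - Polynomial.C A.leadingCoeff * B with hDdef
  have hD : D ≠ 0 := sub_ne_zero.mpr hne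
  have h2 : Polynomial.derivative D * B = D * Polynomial.derivative B := by
    rw [hDdef]
    simp only [Polynomial.derivative_sub, Polynomial.derivative_mul, Polynomial.derivative_C,
      zero_mul, zero_add]
    linear_combination (Polynomial.C B.leadingCoeff) * h
  have h3 := deg_eq D B hD hB h2
  have h4 : D.coeff D.natDegree = 0 := by
    rw [h3, hDdef, Polynomial.coeff_sub, Polynomial.coeff_C_mul, Polynomial.coeff_C_mul]
    have h5 : A.coeff B.natDegree = A.leadingCoeff := by rw [← h1]; rfl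
    have h6 : B.coeff B.natDegree = B.leadingCoeff := rfl
    rw [h5, h6]
    ring
  exact hD (Polynomial.leadingCoeff_eq_zero.mp h4)

theorem wst (k : ℕ) (T H : Bf) (hT : T.IsHomogeneous (3 * k)) (hH : H.IsHomogeneous (2 * k))
    (S : Finset (ℤ × ℤ)) (hS : ∀ P ∈ S, ∀ Q ∈ S, P ≠ Q → wd P Q ≠ 0) (h0 : ∀ P ∈ S, P.2 ≠ 0)
    (hH0 : ∀ P ∈ S, val H P ≠ 0)
    (hW : ∀ P ∈ S, ∃ Q, wd P Q ≠ 0 ∧ 3 * val T P * der H P Q = 2 * val H P * der T P Q)
    (hc : 5 * k < S.card) :
    ∀ P Q : ℤ × ℤ, P.2 ≠ 0 → Q.2 ≠ 0 → val T P ^ 2 * val H Q ^ 3 = val T Q ^ 2 * val H P ^ 3 := by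
  set τ := dh T with hτ
  set χ := dh H with hχ
  -- Euler and the zeros
  have hz : ∀ P ∈ S, (3 * (τ * Polynomial.derivative χ) -
      2 * (Polynomial.derivative τ * χ)).eval ((P.1 : ℚ) / P.2) = 0 := by
    intro P hP
    obtain ⟨Q, hQ, hE⟩ := hW P hP
    have ht := h0 P hP
    have eT : P.1 * val (pderiv 0 T) P + P.2 * val (pderiv 1 T) P = (3 * k : ℕ) * val T P := by
      have h := congrArg (fun B => val B P) hT.sum_X_mul_pderiv
      simp only [Fin.sum_univ_two, val_add, val_mul, val_X0, val_X1] at h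
      rw [h]
      simp [val]
    have eH : P.1 * val (pderiv 0 H) P + P.2 * val (pderiv 1 H) P = (2 * k : ℕ) * val H P := by
      have h := congrArg (fun B => val B P) hH.sum_X_mul_pderiv
      simp only [Fin.sum_univ_two, val_add, val_mul, val_X0, val_X1] at h
      rw [h]
      simp [val]
    have e1 : 3 * val T P * val (pderiv 0 H) P = 2 * val H P * val (pderiv 0 T) P := by
      apply mul_left_cancel₀ hQ
      simp only [der, wd] at *
      push_cast at eT eH
      linear_combination (-P.2) * hE + (2 * val H P * Q.2 * (-1)) * eT + (3 * val T P * Q.2) * eH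
    have hPq : (P.2 : ℚ) ≠ 0 := by exact_mod_cast ht
    have e2 : (3 * val T P * val (pderiv 0 H) P : ℚ) = 2 * val H P * val (pderiv 0 T) P := by
      exact_mod_cast e1
    rw [dh_val _ T hT P ht, dh_val _ H hH P ht, dh_val _ _ (hH.pderiv (i := 0)) P ht,
      dh_val _ _ (hT.pderiv (i := 0)) P ht, ← dh_deriv, ← dh_deriv] at e2
    have e3 : 3 * k + (2 * k - 1) = 2 * k + (3 * k - 1) := by omega
    have e4 : (P.2 : ℚ) ^ (3 * k) * (P.2 : ℚ) ^ (2 * k - 1) =
        (P.2 : ℚ) ^ (2 * k) * (P.2 : ℚ) ^ (3 * k - 1) := by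
      rw [← pow_add, ← pow_add, e3]
    have e5 : (P.2 : ℚ) ^ (2 * k) * (P.2 : ℚ) ^ (3 * k - 1) ≠ 0 :=
      mul_ne_zero (pow_ne_zero _ hPq) (pow_ne_zero _ hPq)
    apply mul_left_cancel₀ e5
    rw [mul_zero]
    simp only [Polynomial.eval_sub, Polynomial.eval_mul, Polynomial.eval_ofNat]
    rw [← hτ, ← hχ] at e2
    linear_combination e2 - (3 * τ.eval ((P.1 : ℚ) / P.2) *
      (Polynomial.derivative χ).eval ((P.1 : ℚ) / P.2)) * e4
  -- hence `W = 0`
  have hdτ : τ.natDegree ≤ 3 * k := dh_deg _ T hT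
  have hdχ : χ.natDegree ≤ 2 * k := dh_deg _ H hH
  have hW0 : 3 * (τ * Polynomial.derivative χ) - 2 * (Polynomial.derivative τ * χ) = 0 := by
    have hinj : Function.Injective (fun P : S => ((P.1.1 : ℚ) / P.1.2)) := by
      intro P Q hPQ
      by_contra hne
      have h1 := hS P P.2 Q Q.2 (fun h => hne (Subtype.ext h))
      have h2 : (P.1.2 : ℚ) ≠ 0 := by exact_mod_cast h0 P P.2
      have h3 : (Q.1.2 : ℚ) ≠ 0 := by exact_mod_cast h0 Q Q.2
      simp only at hPQ
      rw [div_eq_div_iff h2 h3] at hPQ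
      apply h1
      simp only [wd]
      have h4 : P.1.1 * Q.1.2 = Q.1.1 * P.1.2 := by exact_mod_cast hPQ
      linarith
    apply Polynomial.eq_zero_of_natDegree_lt_card_of_eval_eq_zero _ hinj
    · intro P
      exact hz P P.2
    · rw [Fintype.card_coe]
      refine lt_of_le_of_lt ?_ hc
      have d1 : (Polynomial.derivative χ).natDegree ≤ 2 * k :=
        (Polynomial.natDegree_derivative_le χ).trans (by omega)
      have d2 : (Polynomial.derivative τ).natDegree ≤ 3 * k :=
        (Polynomial.natDegree_derivative_le τ).trans (by omega)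
      have c3 : (3 : Polynomial ℚ).natDegree = 0 := Polynomial.natDegree_ofNat 3
      have c2 : (2 : Polynomial ℚ).natDegree = 0 := Polynomial.natDegree_ofNat 2
      refine (Polynomial.natDegree_sub_le _ _).trans (max_le ?_ ?_)
      · refine Polynomial.natDegree_mul_le.trans ?_
        have := Polynomial.natDegree_mul_le (p := τ) (q := Polynomial.derivative χ)
        omega
      · refine Polynomial.natDegree_mul_le.trans ?_
        have := Polynomial.natDegree_mul_le (p := Polynomial.derivative τ) (q := χ)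
        omega
  -- `τ² / χ³` is constant
  have hχ0 : χ ≠ 0 := by
    intro h
    have hne : S.Nonempty := Finset.card_pos.mp (by omega)
    obtain ⟨P, hP⟩ := hne
    apply hH0 P hP
    have h1 := dh_val _ H hH P (h0 P hP)
    rw [← hχ, h, Polynomial.eval_zero, mul_zero] at h1
    exact_mod_cast h1
  obtain ⟨a, b, ha, hab⟩ : ∃ a b : ℚ, a ≠ 0 ∧ ∀ x : ℚ, a * τ.eval x ^ 2 = b * χ.eval x ^ 3 := by
    by_cases hτ0 : τ = 0
    · refine ⟨1, 0, one_ne_zero, fun x => ?_⟩
      rw [hτ0]
      simp
    · have h1 := ratio (τ ^ 2) (χ ^ 3) (pow_ne_zero _ hτ0) (pow_ne_zero _ hχ0) (by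
        rw [Polynomial.derivative_pow, Polynomial.derivative_pow]
        simp only [Nat.cast_ofNat, Nat.add_one_sub_one, pow_one]
        have e3 : (Polynomial.C (3 : ℚ)) = 3 := rfl
        have e2 : (Polynomial.C (2 : ℚ)) = 2 := rfl
        rw [e3, e2]
        linear_combination (-(τ * χ ^ 2)) * hW0)
      refine ⟨(χ ^ 3).leadingCoeff, (τ ^ 2).leadingCoeff,
        Polynomial.leadingCoeff_ne_zero.mpr (pow_ne_zero _ hχ0), fun x => ?_⟩
      have h2 := congrArg (fun F => F.eval x) h1
      simpa using h2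
  intro P Q hP hQ
  have hTP := dh_val _ T hT P hP
  have hTQ := dh_val _ T hT Q hQ
  have hHP := dh_val _ H hH P hP
  have hHQ := dh_val _ H hH Q hQ
  have hfin : (val T P ^ 2 * val H Q ^ 3 : ℚ) = val T Q ^ 2 * val H P ^ 3 := by
    rw [hTP, hTQ, hHP, hHQ, ← hτ, ← hχ]
    apply mul_left_cancel₀ ha
    have h1 := hab ((P.1 : ℚ) / P.2)
    have h2 := hab ((Q.1 : ℚ) / Q.2)
    have e : ∀ y : ℚ, (y ^ (3 * k)) ^ 2 = (y ^ (2 * k)) ^ 3 := by
      intro y
      rw [← pow_mul, ← pow_mul]
      congr 1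
      ring
    rw [mul_pow, mul_pow, mul_pow, mul_pow, e, e]
    linear_combination ((P.2 : ℚ) ^ (2 * k)) ^ 3 * ((Q.2 : ℚ) ^ (2 * k)) ^ 3 *
      (χ.eval ((Q.1 : ℚ) / Q.2) ^ 3 * h1 - χ.eval ((P.1 : ℚ) / P.2) ^ 3 * h2)
  exact_mod_cast hfin

end Pool.Agent.Work.MP_f2148a_nt.M56.N1
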