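import Pool.Agent.Work.MP_f2148a_nt.M56.N1.Pair
import Pool.Agent.Work.MP_f2148a_nt.M56.N1.Cls
import Pool.Agent.Work.MP_f2148a_nt.M56.N1.Syl
import Pool.Agent.Work.MP_f2148a_nt.M56.N1.Boxes
import Pool.Agent.Work.MP_f2148a_nt.M56.N1.Homog
import Pool.Agent.Work.MP_f2148a_nt.M56.N1.Len
import Pool.Agent.Work.MP_f2148a_nt.M56.N1.Wst
import Pool.Agent.Work.MP_f2148a_nt.DivisorBound

set_option autoImplicit false

/-!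
N1, module Core: the count for primitive points.
-/

namespace Pool.Agent.Work.MP_f2148a_nt.M56.N1

open MvPolynomial

/-- The conditions on a primitive point. -/
structure Pt (x y α β : ℤ) (m : ℕ) (g : Polynomial (Polynomial ℤ)) (f₀ : ℤ) (K C₀ J₀ H₀ : ℝ)
    (p : ℤ × ℤ × ℤ × ℤ) : Prop where
  cop : IsCoprime p.1 p.2.1
  t0 : p.2.1 ≠ 0
  val : Fv (qq x y α β p.1 p.2.1) p.2.2.1 p.2.2.2 = f₀
  jne : Jv (qq x y α β p.1 p.2.1) ≠ 0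
  jle : |((Jv (qq x y α β p.1 p.2.1) : ℤ) : ℝ)| ≤ J₀
  hge : H₀ ≤ |((Hv (qq x y α β p.1 p.2.1) p.2.2.1 p.2.2.2 : ℤ) : ℝ)|
  s1 : |(p.1 : ℝ)| ≤ K ^ C₀
  s2 : |(p.2.1 : ℝ)| ≤ K ^ C₀
  on : LD.ev m 1 g p.1 p.2.1 p.2.2.1 p.2.2.2 = 0

theorem ev_one (m : ℕ) (g : Polynomial (Polynomial ℤ)) (s t u v : ℤ) :
    LD.ev m 1 g s t u v = N1.val (cof m g 1) (s, t) * u + N1.val (cof m g 0) (s, t) * v := by
  unfold LD.ev LD.mon LD.cf cof N1.val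
  rw [Fintype.sum_prod_type]
  have h2 : ∀ f : Fin (1 + 1) → ℤ, ∑ j, f j = f 0 + f 1 := fun f => Fin.sum_univ_two f
  simp only [h2, map_sum, map_mul, map_pow, eval_C, eval_X]
  rw [Finset.sum_add_distrib, Finset.sum_range, Finset.sum_range, Finset.sum_mul, Finset.sum_mul,
    add_comm]
  congr 1
  · refine Finset.sum_congr rfl fun i _ => ?_
    simp
    ring
  · refine Finset.sum_congr rfl fun i _ => ?_
    simp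
    ring

/-- The vector `V(P)` is proportional to `(X, Y)`. -/
theorem prop_v (m : ℕ) (g : Polynomial (Polynomial ℤ)) (p : ℤ × ℤ × ℤ × ℤ)
    (hc : IsCoprime p.2.2.1 p.2.2.2) (h : LD.ev m 1 g p.1 p.2.1 p.2.2.1 p.2.2.2 = 0) :
    ∃ l : ℤ, ∀ c, N1.val (Vf m g c) (p.1, p.2.1) = l * ![p.2.2.1, p.2.2.2] c := by
  rw [ev_one] at h
  set a := N1.val (cof m g 1) (p.1, p.2.1)
  set b := N1.val (cof m g 0) (p.1, p.2.1) with hb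
  obtain ⟨r, s, hrs⟩ := hc
  refine ⟨b * r - a * s, fun c => ?_⟩
  fin_cases c
  · show N1.val (cof m g 0) (p.1, p.2.1) = (b * r - a * s) * p.2.2.1
    rw [← hb]
    linear_combination (-b) * hrs + s * h
  · show N1.val (-cof m g 1) (p.1, p.2.1) = (b * r - a * s) * p.2.2.2
    rw [val_neg]
    linear_combination a * hrs - r * h

theorem cop_of_F (f : Fin 5 → ℤ) (X Y f₀ : ℤ) (h : Fv f X Y = f₀) (hf : f₀ ∣ 3) : IsCoprime X Y := by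
  rw [Int.isCoprime_iff_gcd_eq_one]
  have h1 : ((Int.gcd X Y : ℕ) : ℤ) ∣ X := Int.gcd_dvd_left ..
  have h2 : ((Int.gcd X Y : ℕ) : ℤ) ∣ Y := Int.gcd_dvd_right ..
  set e := Int.gcd X Y
  have h4 : (e : ℤ) ^ 4 ∣ Fv f X Y := by
    obtain ⟨a, ha⟩ := h1
    obtain ⟨b, hb⟩ := h2
    refine ⟨Fv f a b, ?_⟩
    rw [ha, hb]
    unfold Fv
    ring
  have h5 : (e : ℤ) ^ 4 ∣ 3 := by
    rw [h] at h4
    exact h4.trans hf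
  have h6 : e ^ 4 ∣ 3 := by exact_mod_cast h5
  have h7 : e ^ 4 ≤ 3 := Nat.le_of_dvd (by norm_num) h6
  have h8 : e < 2 := by
    by_contra hh
    push Not at hh
    have : 2 ^ 4 ≤ e ^ 4 := Nat.pow_le_pow_left hh 4
    omega
  have h9 : e ≠ 0 := by
    intro h0
    rw [h0] at h6
    norm_num at h6
  omega

/-- Abstract counting: all but few points share their class. -/
theorem card_classes {ι τ : Type*} [DecidableEq ι] [DecidableEq τ] (S : Finset ι) (T : Finset τ)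
    (Φ : ι → τ) (hΦ : ∀ p ∈ S, Φ p ∈ T) (n : ℕ)
    (h : ∀ S' ⊆ S, (∀ p ∈ S', ∃ q ∈ S, q ≠ p ∧ Φ q = Φ p) → S'.card ≤ n) :
    S.card ≤ T.card + n := by
  set S' := S.filter (fun p => ∃ q ∈ S, q ≠ p ∧ Φ q = Φ p) with hS'
  have h1 : S'.card ≤ n := h S' (Finset.filter_subset _ _) fun p hp => (Finset.mem_filter.1 hp).2
  have h2 : (S \ S').card ≤ T.card := by
    refine Finset.card_le_card_of_injOn Φ (fun p hp => hΦ p (Finset.mem_sdiff.1 hp).1) ?_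
    intro p hp q hq hpq
    by_contra hne
    have hp' := Finset.mem_sdiff.1 (Finset.mem_coe.1 hp)
    have hq' := Finset.mem_sdiff.1 (Finset.mem_coe.1 hq)
    exact hp'.2 (Finset.mem_filter.2 ⟨hp'.1, q, hq'.1, fun h => hne h.symm, hpq.symm⟩)
  have h3 : S.card ≤ (S \ S').card + S'.card := by
    have := Finset.card_le_card_sdiff_add_card (s := S) (t := S')
    exact this
  omega

section main

variable {x y α β : ℤ} {m : ℕ} {g : Polynomial (Polynomial ℤ)} {f₀ : ℤ} {K C₀ J₀ H₀ : ℝ}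

/-- The multiplier of a point. -/
theorem exists_mult (R : ℤ) (hR : R ≠ 0)
    (hRd : ∀ P : ℤ × ℤ, IsCoprime P.1 P.2 → ∀ l : ℤ, (∀ c, l ∣ N1.val (Vf m g c) P) → l ∣ R)
    (hf : f₀ ∣ 3) (p : ℤ × ℤ × ℤ × ℤ) (hp : Pt x y α β m g f₀ K C₀ J₀ H₀ p) :
    ∃ l : ℤ, l ≠ 0 ∧ l ∣ R ∧ ∀ c, N1.val (Vf m g c) (p.1, p.2.1) = l * ![p.2.2.1, p.2.2.2] c := by
  have hc : IsCoprime p.2.2.1 p.2.2.2 := cop_of_F _ _ _ _ hp.val hf
  obtain ⟨l, hl⟩ := prop_v m g p hc hp.on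
  have hd : l ∣ R := hRd (p.1, p.2.1) hp.cop l fun c => ⟨_, hl c⟩
  refine ⟨l, ?_, hd, hl⟩
  rintro rfl
  exact hR (zero_dvd_iff.1 hd)

/-- the two invariants determine `H³/J` -/
theorem inv_eq (hf : f₀ ∣ 3) (p q : ℤ × ℤ × ℤ × ℤ) (hp : Pt x y α β m g f₀ K C₀ J₀ H₀ p)
    (hq : Pt x y α β m g f₀ K C₀ J₀ H₀ q) (l l' : ℤ) (hl : l ≠ 0) (hl' : l' ≠ 0)
    (hlv : ∀ c, N1.val (Vf m g c) (p.1, p.2.1) = l * ![p.2.2.1, p.2.2.2] c)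
    (hlv' : ∀ c, N1.val (Vf m g c) (q.1, q.2.1) = l' * ![q.2.2.1, q.2.2.2] c)
    (h : N1.val (TB x y α β (Vf m g)) (p.1, p.2.1) ^ 2 * N1.val (HB x y α β (Vf m g)) (q.1, q.2.1) ^ 3 =
      N1.val (TB x y α β (Vf m g)) (q.1, q.2.1) ^ 2 * N1.val (HB x y α β (Vf m g)) (p.1, p.2.1) ^ 3) :
    Hv (qq x y α β p.1 p.2.1) p.2.2.1 p.2.2.2 ^ 3 * Jv (qq x y α β q.1 q.2.1) =
      Hv (qq x y α β q.1 q.2.1) q.2.2.1 q.2.2.2 ^ 3 * Jv (qq x y α β p.1 p.2.1) := by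
  obtain ⟨T0, T1, H0, H1, J0, J1, F0, F1, t0, t1, h0, h1, j0, j1, f0, f1, eH, eJ, eF, e1, e2⟩ :=
    dual_int x y α β (Vf m g) (p.1, p.2.1) (0, 0) l ![p.2.2.1, p.2.2.2] 0 hlv
      (fun c => by simp [der])
  obtain ⟨T0', T1', H0', H1', J0', J1', F0', F1', t0', t1', h0', h1', j0', j1', f0', f1', eH', eJ',
      eF', e1', e2'⟩ :=
    dual_int x y α β (Vf m g) (q.1, q.2.1) (0, 0) l' ![q.2.2.1, q.2.2.2] 0 hlv'
      (fun c => by simp [der])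
  rw [t0, t0', h0, h0'] at h
  have hll : (l * l') ^ 12 ≠ 0 := pow_ne_zero _ (mul_ne_zero hl hl')
  have h' : T0 ^ 2 * H0' ^ 3 = T0' ^ 2 * H0 ^ 3 := by
    refine mul_left_cancel₀ hll ?_
    linear_combination h
  have hf0 : F0 = f₀ := by
    rw [eF]
    exact hp.val
  have hf0' : F0' = f₀ := by
    rw [eF']
    exact hq.val
  have hfn : f₀ ≠ 0 := by
    rintro rfl
    norm_num at hf
  have eH2 : H0 = Hv (qq x y α β p.1 p.2.1) p.2.2.1 p.2.2.2 := eH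
  have eH2' : H0' = Hv (qq x y α β q.1 q.2.1) q.2.2.1 q.2.2.2 := eH'
  have eJ2 : J0 = Jv (qq x y α β p.1 p.2.1) := eJ
  have eJ2' : J0' = Jv (qq x y α β q.1 q.2.1) := eJ'
  rw [← eH2, ← eH2', ← eJ2, ← eJ2']
  rw [hf0] at e1
  rw [hf0'] at e1'
  have hk : (27648 * f₀ ^ 3 : ℤ) ≠ 0 := mul_ne_zero (by norm_num) (pow_ne_zero _ hfn)
  refine mul_left_cancel₀ hk ?_
  linear_combination 9 * h' - H0' ^ 3 * e1 + H0 ^ 3 * e1'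

/-- The forms do not vanish at the points. -/
theorem nz (ε : ℝ) (hK4 : 37325 ≤ K ^ ε) (hJH : K ^ ε * J₀ ^ 2 ≤ H₀) (hf : f₀ ∣ 3)
    (p : ℤ × ℤ × ℤ × ℤ) (hp : Pt x y α β m g f₀ K C₀ J₀ H₀ p) (l : ℤ) (hl : l ≠ 0)
    (hlv : ∀ c, N1.val (Vf m g c) (p.1, p.2.1) = l * ![p.2.2.1, p.2.2.2] c) :
    N1.val (TB x y α β (Vf m g)) (p.1, p.2.1) ≠ 0 ∧ N1.val (HB x y α β (Vf m g)) (p.1, p.2.1) ≠ 0 ∧
      N1.val (JB x y α β) (p.1, p.2.1) ≠ 0 ∧ N1.val (FB x y α β (Vf m g)) (p.1, p.2.1) ≠ 0 := by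
  obtain ⟨T0, T1, H0, H1, J0, J1, F0, F1, t0, t1, h0, h1, j0, j1, f0, f1, eH, eJ, eF, e1, e2⟩ :=
    dual_int x y α β (Vf m g) (p.1, p.2.1) (0, 0) l ![p.2.2.1, p.2.2.2] 0 hlv
      (fun c => by simp [der])
  have hf0 : F0 = f₀ := by
    rw [eF]
    exact hp.val
  have hfn : f₀ ≠ 0 := by
    rintro rfl
    norm_num at hf
  have hf3 : |f₀| ≤ 3 := by
    have := Int.le_of_dvd (by norm_num) ((abs_dvd f₀ 3).2 hf)
    exact this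
  have eH2 : H0 = Hv (qq x y α β p.1 p.2.1) p.2.2.1 p.2.2.2 := eH
  have eJ2 : J0 = Jv (qq x y α β p.1 p.2.1) := eJ
  have hJ0 : J0 ≠ 0 := by
    rw [eJ2]
    exact hp.jne
  have hJ1 : (1 : ℝ) ≤ |(J0 : ℝ)| := by
    have : (1 : ℤ) ≤ |J0| := Int.one_le_abs hJ0
    exact_mod_cast this
  have hJle : |(J0 : ℝ)| ≤ J₀ := by
    rw [eJ2]
    exact hp.jle
  have hHge : H₀ ≤ |(H0 : ℝ)| := by
    rw [eH2]
    exact hp.hge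
  have hH1 : 37325 * |(J0 : ℝ)| ≤ |(H0 : ℝ)| := by
    have h3 : |(J0 : ℝ)| ≤ J₀ ^ 2 := by nlinarith
    have h4 : 37325 * |(J0 : ℝ)| ≤ K ^ ε * J₀ ^ 2 :=
      mul_le_mul hK4 h3 (abs_nonneg _) (by linarith)
    linarith
  have hH2 : (37325 : ℝ) ≤ |(H0 : ℝ)| := by linarith
  have hT0 : T0 ≠ 0 := by
    rintro rfl
    rw [hf0] at e1
    have h5 : (16 : ℝ) * (H0 : ℝ) ^ 3 = -(27648 * (J0 : ℝ) * (f₀ : ℝ) ^ 3) := by
      have h6 : (16 : ℤ) * H0 ^ 3 = -(27648 * J0 * f₀ ^ 3) := by linarith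
      exact_mod_cast h6
    have h7 : 16 * |(H0 : ℝ)| ^ 3 = 27648 * |(J0 : ℝ)| * |(f₀ : ℝ)| ^ 3 := by
      have h8 := congrArg abs h5
      rw [abs_neg, abs_mul, abs_mul, abs_mul, abs_pow, abs_pow] at h8
      have a1 : |(16 : ℝ)| = 16 := abs_of_pos (by norm_num)
      have a2 : |(27648 : ℝ)| = 27648 := abs_of_pos (by norm_num)
      rw [a1, a2] at h8
      exact h8
    have h9 : |(f₀ : ℝ)| ^ 3 ≤ 27 := by
      have : |(f₀ : ℝ)| ≤ 3 := by exact_mod_cast hf3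
      calc |(f₀ : ℝ)| ^ 3 ≤ 3 ^ 3 := pow_le_pow_left₀ (abs_nonneg _) this 3
        _ = 27 := by norm_num
    have h10 : 16 * |(H0 : ℝ)| ^ 3 ≤ 27648 * |(J0 : ℝ)| * 27 := by
      rw [h7]
      gcongr
    have h11 : 37325 * (37325 * |(H0 : ℝ)|) ≤ |(H0 : ℝ)| ^ 3 := by
      have h12 : 0 ≤ |(H0 : ℝ)| := abs_nonneg _
      have h13 : 37325 * 37325 ≤ |(H0 : ℝ)| * |(H0 : ℝ)| :=
        mul_le_mul hH2 hH2 (by norm_num) h12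
      calc 37325 * (37325 * |(H0 : ℝ)|) = 37325 * 37325 * |(H0 : ℝ)| := by ring
        _ ≤ |(H0 : ℝ)| * |(H0 : ℝ)| * |(H0 : ℝ)| := by gcongr
        _ = |(H0 : ℝ)| ^ 3 := by ring
    nlinarith [abs_nonneg (J0 : ℝ)]
  have hH0 : H0 ≠ 0 := by
    rintro rfl
    norm_num at hH2
  have hF0 : F0 ≠ 0 := by
    rw [hf0]
    exact hfn
  rw [t0, h0, j0, f0]
  exact ⟨mul_ne_zero (pow_ne_zero _ hl) hT0, mul_ne_zero (pow_ne_zero _ hl) hH0, hJ0,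
    mul_ne_zero (pow_ne_zero _ hl) hF0⟩

/-- Two points of one class. -/
theorem same_class (ε η C' A : ℝ) (hε : 0 < ε) (hη : η = ε / 4) (hCC : C₀ ≤ C') (hK : 2 ≤ K)
    (hA : A = 27648 * 27 * (2 * (3 * (2 * m + 1)) + 3 + 3 * (4 * m + 1)))
    (hKA : A ^ 2 < 64 * (K ^ η) ^ 2) (hK4 : 37325 ≤ (K ^ η) ^ 4) (hJH : K ^ ε * J₀ ^ 2 ≤ H₀)
    (hf : f₀ ∣ 3)
    {NT NJ NF : ℕ} (βT : ℤ × ℤ → Fin NT) (βJ : ℤ × ℤ → Fin NJ) (βF : ℤ × ℤ → Fin NF)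
    (hT : ∀ P Q : ℤ × ℤ, |(P.1 : ℝ)| ≤ K ^ C' → |(P.2 : ℝ)| ≤ K ^ C' →
        |(Q.1 : ℝ)| ≤ K ^ C' → |(Q.2 : ℝ)| ≤ K ^ C' → N1.val (TB x y α β (Vf m g)) P ≠ 0 →
        N1.val (TB x y α β (Vf m g)) Q ≠ 0 → βT P = βT Q →
        |(der (TB x y α β (Vf m g)) P Q : ℝ)| ≤
          (3 * (2 * m + 1) : ℕ) * K ^ η * |(N1.val (TB x y α β (Vf m g)) P : ℝ)|)
    (hJ : ∀ P Q : ℤ × ℤ, |(P.1 : ℝ)| ≤ K ^ C' → |(P.2 : ℝ)| ≤ K ^ C' →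
        |(Q.1 : ℝ)| ≤ K ^ C' → |(Q.2 : ℝ)| ≤ K ^ C' → N1.val (JB x y α β) P ≠ 0 →
        N1.val (JB x y α β) Q ≠ 0 → βJ P = βJ Q →
        |(der (JB x y α β) P Q : ℝ)| ≤ (3 : ℕ) * K ^ η * |(N1.val (JB x y α β) P : ℝ)|)
    (hF : ∀ P Q : ℤ × ℤ, |(P.1 : ℝ)| ≤ K ^ C' → |(P.2 : ℝ)| ≤ K ^ C' →
        |(Q.1 : ℝ)| ≤ K ^ C' → |(Q.2 : ℝ)| ≤ K ^ C' → N1.val (FB x y α β (Vf m g)) P ≠ 0 →
        N1.val (FB x y α β (Vf m g)) Q ≠ 0 → βF P = βF Q →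
        |(der (FB x y α β (Vf m g)) P Q : ℝ)| ≤
          (4 * m + 1 : ℕ) * K ^ η * |(N1.val (FB x y α β (Vf m g)) P : ℝ)|)
    (κ : ℤ × ℤ → ℕ) (l : ℤ) (hl : l ≠ 0)
    (hκ : ∀ P Q : ℤ × ℤ, IsCoprime P.1 P.2 → IsCoprime Q.1 Q.2 →
      (∀ c, (l.natAbs : ℤ) ∣ N1.val (Vf m g c) P) → (∀ c, (l.natAbs : ℤ) ∣ N1.val (Vf m g c) Q) →
      κ P = κ Q → ∀ c, (l.natAbs : ℤ) ∣ der (Vf m g c) P Q)
    (p q : ℤ × ℤ × ℤ × ℤ) (hp : Pt x y α β m g f₀ K C₀ J₀ H₀ p)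
    (hq : Pt x y α β m g f₀ K C₀ J₀ H₀ q)
    (hlv : ∀ c, N1.val (Vf m g c) (p.1, p.2.1) = l * ![p.2.2.1, p.2.2.2] c)
    (hlv' : ∀ c, N1.val (Vf m g c) (q.1, q.2.1) = l * ![q.2.2.1, q.2.2.2] c)
    (c1 : κ (p.1, p.2.1) = κ (q.1, q.2.1)) (c2 : βT (p.1, p.2.1) = βT (q.1, q.2.1))
    (c3 : βJ (p.1, p.2.1) = βJ (q.1, q.2.1)) (c4 : βF (p.1, p.2.1) = βF (q.1, q.2.1)) :
    N1.val (HB x y α β (Vf m g)) (p.1, p.2.1) ≠ 0 ∧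
    3 * N1.val (TB x y α β (Vf m g)) (p.1, p.2.1) *
        der (HB x y α β (Vf m g)) (p.1, p.2.1) (q.1, q.2.1) =
      2 * N1.val (HB x y α β (Vf m g)) (p.1, p.2.1) *
        der (TB x y α β (Vf m g)) (p.1, p.2.1) (q.1, q.2.1) := by
  have hK0 : (0 : ℝ) < K := by linarith
  have hKη : (K ^ η) ^ 4 = K ^ ε := by
    rw [← Real.rpow_natCast, ← Real.rpow_mul hK0.le, hη]
    congr 1
    push_cast
    ring
  have hKε : 37325 ≤ K ^ ε := hKη ▸ hK4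
  obtain ⟨n1, n2, n3, n4⟩ := nz ε hKε hJH hf p hp l hl hlv
  obtain ⟨n1', n2', n3', n4'⟩ := nz ε hKε hJH hf q hq l hl hlv'
  refine ⟨n2, ?_⟩
  have hKC : K ^ C₀ ≤ K ^ C' := Real.rpow_le_rpow_of_exponent_le (by linarith) hCC
  have b1 := hp.s1.trans hKC
  have b2 := hp.s2.trans hKC
  have b3 := hq.s1.trans hKC
  have b4 := hq.s2.trans hKC
  have d1 : ∀ c, ∃ w : ℤ, der (Vf m g c) (p.1, p.2.1) (q.1, q.2.1) = l * w := by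
    intro c
    have := hκ (p.1, p.2.1) (q.1, q.2.1) hp.cop hq.cop
      (fun c => Int.natAbs_dvd.2 ⟨_, hlv c⟩) (fun c => Int.natAbs_dvd.2 ⟨_, hlv' c⟩) c1 c
    exact Int.natAbs_dvd.1 this
  choose w hw using d1
  have hf3 : |f₀| ≤ 3 := Int.le_of_dvd (by norm_num) ((abs_dvd f₀ 3).2 hf)
  have hfn : f₀ ≠ 0 := by
    rintro rfl
    norm_num at hf
  have hFe : Fv (qq x y α β (p.1, p.2.1).1 (p.1, p.2.1).2) (![p.2.2.1, p.2.2.2] 0)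
      (![p.2.2.1, p.2.2.2] 1) = f₀ := hp.val
  have hη0 : 0 ≤ η := by
    rw [hη]
    positivity
  have r1 := hT (p.1, p.2.1) (q.1, q.2.1) b1 b2 b3 b4 n1 n1' c2
  have r2 := hJ (p.1, p.2.1) (q.1, q.2.1) b1 b2 b3 b4 n3 n3' c3
  have r3 := hF (p.1, p.2.1) (q.1, q.2.1) b1 b2 b3 b4 n4 n4' c4
  push_cast at r1 r2 r3
  refine pair x y α β (Vf m g) (p.1, p.2.1) (q.1, q.2.1) l hl ![p.2.2.1, p.2.2.2] w hlv hw J₀ H₀
    (K ^ η) A (3 * (2 * m + 1)) (4 * m + 1) (by positivity) (by positivity)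
    (Real.one_le_rpow (by linarith) hη0) ?_ ?_ r1 r2 r3 hA hp.jne hp.jle hp.hge ?_ hK4 hKA
  · rw [hFe]
    exact hf3
  · rw [hFe]
    exact hfn
  · rw [hKη]
    exact hJH

end main

end Pool.Agent.Work.MP_f2148a_nt.M56.N1
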