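import Mathlib
import Pool.Agent.Work.MP_f2148a_nt.M56.Defs
import Pool.Agent.Work.MP_f2148a_nt.M56.LD.Defs

set_option autoImplicit false

/-!
# MP_f2148a_nt, block N1 (curves of bidegree `(m, 1)`): definitions (fixed). Architect helper51.

Forms in `(s, t)` are homogeneous elements of `Bf = ℤ[X 0, X 1]`.
`val A P` is the value at `P`, `der A P Q` the derivative at `P` in the direction `Q`.
-/

namespace Pool.Agent.Work.MP_f2148a_nt.M56.N1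

open MvPolynomial

/-- integral polynomials in `s = X 0`, `t = X 1` -/
abbrev Bf : Type := MvPolynomial (Fin 2) ℤ

/-- the value at `P` -/
noncomputable def val (A : Bf) (P : ℤ × ℤ) : ℤ := eval ![P.1, P.2] A

/-- the derivative at `P` in the direction `Q` -/
noncomputable def der (A : Bf) (P Q : ℤ × ℤ) : ℤ :=
  Q.1 * val (pderiv 0 A) P + Q.2 * val (pderiv 1 A) P

/-- the wedge product -/
def wd (P Q : ℤ × ℤ) : ℤ := P.1 * Q.2 - P.2 * Q.1

/-- the sum of the absolute values of the coefficients -/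
noncomputable def len (A : Bf) : ℤ := ∑ e ∈ A.support, |coeff e A|

/-- the coefficient of `u` (`c = 1`) or `v` (`c = 0`) of a form `g` of bidegree `(m, 1)` -/
noncomputable def cof (m : ℕ) (g : Polynomial (Polynomial ℤ)) (c : ℕ) : Bf :=
  ∑ i ∈ Finset.range (m + 1), C ((g.coeff c).coeff i) * X 0 ^ i * X 1 ^ (m - i)

/-- the point `(u, v)` of the curve `g = 0` is proportional to `(cof 0, - cof 1)` -/
noncomputable def Vf (m : ℕ) (g : Polynomial (Polynomial ℤ)) : Fin 2 → Bf :=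
  ![cof m g 0, -cof m g 1]

section quartic

variable {R : Type*} [CommRing R]

/-- the coefficients of the quartic of `(s, t)` -/
def qq (x y α β s t : R) : Fin 5 → R
  | 0 => 3 * s
  | 1 => 6 * α ^ 2 * t
  | 2 => -18 * x * s + 6 * α * β * t
  | 3 => 24 * y * s + 2 * β ^ 2 * t
  | 4 => -9 * x ^ 2 * s + (6 * α * β * x + 12 * α ^ 2 * y) * t

/-- the value of the quartic -/
def Fv (f : Fin 5 → R) (X Y : R) : R :=
  f 0 * X ^ 4 + f 1 * X ^ 3 * Y + f 2 * X ^ 2 * Y ^ 2 + f 3 * X * Y ^ 3 + f 4 * Y ^ 4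

/-- the Hessian -/
def Hv (f : Fin 5 → R) (X Y : R) : R :=
  (12 * f 0 * X ^ 2 + 6 * f 1 * X * Y + 2 * f 2 * Y ^ 2)
    * (2 * f 2 * X ^ 2 + 6 * f 3 * X * Y + 12 * f 4 * Y ^ 2)
    - (3 * f 1 * X ^ 2 + 4 * f 2 * X * Y + 3 * f 3 * Y ^ 2) ^ 2

/-- `432 J` -/
def Jv (f : Fin 5 → R) : R :=
  72 * f 0 * f 2 * f 4 + 9 * f 1 * f 2 * f 3 - 27 * f 0 * f 3 ^ 2 - 27 * f 4 * f 1 ^ 2
    - 2 * f 2 ^ 3

/-- the Jacobian of the quartic and its Hessian -/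
def Tv (f : Fin 5 → R) (X Y : R) : R :=
  (4 * f 0 * X ^ 3 + 3 * f 1 * X ^ 2 * Y + 2 * f 2 * X * Y ^ 2 + f 3 * Y ^ 3)
    * ((6 * f 1 * X + 4 * f 2 * Y) * (2 * f 2 * X ^ 2 + 6 * f 3 * X * Y + 12 * f 4 * Y ^ 2)
      + (12 * f 0 * X ^ 2 + 6 * f 1 * X * Y + 2 * f 2 * Y ^ 2) * (6 * f 3 * X + 24 * f 4 * Y)
      - 2 * (3 * f 1 * X ^ 2 + 4 * f 2 * X * Y + 3 * f 3 * Y ^ 2) * (4 * f 2 * X + 6 * f 3 * Y))
  - (f 1 * X ^ 3 + 2 * f 2 * X ^ 2 * Y + 3 * f 3 * X * Y ^ 2 + 4 * f 4 * Y ^ 3)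
    * ((24 * f 0 * X + 6 * f 1 * Y) * (2 * f 2 * X ^ 2 + 6 * f 3 * X * Y + 12 * f 4 * Y ^ 2)
      + (12 * f 0 * X ^ 2 + 6 * f 1 * X * Y + 2 * f 2 * Y ^ 2) * (4 * f 2 * X + 6 * f 3 * Y)
      - 2 * (3 * f 1 * X ^ 2 + 4 * f 2 * X * Y + 3 * f 3 * Y ^ 2) * (6 * f 1 * X + 4 * f 2 * Y))

end quartic

/-- the quartic on the curve: coefficients -/
noncomputable def qB (x y α β : ℤ) : Fin 5 → Bf := qq (C x) (C y) (C α) (C β) (X 0) (X 1)

/-- `F'` on the curve, degree `4m+1` -/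
noncomputable def FB (x y α β : ℤ) (V : Fin 2 → Bf) : Bf := Fv (qB x y α β) (V 0) (V 1)

/-- the Hessian on the curve, degree `4m+2` -/
noncomputable def HB (x y α β : ℤ) (V : Fin 2 → Bf) : Bf := Hv (qB x y α β) (V 0) (V 1)

/-- `T` on the curve, degree `6m+3` -/
noncomputable def TB (x y α β : ℤ) (V : Fin 2 → Bf) : Bf := Tv (qB x y α β) (V 0) (V 1)

/-- `432 J`, degree `3` -/
noncomputable def JB (x y α β : ℤ) : Bf := Jv (qB x y α β)

end Pool.Agent.Work.MP_f2148a_nt.M56.N1
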