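import Pool.Agent.Work.MP_f2148a_nt.M56.N1.Defs

set_option autoImplicit false

/-!
N1, module Syz: the syzygy of a quartic with `I = 0`. In general
`9T² + 16H³ + 27648 J F³ = 6912 I F² H`, `I = 12 f₀f₄ - 3 f₁f₃ + f₂²`, and `I (qq x y α β s t) = 0`.
-/

namespace Pool.Agent.Work.MP_f2148a_nt.M56.N1

variable {R : Type*} [CommRing R]

theorem syz_gen (f : Fin 5 → R) (X Y : R) :
    9 * Tv f X Y ^ 2 + 16 * Hv f X Y ^ 3 + 27648 * Jv f * Fv f X Y ^ 3 =
      6912 * (12 * f 0 * f 4 - 3 * f 1 * f 3 + f 2 ^ 2) * Fv f X Y ^ 2 * Hv f X Y := by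
  unfold Tv Hv Jv Fv
  generalize f 0 = a
  generalize f 1 = b
  generalize f 2 = c
  generalize f 3 = d
  generalize f 4 = e
  ring

theorem syz (x y α β s t X Y : R) :
    9 * Tv (qq x y α β s t) X Y ^ 2 = -16 * Hv (qq x y α β s t) X Y ^ 3
      - 27648 * Jv (qq x y α β s t) * Fv (qq x y α β s t) X Y ^ 3 := by
  have h := syz_gen (qq x y α β s t) X Y
  have hI : 12 * qq x y α β s t 0 * qq x y α β s t 4 - 3 * qq x y α β s t 1 * qq x y α β s t 3
      + qq x y α β s t 2 ^ 2 = 0 := by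
    simp only [qq]
    ring
  rw [hI] at h
  linear_combination h

end Pool.Agent.Work.MP_f2148a_nt.M56.N1
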