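import Pool.Agent.Work.MP_f2148a_nt.M56.N1.Basic
import Pool.Agent.Work.MP_f2148a_nt.M56.N1.Syz

/-!
N1, module Dual: evaluate the forms on the curve in the dual numbers over `ℤ` at `P + εQ` (`dual_ev` of
module Basic); there `V = l (v + ε w)`, and `Tv`, `Hv`, `Fv` are homogeneous of degree `6, 4, 4` in `(X, Y)`.
-/

set_option autoImplicit false

/-!
N1, module Dual: evaluate the forms on the curve in the dual numbers over `ℤ` at `P + εQ` (`dual_ev` of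
module Basic); there `V = l (v + ε w)`, and `Tv`, `Hv`, `Fv` are homogeneous of degree `6, 4, 4` in `(X, Y)`.
-/

namespace Pool.Agent.Work.MP_f2148a_nt.M56.N1

open MvPolynomial

section nat

variable {R S : Type*} [CommRing R] [CommRing S]

private theorem map_Fv (φ : R →+* S) (f : Fin 5 → R) (X Y : R) :
    φ (Fv f X Y) = Fv (fun i => φ (f i)) (φ X) (φ Y) := by
  simp only [Fv, map_add, map_mul, map_pow]

private theorem map_Hv (φ : R →+* S) (f : Fin 5 → R) (X Y : R) :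
    φ (Hv f X Y) = Hv (fun i => φ (f i)) (φ X) (φ Y) := by
  simp only [Hv, map_add, map_sub, map_mul, map_pow, map_ofNat]

private theorem map_Jv (φ : R →+* S) (f : Fin 5 → R) :
    φ (Jv f) = Jv (fun i => φ (f i)) := by
  simp only [Jv, map_add, map_sub, map_mul, map_pow, map_ofNat]

private theorem map_Tv (φ : R →+* S) (f : Fin 5 → R) (X Y : R) :
    φ (Tv f X Y) = Tv (fun i => φ (f i)) (φ X) (φ Y) := by
  simp only [Tv, map_add, map_sub, map_mul, map_pow, map_ofNat]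

private theorem map_qq (φ : R →+* S) (x y α β s t : R) :
    (fun i => φ (qq x y α β s t i)) = qq (φ x) (φ y) (φ α) (φ β) (φ s) (φ t) := by
  funext i
  fin_cases i <;>
    simp only [qq, map_add, map_neg, map_mul, map_pow, map_ofNat]

private theorem hom_Fv (f : Fin 5 → R) (l X Y : R) : Fv f (l * X) (l * Y) = l ^ 4 * Fv f X Y := by
  unfold Fv
  ring

private theorem hom_Hv (f : Fin 5 → R) (l X Y : R) : Hv f (l * X) (l * Y) = l ^ 4 * Hv f X Y := by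
  unfold Hv
  ring

private theorem hom_Tv (f : Fin 5 → R) (l X Y : R) : Tv f (l * X) (l * Y) = l ^ 6 * Tv f X Y := by
  unfold Tv
  ring

end nat

private theorem fst_inl_pow (l : ℤ) (n : ℕ) (Z : TrivSqZeroExt ℤ ℤ) :
    ((TrivSqZeroExt.inl l) ^ n * Z).fst = l ^ n * Z.fst := by
  simp

private theorem snd_inl_pow (l : ℤ) (n : ℕ) (Z : TrivSqZeroExt ℤ ℤ) :
    ((TrivSqZeroExt.inl l) ^ n * Z).snd = l ^ n * Z.snd := by
  rw [TrivSqZeroExt.inl_pow]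
  simp

theorem dual_int (x y α β : ℤ) (V : Fin 2 → Bf) (P Q : ℤ × ℤ) (l : ℤ) (v w : Fin 2 → ℤ)
    (hv : ∀ c, val (V c) P = l * v c) (hw : ∀ c, der (V c) P Q = l * w c) :
    ∃ T0 T1 H0 H1 J0 J1 F0 F1 : ℤ,
      val (TB x y α β V) P = l ^ 6 * T0 ∧ der (TB x y α β V) P Q = l ^ 6 * T1 ∧
      val (HB x y α β V) P = l ^ 4 * H0 ∧ der (HB x y α β V) P Q = l ^ 4 * H1 ∧
      val (JB x y α β) P = J0 ∧ der (JB x y α β) P Q = J1 ∧
      val (FB x y α β V) P = l ^ 4 * F0 ∧ der (FB x y α β V) P Q = l ^ 4 * F1 ∧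
      H0 = Hv (qq x y α β P.1 P.2) (v 0) (v 1) ∧ J0 = Jv (qq x y α β P.1 P.2) ∧
      F0 = Fv (qq x y α β P.1 P.2) (v 0) (v 1) ∧
      9 * T0 ^ 2 = -16 * H0 ^ 3 - 27648 * J0 * F0 ^ 3 ∧
      18 * T0 * T1 = -48 * H0 ^ 2 * H1 - 27648 * (J1 * F0 ^ 3 + 3 * J0 * F0 ^ 2 * F1) := by
  let W : Fin 2 → TrivSqZeroExt ℤ ℤ := fun c => TrivSqZeroExt.inl (v c) + TrivSqZeroExt.inr (w c)
  let s : TrivSqZeroExt ℤ ℤ := TrivSqZeroExt.inl P.1 + TrivSqZeroExt.inr Q.1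
  let t : TrivSqZeroExt ℤ ℤ := TrivSqZeroExt.inl P.2 + TrivSqZeroExt.inr Q.2
  let f : Fin 5 → TrivSqZeroExt ℤ ℤ := qq (TrivSqZeroExt.inl x) (TrivSqZeroExt.inl y)
    (TrivSqZeroExt.inl α) (TrivSqZeroExt.inl β) s t
  let φ : Bf →+* TrivSqZeroExt ℤ ℤ := (dual P Q).toRingHom
  have hφ : ∀ A : Bf, φ A = dual P Q A := fun _ => rfl
  have hC : ∀ a : ℤ, φ (C a) = TrivSqZeroExt.inl a := fun a => by
    rw [hφ, dual_ev, val_C, der_C]
    simp
  have hX0 : φ (X 0) = s := by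
    rw [hφ, dual_ev, val_X0, der_X0]
  have hX1 : φ (X 1) = t := by
    rw [hφ, dual_ev, val_X1, der_X1]
  have hV : ∀ c, φ (V c) = TrivSqZeroExt.inl l * W c := fun c => by
    rw [hφ, dual_ev, hv, hw]
    ext <;> simp [W]
  have hf : (fun i => φ (qB x y α β i)) = f := by
    unfold qB
    rw [map_qq, hC, hC, hC, hC, hX0, hX1]
  have hT : φ (TB x y α β V) = (TrivSqZeroExt.inl l) ^ 6 * Tv f (W 0) (W 1) := by
    unfold TB
    rw [map_Tv, hf, hV, hV, hom_Tv]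
  have hH : φ (HB x y α β V) = (TrivSqZeroExt.inl l) ^ 4 * Hv f (W 0) (W 1) := by
    unfold HB
    rw [map_Hv, hf, hV, hV, hom_Hv]
  have hF : φ (FB x y α β V) = (TrivSqZeroExt.inl l) ^ 4 * Fv f (W 0) (W 1) := by
    unfold FB
    rw [map_Fv, hf, hV, hV, hom_Fv]
  have hJ : φ (JB x y α β) = Jv f := by
    unfold JB
    rw [map_Jv, hf]
  -- the first component
  let π : TrivSqZeroExt ℤ ℤ →+* ℤ := (TrivSqZeroExt.fstHom ℤ ℤ ℤ).toRingHom
  have hπ : ∀ Z : TrivSqZeroExt ℤ ℤ, π Z = Z.fst := fun _ => rfl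
  have hπf : (fun i => π (f i)) = qq x y α β P.1 P.2 := by
    have h1 : (fun i => π (f i)) = qq (π (TrivSqZeroExt.inl x)) (π (TrivSqZeroExt.inl y))
      (π (TrivSqZeroExt.inl α)) (π (TrivSqZeroExt.inl β)) (π s) (π t) := map_qq π _ _ _ _ _ _
    rw [h1]
    simp [hπ, s, t]
  have hπW : ∀ c, π (W c) = v c := fun c => by
    simp [hπ, W]
  have hsyz := syz (TrivSqZeroExt.inl x) (TrivSqZeroExt.inl y) (TrivSqZeroExt.inl α)
    (TrivSqZeroExt.inl β) s t (W 0) (W 1)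
  have hsyz' : 9 * Tv f (W 0) (W 1) ^ 2 = -16 * Hv f (W 0) (W 1) ^ 3
      - 27648 * Jv f * Fv f (W 0) (W 1) ^ 3 := hsyz
  have n9 : (9 : TrivSqZeroExt ℤ ℤ) = TrivSqZeroExt.inl 9 := by
    rw [← map_ofNat (algebraMap ℤ (TrivSqZeroExt ℤ ℤ)) 9]
    rfl
  have n16 : (16 : TrivSqZeroExt ℤ ℤ) = TrivSqZeroExt.inl 16 := by
    rw [← map_ofNat (algebraMap ℤ (TrivSqZeroExt ℤ ℤ)) 16]
    rfl
  have n27 : (27648 : TrivSqZeroExt ℤ ℤ) = TrivSqZeroExt.inl 27648 := by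
    rw [← map_ofNat (algebraMap ℤ (TrivSqZeroExt ℤ ℤ)) 27648]
    rfl
  refine ⟨(Tv f (W 0) (W 1)).fst, (Tv f (W 0) (W 1)).snd, (Hv f (W 0) (W 1)).fst,
    (Hv f (W 0) (W 1)).snd, (Jv f).fst, (Jv f).snd, (Fv f (W 0) (W 1)).fst,
    (Fv f (W 0) (W 1)).snd, ?_, ?_, ?_, ?_, ?_, ?_, ?_, ?_, ?_, ?_, ?_, ?_, ?_⟩
  · rw [← dual_fst _ P Q, ← hφ, hT, fst_inl_pow]
  · rw [← dual_snd, ← hφ, hT, snd_inl_pow]
  · rw [← dual_fst _ P Q, ← hφ, hH, fst_inl_pow]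
  · rw [← dual_snd, ← hφ, hH, snd_inl_pow]
  · rw [← dual_fst _ P Q, ← hφ, hJ]
  · rw [← dual_snd, ← hφ, hJ]
  · rw [← dual_fst _ P Q, ← hφ, hF, fst_inl_pow]
  · rw [← dual_snd, ← hφ, hF, snd_inl_pow]
  · rw [← hπ, map_Hv, hπf, hπW, hπW]
  · rw [← hπ, map_Jv, hπf]
  · rw [← hπ, map_Fv, hπf, hπW, hπW]
  · have h := congrArg TrivSqZeroExt.fst hsyz'
    rw [n9, n16, n27] at h
    simp only [TrivSqZeroExt.fst_mul, TrivSqZeroExt.fst_sub, TrivSqZeroExt.fst_neg,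
      TrivSqZeroExt.fst_pow, TrivSqZeroExt.fst_inl] at h
    exact h
  · have h := congrArg TrivSqZeroExt.snd hsyz'
    rw [n9, n16, n27] at h
    simp only [TrivSqZeroExt.snd_mul, TrivSqZeroExt.snd_sub, TrivSqZeroExt.snd_neg,
      TrivSqZeroExt.fst_mul, TrivSqZeroExt.fst_neg, TrivSqZeroExt.fst_pow,
      TrivSqZeroExt.snd_pow, TrivSqZeroExt.fst_inl, TrivSqZeroExt.snd_inl, smul_eq_mul,
      MulOpposite.smul_eq_mul_unop, MulOpposite.unop_op, neg_zero,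
      smul_zero, add_zero, nsmul_eq_mul, Nat.pred_eq_sub_one] at h
    norm_num at h
    linear_combination h

end Pool.Agent.Work.MP_f2148a_nt.M56.N1
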