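import Pool.Agent.Work.MP_f2148a_nt.M56.N1.Basic

set_option autoImplicit false

/-!
N1, module Lag. `p`-adic Lagrange interpolation: choose `i` such that the `p`-adic valuation of
`∏_(k ≠ i) wd (P i) (P k)` is maximal, differentiate
`V(P) = ∑_j V(P_j) ∏_(k ≠ j) wd P (P k) / wd (P j) (P k)` at `P = P i` in the direction `Q`.
-/

namespace Pool.Agent.Work.MP_f2148a_nt.M56.N1

open MvPolynomial

private theorem exp_ext (m : ℕ) (d : Fin 2 →₀ ℕ) (hd : d 0 + d 1 = m) (k : Fin (m + 1))
    (hk : (k : ℕ) = d 0) : d = Finsupp.single 0 (k : ℕ) + Finsupp.single 1 (m - (k : ℕ)) := by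
  ext i
  fin_cases i
  · simp [hk]
  · simp [hk]
    omega

private theorem deg_of_coeff (m : ℕ) (F : Bf) (hF : F.IsHomogeneous m) (d : Fin 2 →₀ ℕ)
    (hd : coeff d F ≠ 0) : d 0 + d 1 = m := by
  have h := hF hd
  rw [Finsupp.weight_apply] at h
  rw [← h, Finsupp.sum_fintype _ _ (by simp)]
  simp

private theorem val_eq_sum (m : ℕ) (F : Bf) (hF : F.IsHomogeneous m) (P : ℤ × ℤ) :
    val F P = ∑ k : Fin (m + 1), P.1 ^ (k : ℕ) * P.2 ^ (m - (k : ℕ)) *
      coeff (Finsupp.single 0 (k : ℕ) + Finsupp.single 1 (m - (k : ℕ))) F := by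
  classical
  rw [val, eval_eq']
  let φ : Fin (m + 1) → (Fin 2 →₀ ℕ) :=
    fun k => Finsupp.single 0 (k : ℕ) + Finsupp.single 1 (m - (k : ℕ))
  have hφ : Function.Injective φ := by
    intro a b hab
    have h := congrArg (fun f => f 0) hab
    simp only [φ, Finsupp.add_apply] at h
    simp at h
    exact Fin.ext h
  have hsub : F.support ⊆ Finset.univ.image φ := by
    intro d hd
    rw [mem_support_iff] at hd
    have h := deg_of_coeff m F hF d hd
    rw [Finset.mem_image]
    refine ⟨⟨d 0, by omega⟩, Finset.mem_univ _, ?_⟩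
    exact (exp_ext m d h ⟨d 0, by omega⟩ rfl).symm
  rw [Finset.sum_subset hsub, Finset.sum_image (fun a _ b _ h => hφ h)]
  · apply Finset.sum_congr rfl
    intro k _
    simp only [φ, Fin.prod_univ_two]
    simp
    ring
  · intro d _ hd
    rw [notMem_support_iff.mp hd]
    simp

private theorem zero_of_vanish (m : ℕ) (F : Bf) (hF : F.IsHomogeneous m)
    (P : Fin (m + 1) → ℤ × ℤ) (h : ∀ i j, i ≠ j → wd (P i) (P j) ≠ 0)
    (hv : ∀ j, val F (P j) = 0) : F = 0 := by
  classical
  have hdet : (Matrix.projVandermonde (fun i => (P i).1) (fun i => (P i).2)).det ≠ 0 := by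
    rw [Matrix.det_projVandermonde]
    apply Finset.prod_ne_zero_iff.mpr
    intro i _
    apply Finset.prod_ne_zero_iff.mpr
    intro j hj
    have hij : j ≠ i := (Finset.mem_Ioi.mp hj).ne'
    have := h j i hij
    simp only [wd] at this
    intro h0
    apply this
    linear_combination h0
  have hz := Matrix.eq_zero_of_mulVec_eq_zero hdet (v := fun k : Fin (m + 1) =>
    coeff (Finsupp.single 0 (k : ℕ) + Finsupp.single 1 (m - (k : ℕ))) F) (by
      funext j
      have h1 := hv j
      rw [val_eq_sum m F hF] at h1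
      rw [Matrix.mulVec, dotProduct]
      simp only [Matrix.projVandermonde_apply, Pi.zero_apply]
      rw [← h1]
      apply Finset.sum_congr rfl
      intro k _
      have : (k.rev : ℕ) = m - (k : ℕ) := by
        rw [Fin.val_rev]
        omega
      rw [this])
  ext d
  rw [coeff_zero]
  by_contra hd
  have h1 := deg_of_coeff m F hF d hd
  have h2 := congrFun hz ⟨d 0, by omega⟩
  simp only [Pi.zero_apply] at h2
  rw [← exp_ext m d h1 ⟨d 0, by omega⟩ rfl] at h2
  exact hd h2

/-- the linear form `wd · R` -/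
private noncomputable def lin (R : ℤ × ℤ) : Bf := X 0 * C R.2 - X 1 * C R.1

private theorem val_lin (R P : ℤ × ℤ) : val (lin R) P = wd P R := by
  simp only [lin, val_sub, val_mul, val_X0, val_X1, val_C, wd]

private theorem der_sub (A B : Bf) (P Q : ℤ × ℤ) :
    der (A - B) P Q = der A P Q - der B P Q := by
  simp only [der, map_sub, val_sub]
  ring

private theorem der_lin' (R P Q : ℤ × ℤ) : der (lin R) P Q = wd Q R := by
  simp only [lin, der_sub, der_mul, der_X0, der_X1, der_C, val_X0, val_X1, val_C, wd]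
  ring

private theorem val_prod {ι : Type*} (s : Finset ι) (f : ι → Bf) (P : ℤ × ℤ) :
    val (∏ i ∈ s, f i) P = ∏ i ∈ s, val (f i) P := by
  simp [val]

private theorem val_sum {ι : Type*} (s : Finset ι) (f : ι → Bf) (P : ℤ × ℤ) :
    val (∑ i ∈ s, f i) P = ∑ i ∈ s, val (f i) P := by
  simp [val]

private theorem der_zero (P Q : ℤ × ℤ) : der 0 P Q = 0 := by
  simp [der, val]

private theorem der_sum {ι : Type*} (s : Finset ι) (f : ι → Bf) (P Q : ℤ × ℤ) :
    der (∑ i ∈ s, f i) P Q = ∑ i ∈ s, der (f i) P Q := by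
  classical
  induction s using Finset.induction_on with
  | empty => simp [der_zero]
  | insert a s ha ih => rw [Finset.sum_insert ha, Finset.sum_insert ha, der_add, ih]

private theorem der_prod {ι : Type*} [DecidableEq ι] (s : Finset ι) (f : ι → Bf) (P Q : ℤ × ℤ) :
    der (∏ i ∈ s, f i) P Q = ∑ i ∈ s, (∏ k ∈ s.erase i, val (f k) P) * der (f i) P Q := by
  induction s using Finset.induction_on with
  | empty =>
    have h1 : der (1 : Bf) P Q = 0 := by
      rw [← C_1, der_C]
    rw [Finset.prod_empty, Finset.sum_empty, h1]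
  | insert a s ha ih =>
    rw [Finset.prod_insert ha, der_mul, ih, Finset.sum_insert ha, Finset.erase_insert ha,
      val_prod, Finset.mul_sum, add_comm]
    congr 1
    apply Finset.sum_congr rfl
    intro i hi
    have hia : a ≠ i := fun h => ha (h ▸ hi)
    rw [Finset.erase_insert_of_ne hia, Finset.prod_insert (by simp [ha])]
    ring

private theorem hom_lin (R : ℤ × ℤ) : (lin R).IsHomogeneous 1 := by
  have h0 : (X 0 * C R.2 : Bf).IsHomogeneous (1 + 0) := (isHomogeneous_X _ _).mul (isHomogeneous_C _ _)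
  have h1 : (X 1 * C R.1 : Bf).IsHomogeneous (1 + 0) := (isHomogeneous_X _ _).mul (isHomogeneous_C _ _)
  exact h0.sub h1

/-- the Lagrange form -/
private noncomputable def LB (m : ℕ) (P : Fin (m + 1) → ℤ × ℤ) (j : Fin (m + 1)) : Bf :=
  ∏ k ∈ Finset.univ.erase j, lin (P k)

private theorem hom_LB (m : ℕ) (P : Fin (m + 1) → ℤ × ℤ) (j : Fin (m + 1)) :
    (LB m P j).IsHomogeneous m := by
  have h := IsHomogeneous.prod (Finset.univ.erase j) (fun k => lin (P k)) (fun _ => 1)
    (fun k _ => hom_lin (P k))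
  have h2 : ∑ _k ∈ Finset.univ.erase j, 1 = m := by
    rw [Finset.sum_const, Finset.card_erase_of_mem (Finset.mem_univ _), Finset.card_univ,
      Fintype.card_fin]
    simp
  rw [h2] at h
  exact h

private theorem identity (m : ℕ) (P : Fin (m + 1) → ℤ × ℤ)
    (h : ∀ i j, i ≠ j → wd (P i) (P j) ≠ 0) (V : Bf) (hV : V.IsHomogeneous m) :
    C (∏ j, val (LB m P j) (P j)) * V
      = ∑ j, C ((∏ k ∈ Finset.univ.erase j, val (LB m P k) (P k)) * val V (P j)) * LB m P j := by
  classical
  rw [← sub_eq_zero]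
  apply zero_of_vanish m _ _ P h
  · intro j
    rw [val_sub, val_mul, val_C, val_sum, Finset.sum_eq_single j]
    · rw [val_mul, val_C, ← Finset.mul_prod_erase Finset.univ _ (Finset.mem_univ j)]
      ring
    · intro k _ hk
      have h2 : val (LB m P k) (P j) = 0 := by
        rw [LB, val_prod]
        apply Finset.prod_eq_zero (i := j) (by simp [hk.symm])
        rw [val_lin]
        simp only [wd]
        ring
      rw [val_mul, h2, mul_zero]
    · simp
  · have h1 : (C (∏ j, val (LB m P j) (P j)) * V).IsHomogeneous m := by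
      have := (isHomogeneous_C (Fin 2) (∏ j, val (LB m P j) (P j))).mul hV
      rwa [zero_add] at this
    apply h1.sub
    apply IsHomogeneous.sum
    intro j _
    have := (isHomogeneous_C (Fin 2) ((∏ k ∈ Finset.univ.erase j, val (LB m P k) (P k))
      * val V (P j))).mul (hom_LB m P j)
    rwa [zero_add] at this

private theorem wd_self (P : ℤ × ℤ) : wd P P = 0 := by
  simp only [wd]
  ring

private theorem val_LB_ne (m : ℕ) (P : Fin (m + 1) → ℤ × ℤ)
    (h : ∀ i j, i ≠ j → wd (P i) (P j) ≠ 0) (j : Fin (m + 1)) : val (LB m P j) (P j) ≠ 0 := by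
  rw [LB, val_prod]
  apply Finset.prod_ne_zero_iff.mpr
  intro k hk
  rw [val_lin]
  exact h j k (Finset.ne_of_mem_erase hk).symm

private theorem der_formula (m : ℕ) (P : Fin (m + 1) → ℤ × ℤ)
    (h : ∀ i j, i ≠ j → wd (P i) (P j) ≠ 0) (V : Bf) (hV : V.IsHomogeneous m)
    (i : Fin (m + 1)) (Q : ℤ × ℤ) :
    (der V (P i) Q : ℚ) = ∑ j, (val V (P j) : ℚ) *
      ((der (LB m P j) (P i) Q : ℚ) / (val (LB m P j) (P j) : ℚ)) := by
  classical
  have h1 := congrArg (fun B => (der B (P i) Q : ℚ)) (identity m P h V hV)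
  simp only [der_mul, der_C, der_sum, val_C, mul_zero, add_zero] at h1
  push_cast at h1
  have hW : ∀ j, (val (LB m P j) (P j) : ℚ) ≠ 0 := fun j => by
    exact_mod_cast val_LB_ne m P h j
  have hWp : (∏ j, (val (LB m P j) (P j) : ℚ)) ≠ 0 := Finset.prod_ne_zero_iff.mpr fun j _ => hW j
  apply mul_left_cancel₀ hWp
  rw [h1, Finset.mul_sum]
  apply Finset.sum_congr rfl
  intro j _
  rw [← Finset.mul_prod_erase Finset.univ (fun j => (val (LB m P j) (P j) : ℚ))
    (Finset.mem_univ j)]
  field_simp [hW j]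

theorem lag (p : ℕ) (hp : p.Prime) (m l e : ℕ) (hl : l ≤ e) (P : Fin (m + 1) → ℤ × ℤ)
    (h : ∀ i j, i ≠ j → ¬ ((p ^ l : ℕ) : ℤ) ∣ wd (P i) (P j)) :
    ∃ i, ∀ V : Bf, V.IsHomogeneous m → (∀ j, ((p ^ e : ℕ) : ℤ) ∣ val V (P j)) →
      ∀ Q, ((p ^ (e + 1 - l) : ℕ) : ℤ) ∣ der V (P i) Q := by
  classical
  have : Fact p.Prime := ⟨hp⟩
  have h0 : ∀ i j, i ≠ j → wd (P i) (P j) ≠ 0 := by
    intro i j hij h0
    exact h i j hij (h0 ▸ dvd_zero _)
  -- the norm of a wedge
  have hp1 : (1 : ℚ) < p := by exact_mod_cast hp.one_lt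
  have hp0 : (0 : ℚ) < p := by linarith
  have hwn : ∀ i j, i ≠ j → (p : ℚ) ^ (-(l : ℤ) + 1) ≤ padicNorm p (wd (P i) (P j)) := by
    intro i j hij
    have h1 := h i j hij
    have hne : ((wd (P i) (P j) : ℤ) : ℚ) ≠ 0 := by exact_mod_cast h0 i j hij
    rw [padicNorm.dvd_iff_norm_le, padicNorm.eq_zpow_of_nonzero hne,
      zpow_le_zpow_iff_right₀ hp1] at h1
    rw [padicNorm.eq_zpow_of_nonzero hne, zpow_le_zpow_iff_right₀ hp1]
    omega
  obtain ⟨i, hi⟩ := Finite.exists_min
    (fun i => padicNorm p ((val (LB m P i) (P i) : ℤ) : ℚ))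
  refine ⟨i, fun V hV hVP Q => ?_⟩
  rw [padicNorm.dvd_iff_norm_le, der_formula m P h0 V hV i Q]
  apply padicNorm.sum_le'
  swap
  · positivity
  intro j _
  rw [padicNorm.mul, padicNorm.div]
  have hv : padicNorm p ((val V (P j) : ℤ) : ℚ) ≤ (p : ℚ) ^ (-(e : ℤ)) :=
    padicNorm.dvd_iff_norm_le.mp (hVP j)
  have hWj : 0 < padicNorm p ((val (LB m P j) (P j) : ℤ) : ℚ) := by
    apply lt_of_le_of_ne (padicNorm.nonneg _)
    intro h1
    exact val_LB_ne m P h0 j (by exact_mod_cast padicNorm.zero_of_padicNorm_eq_zero h1.symm)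
  -- the key estimate
  have key : padicNorm p ((der (LB m P j) (P i) Q : ℤ) : ℚ) ≤
      (p : ℚ) ^ ((l : ℤ) - 1) * padicNorm p ((val (LB m P j) (P j) : ℤ) : ℚ) := by
    have hgen : ∀ k, k ≠ i → ∀ z : ℤ, padicNorm p
        (((∏ k' ∈ (Finset.univ.erase i).erase k, wd (P i) (P k')) * z : ℤ) : ℚ) ≤
        (p : ℚ) ^ ((l : ℤ) - 1) * padicNorm p ((val (LB m P i) (P i) : ℤ) : ℚ) := by
      intro k hk z
      have e1 : val (LB m P i) (P i) = wd (P i) (P k) *
          ∏ k' ∈ (Finset.univ.erase i).erase k, wd (P i) (P k') := by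
        rw [LB, val_prod, ← Finset.mul_prod_erase _ _ (by simp [hk] :
          k ∈ Finset.univ.erase i)]
        simp only [val_lin]
      rw [e1]
      push_cast
      rw [padicNorm.mul, padicNorm.mul]
      have e2 := hwn i k hk.symm
      have e3 : padicNorm p ((z : ℤ) : ℚ) ≤ 1 := padicNorm.of_int z
      set W : ℚ := padicNorm p (∏ k' ∈ (Finset.univ.erase i).erase k, ((wd (P i) (P k') : ℤ) : ℚ))
        with hW
      have hW0 : 0 ≤ W := padicNorm.nonneg _
      have e4 : (p : ℚ) ^ ((l : ℤ) - 1) * (p : ℚ) ^ (-(l : ℤ) + 1) = 1 := by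
        rw [← zpow_add₀ hp0.ne']
        have : (l : ℤ) - 1 + (-(l : ℤ) + 1) = 0 := by ring
        rw [this, zpow_zero]
      calc W * padicNorm p ((z : ℤ) : ℚ) ≤ W * 1 := by
            exact mul_le_mul_of_nonneg_left e3 hW0
        _ = (p : ℚ) ^ ((l : ℤ) - 1) * ((p : ℚ) ^ (-(l : ℤ) + 1) * W) := by
            rw [← mul_assoc, e4]
            ring
        _ ≤ (p : ℚ) ^ ((l : ℤ) - 1) * (padicNorm p ((wd (P i) (P k) : ℤ) : ℚ) * W) := by
            apply mul_le_mul_of_nonneg_left _ (by positivity)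
            exact mul_le_mul_of_nonneg_right e2 hW0
    by_cases hji : j = i
    · subst hji
      rw [LB, der_prod]
      push_cast
      apply padicNorm.sum_le'
      · intro k hk
        have hk' : k ≠ j := Finset.ne_of_mem_erase hk
        have := hgen k hk' (der (lin (P k)) (P j) Q)
        simp only [val_lin]
        rw [LB] at this
        exact_mod_cast this
      · exact mul_nonneg (by positivity) (padicNorm.nonneg _)
    · have e1 : der (LB m P j) (P i) Q
          = (∏ k' ∈ (Finset.univ.erase i).erase j, wd (P i) (P k')) * wd Q (P i) := by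
        have hij : i ∈ Finset.univ.erase j := by simp [Ne.symm hji]
        rw [LB, ← Finset.mul_prod_erase _ _ hij, der_mul, val_lin, der_lin', wd_self, zero_mul,
          zero_add, val_prod, Finset.erase_right_comm]
        simp only [val_lin]
      rw [e1]
      refine (hgen j hji _).trans ?_
      apply mul_le_mul_of_nonneg_left (hi j) (by positivity)
  calc padicNorm p ((val V (P j) : ℤ) : ℚ) * (padicNorm p ((der (LB m P j) (P i) Q : ℤ) : ℚ) /
        padicNorm p ((val (LB m P j) (P j) : ℤ) : ℚ))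
      ≤ (p : ℚ) ^ (-(e : ℤ)) * (p : ℚ) ^ ((l : ℤ) - 1) := by
        apply mul_le_mul hv _ _ (by positivity)
        · rw [div_le_iff₀ hWj]
          exact key
        · exact div_nonneg (padicNorm.nonneg _) (padicNorm.nonneg _)
    _ = (p : ℚ) ^ (-((e + 1 - l : ℕ) : ℤ)) := by
        rw [← zpow_add₀ hp0.ne']
        congr 1
        omega

end Pool.Agent.Work.MP_f2148a_nt.M56.N1
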