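import Pool.Agent.Work.MP_f2148a_nt.M56.N1.Dual

set_option autoImplicit false

/-!
N1, module Pair: two points of one class give a zero of the Jacobian of `TB` and `HB`.
-/

namespace Pool.Agent.Work.MP_f2148a_nt.M56.N1

open MvPolynomial

theorem pair_alg (T0 T1 H0 H1 J0 J1 F0 F1 : ℤ) (h : 9 * T0 ^ 2 = -16 * H0 ^ 3 - 27648 * J0 * F0 ^ 3)
    (h' : 18 * T0 * T1 = -48 * H0 ^ 2 * H1 - 27648 * (J1 * F0 ^ 3 + 3 * J0 * F0 ^ 2 * F1)) :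
    16 * H0 ^ 2 * (3 * T0 * H1 - 2 * H0 * T1) =
      27648 * (2 * J0 * F0 ^ 3 * T1 - T0 * (J1 * F0 ^ 3 + 3 * J0 * F0 ^ 2 * F1)) := by
  linear_combination T0 * h' - 2 * T1 * h

theorem pair_real (T0 T1 H0 H1 J0 J1 F1 J₀ H₀ E A dT dF : ℝ) (F0 : ℝ) (hF0 : |F0| ≤ 3)
    (hF0' : 1 ≤ |F0|)
    (h : 9 * T0 ^ 2 = -16 * H0 ^ 3 - 27648 * J0 * F0 ^ 3)
    (h' : 16 * H0 ^ 2 * (3 * T0 * H1 - 2 * H0 * T1) =
      27648 * (2 * J0 * F0 ^ 3 * T1 - T0 * (J1 * F0 ^ 3 + 3 * J0 * F0 ^ 2 * F1)))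
    (hE : 1 ≤ E) (hdT : 0 ≤ dT) (hdF : 0 ≤ dF)
    (hT1 : |T1| ≤ dT * E * |T0|) (hJ1 : |J1| ≤ 3 * E * |J0|) (hF1 : |F1| ≤ dF * E * |F0|)
    (hA : A = 27648 * 27 * (2 * dT + 3 + 3 * dF)) (hJ0 : 1 ≤ |J0|) (hJ : |J0| ≤ J₀) (hH : H₀ ≤ |H0|)
    (hEH : E ^ 4 * J₀ ^ 2 ≤ H₀) (hE4 : 37325 ≤ E ^ 4) (hE2 : A ^ 2 < 64 * E ^ 2) :
    |3 * T0 * H1 - 2 * H0 * T1| < 1 := by
  have hJ₀ : 1 ≤ J₀ := hJ0.trans hJ
  have hE4' : 0 < E ^ 4 := by positivity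
  have hH0 : 1 ≤ |H0| := by
    have : 1 * 1 ≤ E ^ 4 * J₀ ^ 2 := mul_le_mul (by linarith) (by nlinarith) (by norm_num) hE4'.le
    linarith
  -- size of `T0`
  have hT : T0 ^ 2 ≤ 4 * |H0| ^ 3 := by
    have h1 : |J0| ≤ |H0| / 37325 := by
      rw [le_div_iff₀ (by norm_num)]
      have : J₀ * 37325 ≤ E ^ 4 * J₀ ^ 2 := by
        have : J₀ * 37325 ≤ J₀ ^ 2 * E ^ 4 :=
          mul_le_mul (by nlinarith) hE4 (by norm_num) (by positivity)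
        linarith
      nlinarith
    have h2 : |27648 * J0 * F0 ^ 3| ≤ 20 * |H0| ^ 3 := by
      rw [abs_mul, abs_mul, abs_pow]
      have h3 : |F0| ^ 3 ≤ 27 := by
        calc |F0| ^ 3 ≤ 3 ^ 3 := pow_le_pow_left₀ (abs_nonneg _) hF0 3
          _ = 27 := by norm_num
      have h4 : |(27648 : ℝ)| = 27648 := abs_of_pos (by norm_num)
      rw [h4]
      have h5 : |H0| ≤ |H0| ^ 3 := by
        calc |H0| = |H0| ^ 1 := by ring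
          _ ≤ |H0| ^ 3 := pow_le_pow_right₀ hH0 (by norm_num)
      calc 27648 * |J0| * |F0| ^ 3 ≤ 27648 * (|H0| / 37325) * 27 := by gcongr
        _ ≤ 20 * |H0| := by
          have := abs_nonneg H0
          nlinarith
        _ ≤ 20 * |H0| ^ 3 := by linarith
    have h3 : |16 * H0 ^ 3| = 16 * |H0| ^ 3 := by
      rw [abs_mul, abs_pow]
      norm_num
    have h4 := neg_abs_le (16 * H0 ^ 3)
    have h5 := neg_abs_le (27648 * J0 * F0 ^ 3)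
    linarith
  -- size of the right side
  set I := 3 * T0 * H1 - 2 * H0 * T1 with hI
  have hR : |16 * H0 ^ 2 * I| ≤ A * E * (|J0| * |T0|) := by
    rw [h', abs_mul]
    have h4 : |(27648 : ℝ)| = 27648 := abs_of_pos (by norm_num)
    rw [h4]
    have h3 : |F0| ^ 3 ≤ 27 := by
      calc |F0| ^ 3 ≤ 3 ^ 3 := pow_le_pow_left₀ (abs_nonneg _) hF0 3
        _ = 27 := by norm_num
    have a1 : |2 * J0 * F0 ^ 3 * T1| ≤ 2 * |J0| * 27 * (dT * E * |T0|) := by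
      rw [abs_mul, abs_mul, abs_mul, abs_pow]
      have : |(2 : ℝ)| = 2 := abs_of_pos (by norm_num)
      rw [this]
      gcongr
    have a2 : |T0 * (J1 * F0 ^ 3 + 3 * J0 * F0 ^ 2 * F1)| ≤
        |T0| * ((3 * E * |J0|) * 27 + 3 * |J0| * 27 * (dF * E)) := by
      rw [abs_mul]
      refine mul_le_mul_of_nonneg_left ?_ (abs_nonneg _)
      refine (abs_add_le _ _).trans (add_le_add ?_ ?_)
      · rw [abs_mul, abs_pow]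
        gcongr
      · rw [abs_mul, abs_mul, abs_mul, abs_pow]
        have : |(3 : ℝ)| = 3 := abs_of_pos (by norm_num)
        rw [this]
        calc 3 * |J0| * |F0| ^ 2 * |F1| ≤ 3 * |J0| * |F0| ^ 2 * (dF * E * |F0|) := by gcongr
          _ = 3 * |J0| * |F0| ^ 3 * (dF * E) := by ring
          _ ≤ 3 * |J0| * 27 * (dF * E) := by
            have : 0 ≤ dF * E := by positivity
            gcongr
    calc 27648 * |2 * J0 * F0 ^ 3 * T1 - T0 * (J1 * F0 ^ 3 + 3 * J0 * F0 ^ 2 * F1)|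
        ≤ 27648 * (|2 * J0 * F0 ^ 3 * T1| + |T0 * (J1 * F0 ^ 3 + 3 * J0 * F0 ^ 2 * F1)|) := by
          have := abs_sub (2 * J0 * F0 ^ 3 * T1) (T0 * (J1 * F0 ^ 3 + 3 * J0 * F0 ^ 2 * F1))
          linarith
      _ ≤ 27648 * (2 * |J0| * 27 * (dT * E * |T0|) +
          |T0| * ((3 * E * |J0|) * 27 + 3 * |J0| * 27 * (dF * E))) := by linarith
      _ = A * E * (|J0| * |T0|) := by
          rw [hA]
          ring
  -- conclusion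
  have hA0 : 0 < A := by
    rw [hA]
    positivity
  have h6 : 256 * |H0| ^ 4 * I ^ 2 ≤ A ^ 2 * E ^ 2 * (J₀ ^ 2 * (4 * |H0| ^ 3)) := by
    have h7 : |16 * H0 ^ 2 * I| ^ 2 ≤ (A * E * (|J0| * |T0|)) ^ 2 :=
      pow_le_pow_left₀ (abs_nonneg _) hR 2
    have h8 : |16 * H0 ^ 2 * I| ^ 2 = 256 * |H0| ^ 4 * I ^ 2 := by
      rw [sq_abs]
      have : |H0| ^ 4 = H0 ^ 4 := by
        rw [show (4 : ℕ) = 2 * 2 by norm_num, pow_mul, sq_abs, ← pow_mul]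
      rw [this]
      ring
    have h9 : (A * E * (|J0| * |T0|)) ^ 2 = A ^ 2 * E ^ 2 * (|J0| ^ 2 * T0 ^ 2) := by
      rw [mul_pow, mul_pow, mul_pow, sq_abs T0]
    rw [h8, h9] at h7
    refine h7.trans ?_
    have : |J0| ^ 2 ≤ J₀ ^ 2 := pow_le_pow_left₀ (abs_nonneg _) hJ 2
    gcongr
  have hH0' : 0 < |H0| := by linarith
  have h10 : 64 * |H0| * I ^ 2 ≤ A ^ 2 * E ^ 2 * J₀ ^ 2 := by
    have h11 : (4 * |H0| ^ 3) * (64 * |H0| * I ^ 2) ≤ (4 * |H0| ^ 3) * (A ^ 2 * E ^ 2 * J₀ ^ 2) := by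
      calc (4 * |H0| ^ 3) * (64 * |H0| * I ^ 2) = 256 * |H0| ^ 4 * I ^ 2 := by ring
        _ ≤ _ := h6
        _ = _ := by ring
    exact le_of_mul_le_mul_left h11 (by positivity)
  have h12 : E ^ 2 * (64 * I ^ 2) * |H0| ≤ A ^ 2 * |H0| := by
    have h13 : E ^ 4 * J₀ ^ 2 ≤ |H0| := hEH.trans hH
    calc E ^ 2 * (64 * I ^ 2) * |H0| = E ^ 2 * (64 * |H0| * I ^ 2) := by ring
      _ ≤ E ^ 2 * (A ^ 2 * E ^ 2 * J₀ ^ 2) := by gcongr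
      _ = A ^ 2 * (E ^ 4 * J₀ ^ 2) := by ring
      _ ≤ A ^ 2 * |H0| := by gcongr
  have h14 : E ^ 2 * (64 * I ^ 2) ≤ A ^ 2 := le_of_mul_le_mul_right h12 hH0'
  have h15 : I ^ 2 < 1 := by
    have h16 : 64 * E ^ 2 * I ^ 2 < 64 * E ^ 2 * 1 := by linarith
    exact lt_of_mul_lt_mul_left h16 (by positivity)
  exact (sq_lt_one_iff_abs_lt_one I).1 h15

theorem pair (x y α β : ℤ) (V : Fin 2 → Bf) (P Q : ℤ × ℤ) (l : ℤ) (hl : l ≠ 0) (v w : Fin 2 → ℤ)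
    (hv : ∀ c, val (V c) P = l * v c) (hw : ∀ c, der (V c) P Q = l * w c) (J₀ H₀ E A : ℝ)
    (dT dF : ℝ) (hdT : 0 ≤ dT) (hdF : 0 ≤ dF) (hE : 1 ≤ E)
    (hF3 : |Fv (qq x y α β P.1 P.2) (v 0) (v 1)| ≤ 3)
    (hF1 : Fv (qq x y α β P.1 P.2) (v 0) (v 1) ≠ 0)
    (hT : |(der (TB x y α β V) P Q : ℝ)| ≤ dT * E * |(val (TB x y α β V) P : ℝ)|)
    (hJ : |(der (JB x y α β) P Q : ℝ)| ≤ 3 * E * |(val (JB x y α β) P : ℝ)|)
    (hF : |(der (FB x y α β V) P Q : ℝ)| ≤ dF * E * |(val (FB x y α β V) P : ℝ)|)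
    (hA : A = 27648 * 27 * (2 * dT + 3 + 3 * dF)) (hJ0 : Jv (qq x y α β P.1 P.2) ≠ 0)
    (hJ₀ : |((Jv (qq x y α β P.1 P.2) : ℤ) : ℝ)| ≤ J₀)
    (hH₀ : H₀ ≤ |((Hv (qq x y α β P.1 P.2) (v 0) (v 1) : ℤ) : ℝ)|)
    (hEH : E ^ 4 * J₀ ^ 2 ≤ H₀) (hE4 : 37325 ≤ E ^ 4) (hE2 : A ^ 2 < 64 * E ^ 2) :
    3 * val (TB x y α β V) P * der (HB x y α β V) P Q =
      2 * val (HB x y α β V) P * der (TB x y α β V) P Q := by
  obtain ⟨T0, T1, H0, H1, J0, J1, F0, F1, t0, t1, h0, h1, j0, j1, f0, f1, eH, eJ, eF, e1, e2⟩ :=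
    dual_int x y α β V P Q l v w hv hw
  have hlr : (0 : ℝ) < |(l : ℝ)| := abs_pos.2 (by exact_mod_cast hl)
  have key := pair_alg T0 T1 H0 H1 J0 J1 F0 F1 e1 e2
  have hT' : |(T1 : ℝ)| ≤ dT * E * |(T0 : ℝ)| := by
    rw [t0, t1] at hT
    push_cast at hT
    rw [abs_mul, abs_mul, abs_pow] at hT
    have h6 : 0 < |(l : ℝ)| ^ 6 := by positivity
    have : |(l : ℝ)| ^ 6 * |(T1 : ℝ)| ≤ |(l : ℝ)| ^ 6 * (dT * E * |(T0 : ℝ)|) := by linarith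
    exact le_of_mul_le_mul_left this h6
  have hF' : |(F1 : ℝ)| ≤ dF * E * |(F0 : ℝ)| := by
    rw [f0, f1] at hF
    push_cast at hF
    rw [abs_mul, abs_mul, abs_pow] at hF
    have h6 : 0 < |(l : ℝ)| ^ 4 := by positivity
    have : |(l : ℝ)| ^ 4 * |(F1 : ℝ)| ≤ |(l : ℝ)| ^ 4 * (dF * E * |(F0 : ℝ)|) := by linarith
    exact le_of_mul_le_mul_left this h6
  have hJ' : |(J1 : ℝ)| ≤ 3 * E * |(J0 : ℝ)| := by rw [← j0, ← j1]; exact hJ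
  rw [← eJ] at hJ0 hJ₀
  rw [← eH] at hH₀
  rw [← eF] at hF3 hF1
  have hJ1 : (1 : ℝ) ≤ |(J0 : ℝ)| := by
    have : (1 : ℤ) ≤ |J0| := Int.one_le_abs hJ0
    exact_mod_cast this
  have hFa : (1 : ℝ) ≤ |(F0 : ℝ)| := by
    have : (1 : ℤ) ≤ |F0| := Int.one_le_abs hF1
    exact_mod_cast this
  have hFb : |(F0 : ℝ)| ≤ 3 := by exact_mod_cast hF3
  have := pair_real T0 T1 H0 H1 J0 J1 F1 J₀ H₀ E A dT dF F0 hFb hFa (by exact_mod_cast e1)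
    (by exact_mod_cast key) hE hdT hdF hT' hJ' hF' hA hJ1 hJ₀ hH₀ hEH hE4 hE2
  have hz : 3 * T0 * H1 - 2 * H0 * T1 = 0 := by
    have h' : |3 * T0 * H1 - 2 * H0 * T1| < 1 := by exact_mod_cast this
    exact Int.abs_lt_one_iff.1 h'
  rw [t0, t1, h0, h1]
  linear_combination (l ^ 10) * hz

end Pool.Agent.Work.MP_f2148a_nt.M56.N1
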